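import Pool.Agent.Run7.h740.BC.Main4

set_option autoImplicit false
set_option maxHeartbeats 4000000

/-! Values of characters at small primes which do not divide a given integer of size up to `exp (y ^ c)`. -/

namespace Pool.Agent.Run7.h740.BC

open Finset Filter Pool.Agent.H471R4.BW Pool.Agent.R852.BC

/-- **A nontrivial character modulo `Q ≤ y ^ (2 √e - ε)` is not one at some prime `p ≤ y` which does not divide a given
integer of size at most `exp (y ^ c)`.** -/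
theorem ana5 (k : ℕ) (ε : ℝ) (hε : 0 < ε) (hε1 : ε ≤ 1) : ∃ c : ℝ, 0 < c ∧ c ≤ 1 ∧ ∀ᶠ y : ℕ in atTop,
    ∀ (Q : ℕ) (χ : DirichletCharacter ℂ Q) (B : ℤ),
    Q ≠ 0 → χ ≠ 1 → (Q : ℝ) ≤ (y : ℝ) ^ (2 * Real.exp (1 / 2) - ε) → B ≠ 0 →
    (|B| : ℝ) ≤ Real.exp ((y : ℝ) ^ c) →
    ∃ p : ℕ, p.Prime ∧ k < p ∧ p ≤ y ∧ ¬ (p : ℤ) ∣ B ∧ χ (p : ZMod Q) ≠ 1 := by
  obtain ⟨he1, he2⟩ := exp_half_bounds
  set r := Real.exp (1 / 2) with hr
  set η : ℝ := ε / 64 with hη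
  have hη0 : 0 < η := by positivity
  obtain ⟨C, hC0, hfin⟩ := fin_step
  set κ : ℝ := r - ε / 8 with hκ
  have hκ1 : 1 ≤ κ := by rw [hκ]; linarith
  have hκ2 : Real.log κ < 1 / 2 := by
    rw [Real.log_lt_iff_lt_exp (by linarith)]
    rw [hκ, ← hr]
    linarith
  obtain ⟨g, hgdef⟩ : ∃ g, g = 1 / 2 - Real.log κ := ⟨_, rfl⟩
  have hg0 : 0 < g := by rw [hgdef]; linarith
  obtain ⟨c, hc0, hc1, hGest⟩ := G_est2 (g / 2) η 1 (by positivity) hη0 one_pos
  refine ⟨c / 2, by positivity, by linarith, ?_⟩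
  -- eventual inequalities
  have tc : Tendsto (fun q : ℕ => (q : ℝ)) atTop atTop := tendsto_natCast_atTop_atTop
  have tl : Tendsto (fun y : ℕ => Real.log (y : ℝ)) atTop atTop := Real.tendsto_log_atTop.comp tc
  have f1 : ∀ᶠ x : ℝ in atTop, 4 * (1 + 4 * Real.log x) ≤ x ^ (ε / 16) := by
    have h1 := (isLittleO_log_rpow_atTop (show (0 : ℝ) < ε / 16 by positivity)).def
      (show (0 : ℝ) < 1 / 32 by norm_num)
    have h2 : ∀ᶠ x : ℝ in atTop, 8 ≤ x ^ (ε / 16) :=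
      (tendsto_rpow_atTop (show (0 : ℝ) < ε / 16 by positivity)).eventually_ge_atTop _
    filter_upwards [h1, h2, eventually_ge_atTop 1] with x hx hx2 hx1
    have h3 : 0 ≤ Real.log x := Real.log_nonneg hx1
    rw [Real.norm_eq_abs, Real.norm_eq_abs, abs_of_nonneg h3, abs_of_nonneg (by positivity)] at hx
    linarith
  have f5 : ∀ᶠ x : ℝ in atTop, 2 ≤ x ^ (ε / 8) :=
    (tendsto_rpow_atTop (by positivity : (0 : ℝ) < ε / 8)).eventually_ge_atTop _
  have f8 : ∀ᶠ x : ℝ in atTop, 32 / g + k + 9 ≤ x ^ (c / 2) :=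
    (tendsto_rpow_atTop (by positivity : (0 : ℝ) < c / 2)).eventually_ge_atTop _
  filter_upwards [tc.eventually f1, tc.eventually f5, tc.eventually f8,
    tl.eventually_ge_atTop (2 * C / g + 1), hGest, eventually_ge_atTop 16]
    with y g1 g5 g8 g9 hGe hy16 Q χ B hQ0 hχ1 hQ hB0 hB
  by_contra hcon
  push Not at hcon
  have hyr : (16 : ℝ) ≤ y := by exact_mod_cast hy16
  have hy0 : (0 : ℝ) < y := by linarith
  have hy1 : (1 : ℝ) ≤ y := by linarith
  obtain ⟨L, hL⟩ : ∃ L, L = Real.log (y : ℝ) := ⟨_, rfl⟩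
  have u2 : 0 ≤ 2 * C / g := by positivity
  have u3 : 0 < 32 / g := by positivity
  have u4 : (0 : ℝ) ≤ k := Nat.cast_nonneg k
  rw [← hL] at g9
  have hL1 : 1 ≤ L := by linarith
  have hL0 : 0 < L := by linarith
  -- the size of z
  obtain ⟨W, hW⟩ : ∃ W, W = (y : ℝ) ^ (c / 2) := ⟨_, rfl⟩
  rw [← hW] at hB g8
  have hW2 : (y : ℝ) ^ c = W * W := by
    rw [hW, ← Real.rpow_add hy0]
    congr 1
    ring
  have hW9 : 9 ≤ W := by linarith
  obtain ⟨z, hz⟩ : ∃ z : ℕ, z = ⌊(y : ℝ) ^ c⌋₊ := ⟨_, rfl⟩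
  have hzu : (z : ℝ) ≤ (y : ℝ) ^ c := by rw [hz]; exact Nat.floor_le (by positivity)
  have hzl : W * W / 2 ≤ z := by
    have h1 : (y : ℝ) ^ c < (z : ℝ) + 1 := by rw [hz]; exact Nat.lt_floor_add_one _
    rw [hW2] at h1
    nlinarith
  have hWz : W ≤ z := by nlinarith
  have hz8 : 8 ≤ z := by
    have : (8 : ℝ) ≤ z := by linarith
    exact_mod_cast this
  have hzk : k ≤ z := by
    have : (k : ℝ) ≤ z := by linarith
    exact_mod_cast this
  have hz0 : (0 : ℝ) < z := by linarith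
  have hCL : 2 * (C / Real.log y) < g := by
    rw [← hL]
    have h1 : 2 * C / g < L := by linarith
    rw [div_lt_iff₀ hg0] at h1
    rw [← mul_div_assoc, div_lt_iff₀ hL0]
    linarith [mul_comm L g]
  haveI : NeZero Q := ⟨hQ0⟩
  have hQ2 : 2 ≤ Q := by
    rcases Nat.lt_or_ge Q 2 with h | h
    · exfalso
      have hQ1 : Q = 1 := by omega
      subst hQ1
      exact hχ1 (Subsingleton.elim _ _)
    · exact h
  have hgood : ∀ l : ℕ, l.Prime → k < l → l ≤ y → l ≠ 2 → ¬ (l : ℤ) ∣ B → χ (l : ZMod Q) = 1 :=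
    fun l hl hkl hly2 _ hlB => hcon l hl hkl hly2 hlB
  set E : ℝ := 2 * r - ε with hE
  have hE4 : E ≤ 4 := by rw [hE]; linarith
  have hBpos : 0 < |(B : ℝ)| := by positivity
  have hEz : Real.log |(B : ℝ)| / z ≤ g / 8 := by
    have e2 : Real.log |(B : ℝ)| ≤ W := by
      have := Real.log_le_log hBpos hB
      rwa [Real.log_exp] at this
    rw [div_le_iff₀ hz0]
    have h2 : 32 / g ≤ W := by linarith
    rw [div_le_iff₀ hg0] at h2
    have h3 : g / 8 * (W * W / 2) ≤ g / 8 * z := mul_le_mul_of_nonneg_left hzl (by positivity)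
    have h4 : 32 * W ≤ W * g * W := mul_le_mul_of_nonneg_right h2 (by linarith)
    have h5 : g / 8 * (W * W / 2) = W * g * W / 16 := by ring
    linarith
  set M : ℝ := (Q : ℝ) with hM
  have hM2 : 2 ≤ M := by
    rw [hM]
    exact_mod_cast hQ2
  have hMpos : 0 < M := by linarith
  have hM1 : 1 ≤ M := by linarith
  set T : ℝ := 4 * √M * (1 + Real.log M) with hT
  have hlM : 0 ≤ Real.log M := Real.log_nonneg hM1
  have hT0 : 0 < T := by positivity
  have hPV : ∀ Y : ℕ, ‖shortSum Q χ Y‖ ≤ T := by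
    intro Y
    exact Pool.Agent.H38R2.CG.PVh.sum_le Q χ hQ2 hχ1 Y
  set X : ℕ := ⌈(y : ℝ) ^ (r - ε / 4)⌉₊ with hX
  have hXl : (y : ℝ) ^ (r - ε / 4) ≤ X := Nat.le_ceil _
  have hy54 : (1 : ℝ) ≤ (y : ℝ) ^ (r - ε / 4) := Real.one_le_rpow hy1 (by linarith)
  have hXu : (X : ℝ) ≤ (y : ℝ) ^ κ := by
    have h1 : (X : ℝ) ≤ (y : ℝ) ^ (r - ε / 4) + 1 := (Nat.ceil_lt_add_one (by positivity)).le
    have h2 : (y : ℝ) ^ κ = (y : ℝ) ^ (ε / 8) * (y : ℝ) ^ (r - ε / 4) := by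
      rw [← Real.rpow_add hy0]
      congr 1
      rw [hκ]
      ring
    rw [h2]
    calc (X : ℝ) ≤ 2 * (y : ℝ) ^ (r - ε / 4) := by linarith
      _ ≤ (y : ℝ) ^ (ε / 8) * (y : ℝ) ^ (r - ε / 4) :=
          mul_le_mul_of_nonneg_right g5 (by linarith)
  have hX1 : 1 ≤ X := by
    have : (1 : ℝ) ≤ X := hy54.trans hXl
    exact_mod_cast this
  have hXpos : (0 : ℝ) < X := by exact_mod_cast hX1
  -- bound for T
  have hTy : T ≤ (y : ℝ) ^ (E / 2 + ε / 16) := by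
    have h1 : √M ≤ (y : ℝ) ^ (E / 2) := by
      calc √M ≤ √((y : ℝ) ^ E) := Real.sqrt_le_sqrt hQ
        _ = (y : ℝ) ^ (E / 2) := by
          rw [Real.sqrt_eq_rpow, ← Real.rpow_mul hy0.le]
          congr 1
          ring
    have h2 : Real.log M ≤ 4 * Real.log y := by
      have h3 := Real.log_le_log hMpos hQ
      rw [Real.log_rpow hy0] at h3
      have h4 : 0 ≤ Real.log (y : ℝ) := Real.log_nonneg hy1
      nlinarith
    calc T ≤ 4 * (y : ℝ) ^ (E / 2) * (1 + 4 * Real.log y) := by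
          rw [hT]
          gcongr
      _ = (y : ℝ) ^ (E / 2) * (4 * (1 + 4 * Real.log y)) := by ring
      _ ≤ (y : ℝ) ^ (E / 2) * (y : ℝ) ^ (ε / 16) := by gcongr
      _ = (y : ℝ) ^ (E / 2 + ε / 16) := by
          rw [← Real.rpow_add hy0]
  have hTX : T * (y : ℝ) ^ η ≤ X := by
    calc T * (y : ℝ) ^ η ≤ (y : ℝ) ^ (E / 2 + ε / 16) * (y : ℝ) ^ η :=
          mul_le_mul_of_nonneg_right hTy (by positivity)
      _ = (y : ℝ) ^ (E / 2 + ε / 16 + η) := by rw [← Real.rpow_add hy0]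
      _ ≤ (y : ℝ) ^ (r - ε / 4) := Real.rpow_le_rpow_of_exponent_le hy1 (by rw [hE, hη]; linarith)
      _ ≤ X := hXl
  have hT1 : 1 ≤ T := by
    have h1 : 1 ≤ √M := by
      rw [Real.one_le_sqrt]
      exact hM1
    rw [hT]
    nlinarith [mul_nonneg (Real.sqrt_nonneg M) hlM]
  have hG2 : ‖G χ (exc χ z) X‖ ≤ g / 2 * X :=
    hGe Q χ z X 0 T hzu le_rfl (by positivity) hT1 hTX
      (fun Y _ => Or.inr ⟨hPV Y, shortSum_triv χ Y⟩)
  have hlogX : Real.log X ≤ κ * Real.log y := by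
    have := Real.log_le_log hXpos hXu
    rwa [Real.log_rpow hy0] at this
  exact hfin Q χ k z y X B κ g hB0 hzk hz8 (by omega) hX1 hκ1 hlogX
    hg0 (by rw [hgdef]) hCL hEz hgood hG2

end Pool.Agent.Run7.h740.BC
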