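import Pool.Agent.R852.LK.Pairs

set_option autoImplicit false
set_option maxHeartbeats 4000000

/-! Few square classes, with uniformity in the size. -/

open Finset Filter Topology

namespace Pool.Agent.Run7.h740.BC

open Pool.Agent.R852.LK

/-- **Few square classes**: at most `(y F) ^ e` classes of size `F ≤ exp (y ^ (e / 16))`. -/
theorem core2 (e : ℝ) (he : 0 < e) (he1 : e ≤ 1) : ∀ᶠ y : ℕ in atTop, ∀ F : ℝ, 1 ≤ F →
    Real.log F ≤ (y : ℝ) ^ (e / 16) → ∀ T : Finset ℤ, (∀ f ∈ T, f ≠ 0 ∧ |(f : ℝ)| ≤ F) →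
    (∀ f ∈ T, ∀ g ∈ T, f ≠ g → ¬ IsSquare (f * g)) →
    (∀ f ∈ T, ((PR y).card : ℝ) / 2 ≤ ∑ p ∈ PR y, (ps f p : ℝ)) → (T.card : ℝ) ≤ ((y : ℝ) * F) ^ e := by
  set δ : ℝ := e / 8 with hδ
  have hδ0 : 0 < δ := by positivity
  have hδ1 : δ ≤ 1 / 8 := by rw [hδ]; linarith
  have tc : Tendsto (fun q : ℕ => (q : ℝ)) atTop atTop := tendsto_natCast_atTop_atTop
  have tl : Tendsto (fun y : ℕ => Real.log (y : ℝ)) atTop atTop := Real.tendsto_log_atTop.comp tc
  have e1 : ∀ᶠ x : ℝ in atTop, 44 ≤ x ^ (e / 16) :=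
    (tendsto_rpow_atTop (by positivity : (0 : ℝ) < e / 16)).eventually_ge_atTop _
  have e2 : ∀ᶠ x : ℝ in atTop, 4 * Real.exp 3 ≤ x ^ (e / 2) :=
    (tendsto_rpow_atTop (by positivity : (0 : ℝ) < e / 2)).eventually_ge_atTop _
  filter_upwards [card_PR δ hδ0 (by linarith), tc.eventually e1, tc.eventually e2, tl.eventually_ge_atTop 1,
    eventually_ge_atTop 1] with y hK h44 h4e hl1 hy1 F hF1 hlF T hT hTT hfew
  have hy0 : (0 : ℝ) < y := by exact_mod_cast hy1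
  have hyone : (1 : ℝ) ≤ y := by exact_mod_cast hy1
  have hF0 : 0 < F := by linarith
  obtain ⟨K, hKdef⟩ : ∃ K : ℝ, K = ((PR y).card : ℝ) := ⟨_, rfl⟩
  rw [← hKdef] at hK hfew
  have hK0 : 0 < K := lt_of_lt_of_le (Real.rpow_pos_of_pos hy0 _) hK
  have hlF0 : 0 ≤ Real.log F := Real.log_nonneg hF1
  obtain ⟨l, hl⟩ : ∃ l, l = Real.log (y : ℝ) := ⟨_, rfl⟩
  rw [← hl] at hl1
  -- the number of primes in the products
  obtain ⟨B, hB⟩ : ∃ B : ℕ, B = ⌈(2 * Real.log F + 3) / ((1 - 2 * δ) * l)⌉₊ := ⟨_, rfl⟩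
  have hd : 0 < (1 - 2 * δ) * l := by
    apply mul_pos _ (by linarith)
    linarith
  have hBl : (2 * Real.log F + 3) / ((1 - 2 * δ) * l) ≤ B := by rw [hB]; exact Nat.le_ceil _
  have hBu : (B : ℝ) ≤ (2 * Real.log F + 3) / ((1 - 2 * δ) * l) + 1 := by
    rw [hB]
    exact (Nat.ceil_lt_add_one (by positivity)).le
  have hBl' : 2 * Real.log F + 3 ≤ B * ((1 - 2 * δ) * l) := by rwa [div_le_iff₀ hd] at hBl
  have hBu' : (B : ℝ) * l ≤ 2 * (2 * Real.log F + 3) + l := by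
    have h1 : (2 * Real.log F + 3) / ((1 - 2 * δ) * l) * l = (2 * Real.log F + 3) / (1 - 2 * δ) := by
      have : l ≠ 0 := by linarith
      have : 1 - 2 * δ ≠ 0 := by linarith
      field_simp
    have h2 : (2 * Real.log F + 3) / (1 - 2 * δ) ≤ 2 * (2 * Real.log F + 3) := by
      rw [div_le_iff₀ (by linarith)]
      nlinarith
    calc (B : ℝ) * l ≤ ((2 * Real.log F + 3) / ((1 - 2 * δ) * l) + 1) * l :=
          mul_le_mul_of_nonneg_right hBu (by linarith)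
      _ = (2 * Real.log F + 3) / ((1 - 2 * δ) * l) * l + l := by ring
      _ ≤ _ := by rw [h1]; linarith
  have h4B : 4 * (B : ℝ) ≤ (y : ℝ) ^ δ := by
    have h1 : (B : ℝ) ≤ 4 * (y : ℝ) ^ (e / 16) + 7 := by
      have h3 : (B : ℝ) ≤ B * l := le_mul_of_one_le_right (Nat.cast_nonneg _) hl1
      have h5 : (2 * Real.log F + 3) / ((1 - 2 * δ) * l) ≤ 2 * (2 * Real.log F + 3) := by
        rw [div_le_iff₀ hd]
        have h6 : 1 / 2 ≤ (1 - 2 * δ) * l := by nlinarith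
        nlinarith
      linarith
    have h2 : (y : ℝ) ^ δ = (y : ℝ) ^ (e / 16) * (y : ℝ) ^ (e / 16) := by
      rw [← Real.rpow_add hy0]
      congr 1
      rw [hδ]
      ring
    rw [h2]
    nlinarith
  have hyd : 0 < (y : ℝ) ^ (1 - 2 * δ) := Real.rpow_pos_of_pos hy0 _
  have hKB : (4 * (B : ℝ)) ^ B * ((y : ℝ) ^ (1 - 2 * δ)) ^ B ≤ K ^ B := by
    rw [← mul_pow]
    apply pow_le_pow_left₀ (by positivity)
    calc 4 * (B : ℝ) * (y : ℝ) ^ (1 - 2 * δ) ≤ (y : ℝ) ^ δ * (y : ℝ) ^ (1 - 2 * δ) :=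
          mul_le_mul_of_nonneg_right h4B hyd.le
      _ = (y : ℝ) ^ (1 - δ) := by
          rw [← Real.rpow_add hy0]
          congr 1
          ring
      _ ≤ K := hK
  have h8F : 8 * F ^ 2 ≤ ((y : ℝ) ^ (1 - 2 * δ)) ^ B := by
    have h1 : ((y : ℝ) ^ (1 - 2 * δ)) ^ B = Real.exp (B * ((1 - 2 * δ) * l)) := by
      rw [← Real.rpow_natCast, ← Real.rpow_mul hy0.le, Real.rpow_def_of_pos hy0, ← hl]
      congr 1
      ring
    rw [h1]
    calc 8 * F ^ 2 ≤ Real.exp 3 * F ^ 2 := by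
          apply mul_le_mul_of_nonneg_right _ (by positivity)
          have h2 := Real.exp_one_gt_d9
          have h3 : Real.exp 3 = Real.exp 1 * Real.exp 1 * Real.exp 1 := by
            rw [← Real.exp_add, ← Real.exp_add]
            norm_num
          rw [h3]
          nlinarith [mul_pos (Real.exp_pos 1) (Real.exp_pos 1)]
      _ = Real.exp (3 + 2 * Real.log F) := by
          rw [Real.exp_add]
          congr 1
          rw [show 2 * Real.log F = Real.log F * (2 : ℕ) by push_cast; ring, Real.exp_mul, Real.exp_log hF0,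
            Real.rpow_natCast]
      _ ≤ _ := Real.exp_le_exp.mpr (by linarith)
  have hmain := ineq B y (PR y) (fun p hp => (mem_PR.mp hp).2.1)
    (fun p hp => (mem_PR.mp hp).1.le) T F hF0.le hT hTT (by rw [← hKdef]; exact hfew)
  rw [← hKdef] at hmain
  obtain ⟨R, hR⟩ : ∃ R : ℝ, R = (T.card : ℝ) := ⟨_, rfl⟩
  rw [← hR] at hmain ⊢
  have hRn : 0 ≤ R := by rw [hR]; exact Nat.cast_nonneg _
  rcases eq_or_lt_of_le hRn with hR0 | hRpos
  · rw [← hR0]; positivity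
  have hKBp : 0 < K ^ B := by positivity
  obtain ⟨c, hc⟩ : ∃ c : ℝ, c = (4 * (B : ℝ)) ^ B := ⟨_, rfl⟩
  have hc0 : 0 ≤ c := by rw [hc]; positivity
  rw [← hc] at hKB
  -- divide
  have s1 : R ^ 2 * K ^ B ≤ c * (R * ((y : ℝ) ^ B + 1) + R ^ 2 * (4 * F ^ 2)) := by
    have h1 : (R * (K / 2) ^ B) ^ 2 = K ^ B * (R ^ 2 * K ^ B / 4 ^ B) := by
      rw [div_pow, show (4 : ℝ) = 2 * 2 by norm_num, mul_pow 2 2 B]; field_simp
    rw [h1] at hmain
    have h2 := le_of_mul_le_mul_left hmain hKBp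
    rw [div_le_iff₀ (by positivity)] at h2
    calc R ^ 2 * K ^ B ≤ _ := h2
      _ = _ := by rw [hc, mul_pow]; ring
  have s3 : c * (4 * F ^ 2) ≤ K ^ B / 2 := by
    have h1 : c * (8 * F ^ 2) ≤ c * ((y : ℝ) ^ (1 - 2 * δ)) ^ B := mul_le_mul_of_nonneg_left h8F hc0
    linarith
  have s5 : (y : ℝ) ^ B + 1 ≤ 2 * (y : ℝ) ^ B := by
    have : 1 ≤ (y : ℝ) ^ B := one_le_pow₀ hyone
    linarith
  have s6 : R * K ^ B ≤ 4 * c * (y : ℝ) ^ B := by
    have h1 : R ^ 2 * K ^ B ≤ c * (R * (2 * (y : ℝ) ^ B)) + R ^ 2 * (K ^ B / 2) := by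
      have h2 : c * (R * ((y : ℝ) ^ B + 1)) ≤ c * (R * (2 * (y : ℝ) ^ B)) := by gcongr
      have h3 : c * (R ^ 2 * (4 * F ^ 2)) ≤ R ^ 2 * (K ^ B / 2) := by
        have := mul_le_mul_of_nonneg_left s3 (sq_nonneg R)
        calc c * (R ^ 2 * (4 * F ^ 2)) = R ^ 2 * (c * (4 * F ^ 2)) := by
              ring
          _ ≤ _ := this
      rw [mul_add] at s1
      linarith
    have h4 : R * (R * K ^ B) ≤ R * (4 * c * (y : ℝ) ^ B) := by nlinarith
    exact le_of_mul_le_mul_left h4 hRpos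
  -- compare the powers
  have s7 : R * ((y : ℝ) ^ (1 - 2 * δ)) ^ B ≤ 4 * (y : ℝ) ^ B := by
    rcases eq_or_lt_of_le hc0 with h0 | h0
    · exfalso
      rw [← h0] at s6
      have : 0 < R * K ^ B := by positivity
      linarith
    · have h1 : R * (c * ((y : ℝ) ^ (1 - 2 * δ)) ^ B) ≤ 4 * c * (y : ℝ) ^ B :=
        (mul_le_mul_of_nonneg_left hKB hRpos.le).trans s6
      have h2 : c * (R * ((y : ℝ) ^ (1 - 2 * δ)) ^ B) ≤ c * (4 * (y : ℝ) ^ B) := by linarith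
      exact le_of_mul_le_mul_left h2 h0
  have s8 : R ≤ 4 * Real.exp (2 * δ * (B * l)) := by
    have h1 : (y : ℝ) ^ B = ((y : ℝ) ^ (1 - 2 * δ)) ^ B * Real.exp (2 * δ * (B * l)) := by
      have e3 : ((y : ℝ) ^ (1 - 2 * δ)) ^ B = Real.exp (B * ((1 - 2 * δ) * l)) := by
        rw [← Real.rpow_natCast, ← Real.rpow_mul hy0.le, Real.rpow_def_of_pos hy0, ← hl]
        congr 1
        ring
      have e4 : (y : ℝ) ^ B = Real.exp (B * l) := by
        rw [← Real.rpow_natCast, Real.rpow_def_of_pos hy0, ← hl]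
        congr 1
        ring
      rw [e3, e4, ← Real.exp_add]
      congr 1
      ring
    rw [h1] at s7
    have h2 : ((y : ℝ) ^ (1 - 2 * δ)) ^ B * R ≤
        ((y : ℝ) ^ (1 - 2 * δ)) ^ B * (4 * Real.exp (2 * δ * (B * l))) := by linarith
    exact le_of_mul_le_mul_left h2 (by positivity)
  have s9 : 2 * δ * (B * l) ≤ e * Real.log F + 3 + e / 2 * l := by
    have h1 : 2 * δ * (B * l) ≤ 2 * δ * (2 * (2 * Real.log F + 3) + l) :=
      mul_le_mul_of_nonneg_left hBu' (by positivity)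
    have h2 : 2 * δ * (2 * (2 * Real.log F + 3) + l) = e * Real.log F + 12 * δ + e / 4 * l := by
      rw [hδ]
      ring
    have h3 : e / 4 * l ≤ e / 2 * l := mul_le_mul_of_nonneg_right (by linarith) (by linarith)
    linarith
  have s10 : Real.exp (2 * δ * (B * l)) ≤ F ^ e * Real.exp 3 * (y : ℝ) ^ (e / 2) := by
    calc Real.exp (2 * δ * (B * l)) ≤ Real.exp (e * Real.log F + 3 + e / 2 * l) := Real.exp_le_exp.mpr s9
      _ = F ^ e * Real.exp 3 * (y : ℝ) ^ (e / 2) := by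
          rw [Real.exp_add, Real.exp_add, Real.rpow_def_of_pos hF0, Real.rpow_def_of_pos hy0, ← hl,
            mul_comm (Real.log F) e, mul_comm l (e / 2)]
  calc R ≤ 4 * Real.exp (2 * δ * (B * l)) := s8
    _ ≤ 4 * (F ^ e * Real.exp 3 * (y : ℝ) ^ (e / 2)) := by linarith
    _ = (4 * Real.exp 3) * ((y : ℝ) ^ (e / 2) * F ^ e) := by ring
    _ ≤ (y : ℝ) ^ (e / 2) * ((y : ℝ) ^ (e / 2) * F ^ e) := mul_le_mul_of_nonneg_right h4e (by positivity)
    _ = ((y : ℝ) * F) ^ e := by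
        rw [Real.mul_rpow hy0.le hF0.le, ← mul_assoc, ← Real.rpow_add hy0]
        congr 2
        ring

lemma sq_one_aux (a b : ℤ) (h1 : a * (b * b) = 1) (h2 : -1 ≤ a) (h3 : a ≤ 1) (h4 : -1 ≤ b) (h5 : b ≤ 1) : a = 1 := by
  have h6 : 0 ≤ b * b := mul_self_nonneg b
  have h7 : b * b ≤ 1 := by nlinarith
  have h8 : b * b = 0 ∨ b * b = 1 := by omega
  rcases h8 with h8 | h8
  · rw [h8] at h1
    omega
  · rw [h8] at h1
    omega

/-- the symbols of the squarefree part of a discriminant -/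
lemma few_of (n : ℕ) (D f s : ℤ) (hD0 : D ≠ 0) (hD : IsDisc n D) (hfs : D = f * s ^ 2) (hK : (0 : ℝ) ≤ ((PR n).card : ℝ))
    (hlog : 8 * Real.log |(D : ℝ)| ≤ ((PR n).card : ℝ)) :
    ((PR n).card : ℝ) / 2 ≤ ∑ p ∈ PR n, (ps f p : ℝ) := by
  classical
  obtain ⟨c₁, c₂, hRR, hc⟩ := hD
  set E : Finset ℕ := (PR n).filter fun p : ℕ => (p : ℤ) ∣ D with hE
  have hd1 : (∏ p ∈ E, p) ∣ D.natAbs := by
    apply Finset.prod_primes_dvd
    · intro p hp
      exact (mem_PR.mp (mem_filter.mp hp).1).2.1.prime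
    · intro p hp
      exact Int.natCast_dvd.mp (mem_filter.mp hp).2
  have hd2 : 2 ^ E.card ≤ D.natAbs := by
    calc 2 ^ E.card = ∏ _p ∈ E, 2 := by rw [prod_const]
      _ ≤ ∏ p ∈ E, p := prod_le_prod' fun p hp =>
          (mem_PR.mp (mem_filter.mp hp).1).2.1.two_le
      _ ≤ D.natAbs := Nat.le_of_dvd (Int.natAbs_pos.mpr hD0) hd1
  have hd3 : ((2 : ℝ) ^ E.card) ≤ |(D : ℝ)| := by
    have h1 : ((2 ^ E.card : ℕ) : ℝ) ≤ (D.natAbs : ℝ) := by exact_mod_cast hd2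
    push_cast at h1
    rwa [Nat.cast_natAbs, Int.cast_abs] at h1
  have hd4 : (E.card : ℝ) * Real.log 2 ≤ Real.log |(D : ℝ)| := by
    have h1 := Real.log_le_log (by positivity) hd3
    rwa [Real.log_pow] at h1
  have hl2 : (1 / 2 : ℝ) ≤ Real.log 2 := by linarith [Real.log_two_gt_d9]
  have hd5 : (E.card : ℝ) ≤ ((PR n).card : ℝ) / 4 := by
    have h1 : (E.card : ℝ) * (1 / 2) ≤ Real.log |(D : ℝ)| :=
      (mul_le_mul_of_nonneg_left hl2 (Nat.cast_nonneg _)).trans hd4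
    linarith
  have hlow : ∀ p ∈ PR n, (1 : ℝ) - (if (p : ℤ) ∣ D then 2 else 0) ≤ (ps f p : ℝ) := by
    intro p hp
    obtain ⟨hp1, hp2, hp3⟩ := mem_PR.mp hp
    split_ifs with h
    · have := (abs_le.mp (ps_abs f p)).1
      have h' : ((-1 : ℤ) : ℝ) ≤ (ps f p : ℝ) := by exact_mod_cast this
      push_cast at h'
      linarith
    · have h1 : ps D p = 1 := by
        apply ps_one_of _ p hp2 hp3 h
        rw [← hc]
        exact Pool.Agent.R920.CH.square_mod hRR p hp2 hp3 (by omega)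
      rw [hfs, sq, ps_left, ps_left] at h1
      have h2 := abs_le.mp (ps_abs f p)
      have h3 := abs_le.mp (ps_abs s p)
      have h4 : ps f p = 1 := sq_one_aux _ _ h1 h2.1 h2.2 h3.1 h3.2
      rw [h4]
      norm_num
  have hs := sum_le_sum hlow
  rw [sum_sub_distrib, sum_const, nsmul_eq_mul, mul_one, ← sum_filter, sum_const,
    nsmul_eq_mul] at hs
  have hDc : (((PR n).filter fun p : ℕ => (p : ℤ) ∣ D).card : ℝ) = E.card := rfl
  rw [hDc] at hs
  linarith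

end Pool.Agent.Run7.h740.BC
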