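import Pool.Agent.Run7.h740.BC.Fin4
import Pool.Agent.Run7.h740.BC.Lk2

set_option autoImplicit false
set_option maxHeartbeats 4000000

/-! Few exceptional discriminants of size up to `exp (n ^ c)`. -/

open Finset Filter Topology

namespace Pool.Agent.Run7.h740.BC

open Pool.Agent.R920.CH Pool.Agent.R852.BC Pool.Agent.R852.LK

/-- **Few exceptional discriminants.** -/
theorem count4 (ε : ℝ) (hε : 0 < ε) (hε1 : ε ≤ 1) : ∃ c : ℝ, 0 < c ∧ c ≤ 1 ∧ ∀ᶠ n : ℕ in atTop, ∀ X : ℝ, 0 ≤ X →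
    X ≤ Real.exp ((n : ℝ) ^ c) →
    ∀ S : Finset ℤ, (∀ D ∈ S, |(D : ℝ)| ≤ X ∧ ¬ IsSquare D ∧ IsDisc n D) →
      (S.card : ℝ) ≤ √X / (n : ℝ) ^ (2 * Real.exp (1 / 2) - ε) := by
  classical
  obtain ⟨he1, he2⟩ := exp_half_bounds
  obtain ⟨c₀, hc₀0, hc₀1, hrank⟩ := rank_two4 ε hε
  obtain ⟨e, he⟩ : ∃ e, e = ε / 64 := ⟨_, rfl⟩
  have he0 : 0 < e := by rw [he]; positivity
  have he64 : e ≤ 1 / 64 := by rw [he]; linarith
  obtain ⟨c, hc⟩ : ∃ c, c = min c₀ (e / 32) := ⟨_, rfl⟩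
  have hc0 : 0 < c := by rw [hc]; exact lt_min hc₀0 (by positivity)
  have hcc : c ≤ c₀ := by rw [hc]; exact min_le_left _ _
  have hce : c ≤ e / 32 := by rw [hc]; exact min_le_right _ _
  refine ⟨c, hc0, by linarith, ?_⟩
  have tc : Tendsto (fun q : ℕ => (q : ℝ)) atTop atTop := tendsto_natCast_atTop_atTop
  have g1 : ∀ᶠ x : ℝ in atTop, 8 ≤ x ^ (e / 32) :=
    (tendsto_rpow_atTop (by positivity : (0 : ℝ) < e / 32)).eventually_ge_atTop _
  have g2 : ∀ᶠ x : ℝ in atTop, 16 ≤ x ^ (1 / 4 : ℝ) :=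
    (tendsto_rpow_atTop (by norm_num : (0 : ℝ) < 1 / 4)).eventually_ge_atTop _
  filter_upwards [core2 e he0 (by linarith), hrank,
    tc.eventually g1, tc.eventually g2, card_PR (1 / 2) (by norm_num) (by norm_num), eventually_ge_atTop 1]
    with n hcore hrank h8 h16 hK hn1 X hX0 hXA S hS
  have hn0 : (0 : ℝ) < n := by exact_mod_cast hn1
  have hnone : (1 : ℝ) ≤ n := by exact_mod_cast hn1
  have hthr : (n : ℝ) ^ c ≤ (n : ℝ) ^ (e / 32) := Real.rpow_le_rpow_of_exponent_le hnone hce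
  have hXA' : X ≤ Real.exp ((n : ℝ) ^ c₀) :=
    hXA.trans (Real.exp_le_exp.mpr (Real.rpow_le_rpow_of_exponent_le hnone hcc))
  have hne : ∀ D ∈ S, D ≠ 0 := by
    rintro D hD rfl
    exact (hS 0 hD).2.1 ⟨0, by ring⟩
  obtain ⟨E, hE⟩ : ∃ E, E = 4 * Real.exp (1 / 2) - ε := ⟨_, rfl⟩
  have hE7 : E ≤ 7 := by rw [hE]; linarith
  have hE5 : 5 ≤ E := by rw [hE]; linarith
  -- the logarithm of X
  have hlogX : ∀ D ∈ S, Real.log |(D : ℝ)| ≤ (n : ℝ) ^ (e / 32) := by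
    intro D hD
    have h1 : 0 < |(D : ℝ)| := by
      have := hne D hD
      positivity
    have h2 := Real.log_le_log h1 ((hS D hD).1.trans hXA)
    rw [Real.log_exp] at h2
    exact h2.trans hthr
  have hpow4 : (n : ℝ) ^ (e / 32) ≤ (n : ℝ) ^ (1 / 4 : ℝ) :=
    Real.rpow_le_rpow_of_exponent_le hnone (by linarith)
  have hpowhalf : (n : ℝ) ^ (1 - 1 / 2 : ℝ) = (n : ℝ) ^ (1 / 4 : ℝ) * (n : ℝ) ^ (1 / 4 : ℝ) := by
    rw [← Real.rpow_add hn0]
    norm_num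
  have hK8 : 8 * (n : ℝ) ^ (e / 32) ≤ ((PR n).card : ℝ) := by
    refine le_trans ?_ hK
    rw [hpowhalf]
    have : 0 ≤ (n : ℝ) ^ (1 / 4 : ℝ) := by positivity
    nlinarith
  choose! κ σ h1 h2 h3 using sqf
  have hf0 : ∀ D ∈ S, κ D ≠ 0 := fun D hD => (h1 D (hne D hD)).ne_zero
  -- the size of the squarefree parts
  have hfX : ∀ D ∈ S, |(κ D : ℝ)| ≤ |(D : ℝ)| := by
    intro D hD
    have e1 := h3 D (hne D hD)
    have e2 := h2 D (hne D hD)
    have e3 : |D| = |κ D| * σ D ^ 2 := by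
      conv_lhs => rw [e1]
      rw [abs_mul, abs_of_nonneg (sq_nonneg (σ D))]
    have e4 : |κ D| ≤ |D| := by
      rw [e3]
      have : (1 : ℤ) ≤ σ D ^ 2 := by nlinarith
      nlinarith [abs_nonneg (κ D)]
    exact_mod_cast e4
  have hlarge : ∀ D ∈ S, (n : ℝ) ^ E ≤ |(κ D : ℝ)| := by
    intro D hD
    by_contra hcon
    push Not at hcon
    obtain ⟨hX, hns, c₁, c₂, hRR, hc⟩ := hS _ hD
    have e1 := h3 D (hne D hD)
    obtain ⟨a, b, ha, hb⟩ := hrank c₁ c₂ (κ D) (σ D) hRR (by rw [hc]; exact e1)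
      (by rw [hc]; push_cast; exact hX.trans hXA') (by push_cast; rw [← hE]; exact hcon.le)
    apply hns
    refine ⟨a - b, ?_⟩
    rw [← hc, ha, hb]; ring
  -- representatives
  have hrep : ∀ f ∈ S.image κ, ∃ D ∈ S, κ D = f := fun f hf => Finset.mem_image.mp hf
  have hfib : ∀ f ∈ S.image κ, ((S.filter fun D => κ D = f).card : ℝ) ≤ √X / √|(f : ℝ)| := by
    intro f hf
    obtain ⟨D, hD, rfl⟩ := hrep f hf
    apply fib X (κ D) (hf0 D hD) (S.filter fun D' => κ D' = κ D) σ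
    intro D' hD'
    rw [Finset.mem_filter] at hD'
    refine ⟨(hS D' hD'.1).1, h2 D' (hne D' hD'.1), ?_⟩
    have := h3 D' (hne D' hD'.1)
    rwa [hD'.2] at this
  -- dyadic classes
  obtain ⟨U, hU⟩ : ∃ U : ℝ, U = 2 * ((n : ℝ) ^ e * ((n : ℝ) ^ E) ^ (e - 1 / 2)) * √X := ⟨_, rfl⟩
  have hU0 : 0 ≤ U := by rw [hU]; positivity
  obtain ⟨J, hJ⟩ : ∃ J : ℕ, J = ⌊3 * (n : ℝ) ^ (e / 32)⌋₊ + 1 := ⟨_, rfl⟩
  have hJmem : ∀ f ∈ S.image κ, Nat.log 2 f.natAbs ∈ Finset.range J := by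
    intro f hf
    obtain ⟨D, hD, rfl⟩ := hrep f hf
    rw [Finset.mem_range, hJ, Nat.lt_succ_iff]
    apply Nat.le_floor
    have e1 : 2 ^ Nat.log 2 (κ D).natAbs ≤ (κ D).natAbs :=
      Nat.pow_log_le_self 2 (Int.natAbs_pos.mpr (hf0 D hD)).ne'
    have e2 : ((2 : ℝ) ^ Nat.log 2 (κ D).natAbs) ≤ |(D : ℝ)| := by
      have e3 : (((2 ^ Nat.log 2 (κ D).natAbs : ℕ)) : ℝ) ≤ ((κ D).natAbs : ℝ) := by exact_mod_cast e1
      push_cast at e3
      rw [Nat.cast_natAbs, Int.cast_abs] at e3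
      exact e3.trans (hfX D hD)
    have e3 := Real.log_le_log (by positivity) e2
    rw [Real.log_pow] at e3
    have e4 := hlogX D hD
    have e5 : (1 / 2 : ℝ) ≤ Real.log 2 := by linarith [Real.log_two_gt_d9]
    have e6 : (0 : ℝ) ≤ (Nat.log 2 (κ D).natAbs : ℝ) := Nat.cast_nonneg _
    have e7 : (0 : ℝ) ≤ (n : ℝ) ^ (e / 32) := by positivity
    nlinarith
  have hclass : ∀ j ∈ Finset.range J,
      ∑ f ∈ (S.image κ).filter (fun f => Nat.log 2 f.natAbs = j), ((S.filter fun D => κ D = f).card : ℝ) ≤ U := by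
    intro j _
    set T := (S.image κ).filter (fun f : ℤ => Nat.log 2 f.natAbs = j) with hT
    rcases T.eq_empty_or_nonempty with h0 | ⟨f₀, hf₀⟩
    · rw [h0, sum_empty]
      exact hU0
    obtain ⟨F, hF⟩ : ∃ F : ℝ, F = 2 ^ (j + 1) := ⟨_, rfl⟩
    have hF0 : 0 < F := by rw [hF]; positivity
    have hF1 : 1 ≤ F := by rw [hF]; exact one_le_pow₀ (by norm_num)
    have hTj : ∀ f ∈ T, F / 2 ≤ |(f : ℝ)| ∧ |(f : ℝ)| ≤ F := by
      intro f hf
      rw [hT, mem_filter] at hf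
      obtain ⟨D, hD, hDf⟩ := hrep f hf.1
      have hf0' : f ≠ 0 := by rw [← hDf]; exact hf0 D hD
      have e1 : 2 ^ j ≤ f.natAbs := by
        rw [← hf.2]
        exact Nat.pow_log_le_self 2 (Int.natAbs_pos.mpr hf0').ne'
      have e2 : f.natAbs < 2 ^ (j + 1) := by
        rw [← hf.2]
        exact Nat.lt_pow_succ_log_self (by norm_num) _
      have e3 : ((f.natAbs : ℕ) : ℝ) = |(f : ℝ)| := by
        rw [Nat.cast_natAbs, Int.cast_abs]
      have e4 : (((2 ^ j : ℕ)) : ℝ) ≤ ((f.natAbs : ℕ) : ℝ) := by exact_mod_cast e1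
      have e5 : ((f.natAbs : ℕ) : ℝ) ≤ (((2 ^ (j + 1) : ℕ)) : ℝ) := by exact_mod_cast e2.le
      rw [e3] at e4 e5
      push_cast at e4 e5
      rw [hF]
      refine ⟨?_, e5⟩
      rw [pow_succ]
      linarith
    have hlF : Real.log F ≤ (n : ℝ) ^ (e / 16) := by
      have hf₀' := hf₀
      rw [hT, mem_filter] at hf₀'
      obtain ⟨D, hD, hDf⟩ := hrep f₀ hf₀'.1
      have e1 : F ≤ 2 * |(D : ℝ)| := by
        have := (hTj f₀ hf₀).1
        have h5 := hfX D hD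
        rw [hDf] at h5
        linarith
      have hDpos : 0 < |(D : ℝ)| := by
        have := hne D hD
        positivity
      have e2 := Real.log_le_log hF0 e1
      rw [Real.log_mul (by norm_num) hDpos.ne'] at e2
      have e3 := hlogX D hD
      have e4 : Real.log 2 ≤ 1 := by linarith [Real.log_two_lt_d9]
      have e5 : (n : ℝ) ^ (e / 16) = (n : ℝ) ^ (e / 32) * (n : ℝ) ^ (e / 32) := by
        rw [← Real.rpow_add hn0]
        congr 1
        ring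
      rw [e5]
      nlinarith
    have hcard : (T.card : ℝ) ≤ ((n : ℝ) * F) ^ e := by
      apply hcore F hF1 hlF T
      · intro f hf
        refine ⟨?_, (hTj f hf).2⟩
        rintro rfl
        have := (hTj 0 hf).1
        simp at this
        linarith
      · intro f hf g hg hfg hsq
        rw [hT, mem_filter] at hf hg
        obtain ⟨D, hD, rfl⟩ := hrep f hf.1
        obtain ⟨D', hD', rfl⟩ := hrep g hg.1
        exact hfg (sq_prod _ _ (h1 D (hne D hD)) (h1 D' (hne D' hD')) hsq)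
      · intro f hf
        rw [hT, mem_filter] at hf
        obtain ⟨D, hD, rfl⟩ := hrep f hf.1
        apply few_of n D (κ D) (σ D) (hne D hD) (hS D hD).2.2 (h3 D (hne D hD)) (Nat.cast_nonneg _)
        exact (mul_le_mul_of_nonneg_left (hlogX D hD) (by norm_num)).trans hK8
    have hnF : (n : ℝ) ^ E ≤ F := by
      have hf₀' := hf₀
      rw [hT, mem_filter] at hf₀'
      obtain ⟨D, hD, hDf⟩ := hrep f₀ hf₀'.1
      have h5 := hlarge D hD
      rw [hDf] at h5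
      exact h5.trans (hTj f₀ hf₀).2
    have hpt : ∀ f ∈ T, ((S.filter fun D => κ D = f).card : ℝ) ≤ 2 * (√X * F ^ (-(1 / 2) : ℝ)) := by
      intro f hf
      have hfT := hf
      rw [hT, mem_filter] at hf
      refine (hfib f hf.1).trans ?_
      have e1 : √(F / 2) ≤ √|(f : ℝ)| := Real.sqrt_le_sqrt (hTj f hfT).1
      have e2 : 0 < √(F / 2) := Real.sqrt_pos.mpr (by positivity)
      have e3 : √X / √|(f : ℝ)| ≤ √X / √(F / 2) := div_le_div_of_nonneg_left (Real.sqrt_nonneg _) e2 e1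
      have e4 : F ^ (-(1 / 2) : ℝ) = 1 / √F := by
        rw [Real.rpow_neg hF0.le, ← Real.sqrt_eq_rpow, one_div]
      have e5 : √F ≤ 2 * √(F / 2) := by
        rw [Real.sqrt_le_left (by positivity), mul_pow, Real.sq_sqrt (by positivity)]
        linarith
      refine e3.trans ?_
      rw [e4]
      have hsF : 0 < √F := Real.sqrt_pos.mpr hF0
      have e6 : 1 / √(F / 2) ≤ 2 * (1 / √F) := by
        rw [mul_one_div, div_le_div_iff₀ e2 hsF]
        linarith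
      calc √X / √(F / 2) = √X * (1 / √(F / 2)) := by ring
        _ ≤ √X * (2 * (1 / √F)) := mul_le_mul_of_nonneg_left e6 (Real.sqrt_nonneg _)
        _ = 2 * (√X * (1 / √F)) := by ring
    have hsumle := sum_le_sum hpt
    rw [sum_const, nsmul_eq_mul] at hsumle
    refine hsumle.trans ?_
    have hFe : F ^ e * F ^ (-(1 / 2) : ℝ) ≤ ((n : ℝ) ^ E) ^ (e - 1 / 2) := by
      rw [← Real.rpow_add hF0]
      have : e + -(1 / 2) = e - 1 / 2 := by ring
      rw [this]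
      exact Real.rpow_le_rpow_of_nonpos (by positivity) hnF (by linarith)
    calc (T.card : ℝ) * (2 * (√X * F ^ (-(1 / 2) : ℝ)))
        ≤ ((n : ℝ) * F) ^ e * (2 * (√X * F ^ (-(1 / 2) : ℝ))) := mul_le_mul_of_nonneg_right hcard (by positivity)
      _ = 2 * ((n : ℝ) ^ e * (F ^ e * F ^ (-(1 / 2) : ℝ))) * √X := by
          rw [Real.mul_rpow hn0.le hF0.le]
          ring
      _ ≤ 2 * ((n : ℝ) ^ e * ((n : ℝ) ^ E) ^ (e - 1 / 2)) * √X := by gcongr
      _ = U := hU.symm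
  have hsum : (S.card : ℝ) = ∑ f ∈ S.image κ, ((S.filter fun D => κ D = f).card : ℝ) := by
    have := Finset.card_eq_sum_card_image κ S
    exact_mod_cast this
  rw [hsum, ← sum_fiberwise_of_maps_to hJmem]
  have hJn : (J : ℝ) ≤ (n : ℝ) ^ e / 2 := by
    have e1 : (⌊3 * (n : ℝ) ^ (e / 32)⌋₊ : ℝ) ≤ 3 * (n : ℝ) ^ (e / 32) := Nat.floor_le (by positivity)
    have e2 : (J : ℝ) ≤ 3 * (n : ℝ) ^ (e / 32) + 1 := by
      rw [hJ]
      push_cast
      linarith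
    have e3 : (n : ℝ) ^ (e / 16) ≤ (n : ℝ) ^ e := Real.rpow_le_rpow_of_exponent_le hnone (by linarith)
    have e5 : (n : ℝ) ^ (e / 16) = (n : ℝ) ^ (e / 32) * (n : ℝ) ^ (e / 32) := by
      rw [← Real.rpow_add hn0]
      congr 1
      ring
    rw [e5] at e3
    nlinarith
  calc ∑ j ∈ Finset.range J, ∑ f ∈ (S.image κ).filter (fun f => Nat.log 2 f.natAbs = j),
        ((S.filter fun D => κ D = f).card : ℝ) ≤ ∑ _j ∈ Finset.range J, U := sum_le_sum hclass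
    _ = J * U := by rw [sum_const, card_range, nsmul_eq_mul]
    _ ≤ ((n : ℝ) ^ e / 2) * U := mul_le_mul_of_nonneg_right hJn hU0
    _ = √X * ((n : ℝ) ^ (e + (e + E * (e - 1 / 2)))) := by
        rw [hU, ← Real.rpow_mul hn0.le, Real.rpow_add hn0, Real.rpow_add hn0]
        ring
    _ ≤ √X * (n : ℝ) ^ (-(2 * Real.exp (1 / 2) - ε)) := by
        apply mul_le_mul_of_nonneg_left _ (Real.sqrt_nonneg _)
        apply Real.rpow_le_rpow_of_exponent_le hnone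
        have e1 : E * (1 / 2) = 2 * Real.exp (1 / 2) - ε / 2 := by rw [hE]; ring
        have e2 : E * e ≤ 7 * e := mul_le_mul_of_nonneg_right hE7 he0.le
        have e3 : 9 * e ≤ ε / 2 := by rw [he]; linarith
        linarith
    _ = √X / (n : ℝ) ^ (2 * Real.exp (1 / 2) - ε) := by
        rw [Real.rpow_neg hn0.le]
        exact (div_eq_mul_inv _ _).symm

/-- the square of a bound is a bound -/
lemma pow_two_le (c : ℝ) (hc : 0 < c) : ∀ᶠ n : ℕ in atTop, 2 * (n : ℝ) ^ (c / 2) + 2 ≤ (n : ℝ) ^ c := by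
  have tc : Tendsto (fun q : ℕ => (q : ℝ)) atTop atTop := tendsto_natCast_atTop_atTop
  have f2 : ∀ᶠ x : ℝ in atTop, 3 ≤ x ^ (c / 2) :=
    (tendsto_rpow_atTop (by positivity : (0 : ℝ) < c / 2)).eventually_ge_atTop _
  filter_upwards [tc.eventually f2, eventually_ge_atTop 1] with n h2 h3
  have h4 : (n : ℝ) ^ c = (n : ℝ) ^ (c / 2) * (n : ℝ) ^ (c / 2) := by
    rw [← Real.rpow_add (by exact_mod_cast h3)]
    congr 1
    ring
  rw [h4]
  nlinarith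

/-- **Few exceptional pairs.** -/
theorem pairs4 (ε : ℝ) (hε : 0 < ε) (hε1 : ε ≤ 1) : ∃ c : ℝ, 0 < c ∧ ∀ᶠ n : ℕ in atTop,
    (∀ X : ℝ, 0 ≤ X → X ≤ Real.exp ((n : ℝ) ^ c) → ∀ S : Finset ℤ,
      (∀ D ∈ S, |(D : ℝ)| ≤ X ∧ ¬ IsSquare D ∧ IsDisc n D) →
      (S.card : ℝ) ≤ √X / (n : ℝ) ^ (2 * Real.exp (1 / 2) - ε)) ∧
    ∀ H : ℝ, 1 ≤ H → H ≤ Real.exp ((n : ℝ) ^ c) →
    ∀ S : Finset (ℤ × ℤ), (∀ c ∈ S, |(c.1 : ℝ)| ≤ H ∧ |(c.2 : ℝ)| ≤ H ^ 2 ∧
      RiemannRoch n (poly2 c.1 c.2) ∧ ¬ ∃ a b : ℤ, c.1 = a + b ∧ c.2 = a * b) →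
      (S.card : ℝ) ≤ H ^ 2 / (n : ℝ) ^ (2 * Real.exp (1 / 2) - ε) := by
  classical
  obtain ⟨c, hc0, hc1, hcnt⟩ := count4 (ε / 2) (by positivity) (by linarith)
  refine ⟨c / 2, by positivity, ?_⟩
  have e1 : ∀ᶠ n : ℕ in atTop, (9 : ℝ) ≤ (n : ℝ) ^ (ε / 2) :=
    tendsto_natCast_atTop_atTop.eventually
      ((tendsto_rpow_atTop (by positivity : (0 : ℝ) < ε / 2)).eventually_ge_atTop _)
  filter_upwards [hcnt, e1, pow_two_le c hc0, eventually_ge_atTop 5] with n hcount h9 hthr hn5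
  have hn0 : (0 : ℝ) < n := by positivity
  have hn5' : (5 : ℝ) ≤ n := by exact_mod_cast hn5
  have e : (n : ℝ) ^ (2 * Real.exp (1 / 2) - ε / 2) =
      (n : ℝ) ^ (2 * Real.exp (1 / 2) - ε) * (n : ℝ) ^ (ε / 2) := by
    rw [← Real.rpow_add hn0]; congr 1; ring
  have hp : 0 < (n : ℝ) ^ (2 * Real.exp (1 / 2) - ε / 2) := Real.rpow_pos_of_pos hn0 _
  have hp' : 0 < (n : ℝ) ^ (2 * Real.exp (1 / 2) - ε) := Real.rpow_pos_of_pos hn0 _
  have ht0 : 0 ≤ (n : ℝ) ^ (c / 2) := by positivity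
  constructor
  · intro X hX0 hX S hS
    have h1 := hcount X hX0 (hX.trans (Real.exp_le_exp.mpr (by linarith))) S hS
    refine h1.trans (div_le_div_of_nonneg_left (Real.sqrt_nonneg _) hp' ?_)
    rw [e]
    exact le_mul_of_one_le_right hp'.le (by linarith)
  intro H hH1 hHA S hS
  have hH0 : 0 < H := by linarith
  have hX : 5 * H ^ 2 ≤ Real.exp ((n : ℝ) ^ c) := by
    calc 5 * H ^ 2 ≤ 5 * Real.exp ((n : ℝ) ^ (c / 2)) ^ 2 := by gcongr
      _ ≤ Real.exp 2 * Real.exp ((n : ℝ) ^ (c / 2)) ^ 2 := by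
          apply mul_le_mul_of_nonneg_right _ (by positivity)
          have h2 := Real.exp_one_gt_d9
          have h3 : Real.exp 2 = Real.exp 1 * Real.exp 1 := by
            rw [← Real.exp_add]
            norm_num
          rw [h3]
          nlinarith
      _ = Real.exp (2 * (n : ℝ) ^ (c / 2) + 2) := by
          rw [← Real.exp_nat_mul, ← Real.exp_add]
          congr 1
          push_cast
          ring
      _ ≤ _ := Real.exp_le_exp.mpr hthr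
  set S' : Finset ℤ := S.image fun c => c.1 ^ 2 - 4 * c.2 with hS'
  have hc' := hcount (5 * H ^ 2) (by positivity) hX S' (by
    intro D hD
    obtain ⟨c, hc, rfl⟩ := Finset.mem_image.mp hD
    obtain ⟨h1, h2, h3, h4⟩ := hS c hc
    refine ⟨?_, fun hsq => h4 (split_of_square _ _ hsq), c.1, c.2, h3, rfl⟩
    push_cast
    have h5 : (c.1 : ℝ) ^ 2 ≤ H ^ 2 := by
      rw [← sq_abs]; exact pow_le_pow_left₀ (abs_nonneg _) h1 2
    have h6 := abs_le.mp h2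
    rw [abs_le]
    constructor
    · nlinarith [sq_nonneg (c.1 : ℝ)]
    · nlinarith [sq_nonneg (c.1 : ℝ)])
  -- the map `c ↦ (c₁, D)`
  have hcard : S.card ≤ (Finset.Icc (-(⌊H⌋₊ : ℤ)) ⌊H⌋₊ ×ˢ S').card := by
    apply Finset.card_le_card_of_injOn (fun c => (c.1, c.1 ^ 2 - 4 * c.2))
    · intro c hc
      rw [Finset.mem_coe, Finset.mem_product]
      refine ⟨?_, Finset.mem_image.mpr ⟨c, hc, rfl⟩⟩
      rw [Finset.mem_Icc]
      have h1 := (hS c hc).1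
      have h2 : c.1.natAbs ≤ ⌊H⌋₊ := by
        apply Nat.le_floor
        rw [Nat.cast_natAbs, Int.cast_abs]
        exact h1
      show -(⌊H⌋₊ : ℤ) ≤ c.1 ∧ c.1 ≤ (⌊H⌋₊ : ℤ)
      omega
    · intro c hc d hd hcd
      simp only [Prod.mk.injEq] at hcd
      obtain ⟨h1, h2⟩ := hcd
      rw [h1] at h2
      exact Prod.ext h1 (by linarith)
  rw [Finset.card_product, Int.card_Icc] at hcard
  have h1 : (((⌊H⌋₊ : ℤ) + 1 - -(⌊H⌋₊ : ℤ)).toNat : ℝ) ≤ 3 * H := by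
    have e : ((⌊H⌋₊ : ℤ) + 1 - -(⌊H⌋₊ : ℤ)).toNat = 2 * ⌊H⌋₊ + 1 := by omega
    rw [e]
    push_cast
    linarith [Nat.floor_le hH0.le]
  have h2 : (S.card : ℝ) ≤ (3 * H) * (S'.card : ℝ) := by
    calc (S.card : ℝ) ≤ ((((⌊H⌋₊ : ℤ) + 1 - -(⌊H⌋₊ : ℤ)).toNat * S'.card : ℕ) : ℝ) := by
          exact_mod_cast hcard
      _ = (((⌊H⌋₊ : ℤ) + 1 - -(⌊H⌋₊ : ℤ)).toNat : ℝ) * (S'.card : ℝ) := by push_cast; ring
      _ ≤ _ := mul_le_mul_of_nonneg_right h1 (Nat.cast_nonneg _)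
  have h3 : √(5 * H ^ 2) ≤ 3 * H := by
    rw [Real.sqrt_le_left (by positivity)]
    nlinarith
  calc (S.card : ℝ) ≤ (3 * H) * (S'.card : ℝ) := h2
    _ ≤ (3 * H) * (√(5 * H ^ 2) / (n : ℝ) ^ (2 * Real.exp (1 / 2) - ε / 2)) := by gcongr
    _ ≤ (3 * H) * (3 * H / (n : ℝ) ^ (2 * Real.exp (1 / 2) - ε / 2)) := by gcongr
    _ = 9 * H ^ 2 / (n : ℝ) ^ (2 * Real.exp (1 / 2) - ε / 2) := by ring
    _ ≤ (n : ℝ) ^ (ε / 2) * H ^ 2 / (n : ℝ) ^ (2 * Real.exp (1 / 2) - ε / 2) := by gcongr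
    _ = H ^ 2 / (n : ℝ) ^ (2 * Real.exp (1 / 2) - ε) := by
        rw [e]
        have : (n : ℝ) ^ (ε / 2) ≠ 0 := (Real.rpow_pos_of_pos hn0 _).ne'
        field_simp

end Pool.Agent.Run7.h740.BC
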