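import Pool.Agent.Run7.h740.BC.Ana
import Pool.Agent.N17.HC.CUB

set_option autoImplicit false
set_option maxHeartbeats 4000000

/-! Cubic polynomials which split modulo almost all small primes split. -/

namespace Pool.Agent.Run7.h740.BC

open Finset Filter Pool.Agent.N17.HC Pool.Agent.Y692.QS
open Pool.Agent.Y715.T.Rec (cs)

/-- the size of the exceptional number -/
lemma size5 (W B a b N q s : ℝ) (hW : 1 ≤ W)
    (hB : |B| ≤ W) (ha : |a| ≤ W) (hb : |b| ≤ W) (hN : N = (a ^ 2 - 3 * b) ^ 3)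
    (hq0 : 0 ≤ q) (hq : q ≤ |s|) (hs : |s| ≤ W) :
    |B * (3 * N * q)| ≤ 192 * W ^ 8 := by
  have h1 : |a ^ 2 - 3 * b| ≤ 4 * W ^ 2 := by
    have h2 : |a ^ 2| ≤ W ^ 2 := by
      rw [abs_pow]
      exact pow_le_pow_left₀ (abs_nonneg _) ha 2
    have h3 : |3 * b| ≤ 3 * W := by
      rw [abs_mul]
      norm_num
      linarith
    have h4 := abs_sub (a ^ 2) (3 * b)
    nlinarith
  have h5 : |N| ≤ (4 * W ^ 2) ^ 3 := by
    rw [hN, abs_pow]
    exact pow_le_pow_left₀ (abs_nonneg _) h1 3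
  have h6 : |B * (3 * N * q)| = |B| * (3 * |N| * q) := by
    rw [abs_mul, abs_mul, abs_mul, abs_of_nonneg hq0]
    norm_num
  rw [h6]
  have h7 : |B| * (3 * |N| * q) ≤ W * (3 * (4 * W ^ 2) ^ 3 * W) := by
    apply mul_le_mul hB _ (by positivity) (by positivity)
    apply mul_le_mul _ (hq.trans hs) hq0 (by positivity)
    linarith
  refine h7.trans (le_of_eq (by ring))

/-- **Cubic polynomials.** -/
theorem cub5 (hA : S_ALG) (hF : S_FAC) (hC : S_CUBE) (hR : S_REC) (hχ : S_CHR)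
    (hD : S_DIV) (k : ℕ) (ε : ℝ) (hε : 0 < ε) (hε1 : ε ≤ 1) : ∃ c : ℝ, 0 < c ∧ c ≤ 1 ∧ ∀ᶠ y : ℕ in atTop,
    ∀ a b c' B f s : ℤ, B ≠ 0 → (|B| : ℝ) ≤ Real.exp ((y : ℝ) ^ c) → (|a| : ℝ) ≤ Real.exp ((y : ℝ) ^ c) →
    (|b| : ℝ) ≤ Real.exp ((y : ℝ) ^ c) → (|disc3 a b c'| : ℝ) ≤ Real.exp ((y : ℝ) ^ c) →
    disc3 a b c' = f * s ^ 2 → Squarefree f →
    (|f| : ℝ) ≤ (y : ℝ) ^ (4 * Real.exp (1 / 2) - ε) →
    ((∏ p ∈ s.natAbs.primeFactors.filter (fun p : ℕ => (p : ℤ) ∣ a ^ 2 - 3 * b), p : ℕ) : ℝ) ≤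
      (y : ℝ) ^ (2 * Real.exp (1 / 2) - ε) →
    (∀ p : ℕ, p.Prime → k < p → p ≤ y → ¬ (p : ℤ) ∣ B → Spl3 p a b c') →
    ∃ x y z : ℤ, a = x + y + z ∧ b = x * y + y * z + z * x ∧ c' = x * y * z := by
  obtain ⟨u1, hu10, hu11, hm⟩ := main4 k ε hε hε1
  obtain ⟨u2, hu20, hu21, hn⟩ := ana5 (max k 3) (ε / 2) (by positivity) (by linarith)
  obtain ⟨c, hc⟩ : ∃ c, c = min u1 u2 / 2 := ⟨_, rfl⟩
  have hc0 : 0 < c := by rw [hc]; exact half_pos (lt_min hu10 hu20)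
  have hcc1 : 2 * c ≤ u1 := by rw [hc]; linarith [min_le_left u1 u2]
  have hcc2 : 2 * c ≤ u2 := by rw [hc]; linarith [min_le_right u1 u2]
  refine ⟨c, hc0, by linarith, ?_⟩
  have tc : Tendsto (fun q : ℕ => (q : ℝ)) atTop atTop := tendsto_natCast_atTop_atTop
  have f1 : ∀ᶠ x : ℝ in atTop, 14 ≤ x ^ c :=
    (tendsto_rpow_atTop hc0).eventually_ge_atTop _
  filter_upwards [hm, hn, tc.eventually f1, eventually_ge_atTop 200, CUB.ev_pow 9 (ε / 2) (by positivity)]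
    with y hy1 hy2 hy4 hy3 hy9
  intro a b c' B f s hB hBA ha hb hdA hfs hf hfy hrad hs
  have hyR : (200 : ℝ) ≤ y := by exact_mod_cast hy3
  have hy0 : (0 : ℝ) < y := by linarith
  have hy1' : (1 : ℝ) ≤ y := by linarith
  obtain ⟨w, hw⟩ : ∃ w, w = (y : ℝ) ^ c := ⟨_, rfl⟩
  rw [← hw] at hBA ha hb hdA hy4
  have hww : w * w = (y : ℝ) ^ (2 * c) := by
    rw [hw, ← Real.rpow_add hy0]
    congr 1
    ring
  have hw1 : w * w ≤ (y : ℝ) ^ u1 := by
    rw [hww]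
    exact Real.rpow_le_rpow_of_exponent_le hy1' hcc1
  have hw2 : w * w ≤ (y : ℝ) ^ u2 := by
    rw [hww]
    exact Real.rpow_le_rpow_of_exponent_le hy1' hcc2
  have hwe : 1 ≤ Real.exp w := Real.one_le_exp (by linarith)
  have h8 : 192 * Real.exp w ^ 8 ≤ Real.exp (w * w) := by
    have e1 : (192 : ℝ) ≤ Real.exp 6 := by
      have h1 := Real.add_one_le_exp (1 : ℝ)
      have h2 : Real.exp 6 = Real.exp 1 ^ 6 := by
        rw [← Real.exp_nat_mul]
        norm_num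
      have h3 := Real.exp_one_gt_d9
      have h4 : (2.7 : ℝ) ^ 6 ≤ Real.exp 1 ^ 6 := pow_le_pow_left₀ (by norm_num) (by linarith) 6
      rw [h2]
      refine le_trans (by norm_num) h4
    calc 192 * Real.exp w ^ 8 ≤ Real.exp 6 * Real.exp w ^ 8 := by gcongr
      _ = Real.exp (6 + 8 * w) := by
          rw [Real.exp_add, ← Real.exp_nat_mul]
          norm_num
      _ ≤ _ := Real.exp_le_exp.mpr (by nlinarith)
  have hexp1 : Real.exp w ≤ Real.exp w ^ 8 := le_self_pow₀ hwe (by norm_num)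
  by_cases h0 : s = 0
  · have h00 : disc3 a b c' = 0 := by rw [hfs, h0]; ring
    obtain ⟨m, hm⟩ := hA.2.1 a b c' h00
    exact hA.2.2 a b c' m 0 hm (by rw [h00]; ring)
  have hf0 : f ≠ 0 := hf.ne_zero
  have hd0 : disc3 a b c' ≠ 0 := by
    rw [hfs]
    exact mul_ne_zero hf0 (pow_ne_zero 2 h0)
  -- the size of s
  have hf1 : (1 : ℝ) ≤ |(f : ℝ)| := by
    have := Int.one_le_abs hf0
    exact_mod_cast this
  have hs1 : (1 : ℝ) ≤ |(s : ℝ)| := by
    have := Int.one_le_abs h0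
    exact_mod_cast this
  have hsW : |(s : ℝ)| ≤ Real.exp w := by
    have e1 : |((disc3 a b c' : ℤ) : ℝ)| = |(f : ℝ)| * |(s : ℝ)| ^ 2 := by
      rw [hfs]
      push_cast
      rw [abs_mul, abs_pow]
    have e2 : |(s : ℝ)| ≤ |(f : ℝ)| * |(s : ℝ)| ^ 2 := by nlinarith
    exact e2.trans (e1 ▸ hdA)
  have hsq : IsSquare f := by
    refine hy1 f (B * s) (mul_ne_zero hB h0) ?_ hfy ?_
    · push_cast
      rw [abs_mul]
      calc |(B : ℝ)| * |(s : ℝ)| ≤ Real.exp w * Real.exp w := mul_le_mul hBA hsW (abs_nonneg _) (by positivity)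
        _ = Real.exp w ^ 2 := by ring
        _ ≤ Real.exp w ^ 8 := pow_le_pow_right₀ hwe (by norm_num)
        _ ≤ 192 * Real.exp w ^ 8 := by linarith [pow_pos (Real.exp_pos w) 8]
        _ ≤ _ := h8.trans (Real.exp_le_exp.mpr hw1)
    · intro p hp hkp hpy hpB
      have hpB' : ¬ (p : ℤ) ∣ B := fun h => hpB (Dvd.dvd.mul_right h _)
      have hps' : ¬ (p : ℤ) ∣ s := fun h => hpB (Dvd.dvd.mul_left h _)
      obtain ⟨t, ht⟩ := hA.1 p a b c' (hs p hp hkp hpy hpB')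
      rw [hfs] at ht
      have hpi := Nat.prime_iff_prime_int.1 hp
      obtain ⟨α, β, hαβ⟩ := (Irreducible.coprime_iff_not_dvd hpi.irreducible).mpr hps'
      refine ⟨β * t, ?_⟩
      have e : f - (β * t) ^ 2 = β ^ 2 * (f * s ^ 2 - t ^ 2) + (p : ℤ) * (f * α * (2 - α * p)) := by
        have e1 : β * s = 1 - α * p := by linarith
        have e2 : (β * s) ^ 2 = (1 - α * p) ^ 2 := by rw [e1]
        linear_combination (-f) * e2
      rw [e]
      exact dvd_add (Dvd.dvd.mul_left ht _) (dvd_mul_right _ _)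
  have hfone : f = 1 := by
    obtain ⟨g, hg⟩ := hsq
    have h1 : IsUnit g := hf g ⟨1, by rw [hg]; ring⟩
    rcases Int.isUnit_iff.1 h1 with h2 | h2 <;> rw [hg, h2] <;> norm_num
  have hs3 : disc3 a b c' = s ^ 2 := by rw [hfs, hfone, one_mul]
  suffices hm : ∃ m : ℤ, m ^ 3 - a * m ^ 2 + b * m - c' = 0 by
    obtain ⟨m, hm⟩ := hm
    exact hA.2.2 a b c' m s hm hs3
  obtain ⟨α, hα⟩ := CUB.par a b c' s hs3
  obtain ⟨c1, c2, c3, c4⟩ := hC a b c' s α hs3 hα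
  have hα0 : α ≠ 0 := by
    rintro rfl
    have h5 := congrArg QuadraticAlgebra.im hα
    simp at h5
    exact h0 h5
  have hnr0 : nr α ≠ 0 := fun h => hα0 (nr_zero_iff.1 h)
  obtain ⟨n, ρ, e, g, hg, hg0, hdv, hid⟩ := hF α _ hα0 c2
  by_cases hne : e = 0 ∧ n = 0
  · obtain ⟨he, hn⟩ := hne
    subst hn
    subst he
    refine c4 g ?_
    simpa using hid
  · exfalso
    have hne' : e ≠ 0 ∨ n ≠ 0 := by tauto
    obtain ⟨q, hq⟩ : ∃ q, q = ∏ i, (nr (ρ i)).natAbs := ⟨_, rfl⟩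
    have hx := hχ n ρ e hg hne'
    rw [← hq] at hx
    obtain ⟨χ, hχ1, hχ2⟩ := hx
    have hqd : q ∣ s.natAbs := hq ▸ hD n ρ s α hg hdv c3
    have hq0 : q ≠ 0 := hq ▸ Finset.prod_ne_zero_iff.2 (fun i _ => (hg.2.1 i).ne_zero)
    -- q is a product of different primes
    have hinj : Function.Injective fun i => (nr (ρ i)).natAbs := by
      intro i j hij
      by_contra hne
      apply hg.2.2 i j hne
      have hi : 0 ≤ nr (ρ i) := nr_nonneg _
      have hj : 0 ≤ nr (ρ j) := nr_nonneg _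
      simp only at hij
      omega
    have hqrad : q ∣ ∏ p ∈ s.natAbs.primeFactors.filter (fun p : ℕ => (p : ℤ) ∣ a ^ 2 - 3 * b), p := by
      rw [hq]
      have e1 : ∏ i, (nr (ρ i)).natAbs = ∏ p ∈ (univ.image fun i => (nr (ρ i)).natAbs), p := by
        rw [prod_image fun i _ j _ h => hinj h]
      rw [e1]
      apply prod_dvd_prod_of_subset
      intro p hp
      obtain ⟨i, -, rfl⟩ := mem_image.1 hp
      rw [mem_filter, Nat.mem_primeFactors]
      refine ⟨⟨hg.2.1 i, ?_, Int.natAbs_ne_zero.2 h0⟩, ?_⟩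
      · refine dvd_trans ?_ hqd
        rw [hq]
        exact dvd_prod_of_mem (fun i => (nr (ρ i)).natAbs) (mem_univ i)
      · have e2 : (((nr (ρ i)).natAbs : ℕ) : ℤ) ∣ (a ^ 2 - 3 * b) ^ 3 := by
          rw [← c2, Int.natAbs_dvd]
          obtain ⟨β, hβ⟩ := (hdv i).1
          exact ⟨nr β, by rw [hβ, nr_mul]⟩
        exact (Nat.prime_iff_prime_int.1 (hg.2.1 i)).dvd_of_dvd_pow e2
    have hradpos : 0 < ∏ p ∈ s.natAbs.primeFactors.filter (fun p : ℕ => (p : ℤ) ∣ a ^ 2 - 3 * b), p :=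
      prod_pos fun p hp => (Nat.prime_of_mem_primeFactors (mem_filter.1 hp).1).pos
    have hqle : (q : ℝ) ≤
        ((∏ p ∈ s.natAbs.primeFactors.filter (fun p : ℕ => (p : ℤ) ∣ a ^ 2 - 3 * b), p : ℕ) : ℝ) := by
      exact_mod_cast Nat.le_of_dvd hradpos hqrad
    have hqs : (q : ℝ) ≤ |(s : ℝ)| := by
      have h6 := Nat.le_of_dvd (Int.natAbs_pos.2 h0) hqd
      have h7 : ((s.natAbs : ℤ) : ℝ) = |(s : ℝ)| := by
        rw [Int.natCast_natAbs, Int.cast_abs]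
      rw [← h7]
      exact_mod_cast h6
    have hQ : ((9 * q : ℕ) : ℝ) ≤ (y : ℝ) ^ (2 * Real.exp (1 / 2) - ε / 2) := by
      push_cast
      calc (9 : ℝ) * q ≤ (y : ℝ) ^ (ε / 2) * (y : ℝ) ^ (2 * Real.exp (1 / 2) - ε) := by
            apply mul_le_mul hy9 (hqle.trans hrad) (by positivity) (by positivity)
        _ = _ := by
            rw [← Real.rpow_add hy0]
            congr 1
            ring
    have hB0 : B * (3 * nr α * q) ≠ 0 := by
      have : (q : ℤ) ≠ 0 := by exact_mod_cast hq0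
      positivity
    have hBb : |((B * (3 * nr α * q) : ℤ) : ℝ)| ≤ Real.exp ((y : ℝ) ^ u2) := by
      have h10 := size5 (Real.exp w) B a b (nr α : ℤ) q s hwe hBA ha hb (by rw [c2]; push_cast; ring)
        (by positivity) hqs hsW
      push_cast
      exact h10.trans (h8.trans (Real.exp_le_exp.mpr hw2))
    obtain ⟨p, hp, hkp, hpy, hpB, hpχ⟩ :=
      hy2 (9 * q) χ (B * (3 * nr α * q)) (by positivity) hχ1 hQ hB0 hBb
    have hk1 : k < p := lt_of_le_of_lt (le_max_left _ _) hkp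
    have hk3 : 3 < p := lt_of_le_of_lt (le_max_right _ _) hkp
    have d1 : ¬ (p : ℤ) ∣ B := fun h => hpB (h.mul_right _)
    have d2 : ¬ (p : ℤ) ∣ nr α := fun h => hpB ((h.mul_left 3).mul_right _ |>.mul_left _)
    have d3 : ¬ (p : ℤ) ∣ (q : ℤ) := fun h => hpB ((h.mul_left _).mul_left _)
    have d4 : ∀ i, ¬ (p : ℤ) ∣ nr (ρ i) := by
      intro i h
      apply d3
      refine h.trans ?_
      rw [← Int.natAbs_dvd, hq]
      exact_mod_cast Finset.dvd_prod_of_mem (fun i => (nr (ρ i)).natAbs) (Finset.mem_univ i)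
    have hcop : p.Coprime (9 * q) := by
      rw [Nat.Prime.coprime_iff_not_dvd hp, hp.dvd_mul]
      rintro (h | h)
      · have : p ∣ 3 := hp.dvd_of_dvd_pow (show p ∣ 3 ^ 2 by simpa using h)
        have := Nat.le_of_dvd (by norm_num) this
        omega
      · exact d3 (by exact_mod_cast h)
    exact hpχ (hχ2 p hcop (hR α n ρ e g hg hid p hp hk3 d2 d4
      (c1 p hp hk3 (hs p hp hk1 hpy d1))))

end Pool.Agent.Run7.h740.BC
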