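import Pool.Agent.Run7.h740.BC.Quad
import Pool.Agent.Run7.h740.BC.Cub
import Pool.Agent.N17.HC.ALG
import Pool.Agent.N17.HC.FAC
import Pool.Agent.N17.HC.CUBE
import Pool.Agent.N17.HC.REC
import Pool.Agent.N17.HC.CHR
import Pool.Agent.N17.HC.DIV

set_option autoImplicit false
set_option maxHeartbeats 4000000

/-! Cubic Chern roots in every codimension. -/

namespace Pool.Agent.Run7.h740.BC

open Finset Filter Polynomial Pool.Agent.R852.BC Pool.Agent.N17.HC Pool.Agent.N17.CK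
open Pool.Agent.N17.HC.FIN (P3)

/-- **Cubic Chern roots.** -/
theorem cubic5 (r : ℕ) (hr : 1 ≤ r) (ε : ℝ) (hε : 0 < ε) : ∃ c : ℝ, 0 < c ∧ ∀ᶠ N : ℕ in atTop,
    ∀ P : ℤ[X], P.Monic → P.natDegree = r →
    (∀ i ≤ r, 0 ≤ chern r P i) →
    (∀ i < r, chern r P (i + 1) ≤ chern r P 1 * chern r P i) →
    (∀ t : ℤ, ∃ z : ℤ, kos N (rootsOf P) (N + t) = z) →
    (∀ t : ℤ, ∃ z : ℤ, ((rootsOf P).map fun b => kos N (rootsOf P) (N + t - b)).sum = z) →
    ∀ k : ℤ, P.coeff (r - 1) = - (k + N + 1) → (k : ℝ) ≤ Real.exp ((N : ℝ) ^ c) →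
    ∀ a b c' f s : ℤ, P3 a b c' ∣ P → disc3 a b c' = f * s ^ 2 → Squarefree f →
    (|f| : ℤ) ≤ (N : ℝ) ^ (4 * Real.exp (1 / 2) - ε) →
    ((∏ p ∈ s.natAbs.primeFactors.filter (fun p : ℕ => (p : ℤ) ∣ a ^ 2 - 3 * b), p : ℕ) : ℝ) ≤
      (N : ℝ) ^ (2 * Real.exp (1 / 2) - ε) →
    ∃ x y z : ℤ, 1 ≤ x ∧ 1 ≤ y ∧ 1 ≤ z ∧ P3 a b c' = (X - C x) * (X - C y) * (X - C z) := by
  wlog hε1 : ε ≤ 1 generalizing ε
  · obtain ⟨c, hc0, h1⟩ := this 1 one_pos le_rfl
    refine ⟨c, hc0, ?_⟩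
    filter_upwards [h1, eventually_ge_atTop 1] with y hy hy1 P q1 q2 q3 q4 q5 q6 k q7 q8 a b c' f s q9 q10 q11 q12 q13
    have hy1' : (1 : ℝ) ≤ y := by exact_mod_cast hy1
    refine hy P q1 q2 q3 q4 q5 q6 k q7 q8 a b c' f s q9 q10 q11 (q12.trans ?_) (q13.trans ?_)
    · apply Real.rpow_le_rpow_of_exponent_le hy1'
      linarith
    · apply Real.rpow_le_rpow_of_exponent_le hy1'
      linarith
  obtain ⟨c, hc0, hc1, hmain⟩ := cub5 t_ALG t_FAC t_CUBE t_REC t_CHR t_DIV r (ε / 2) (by positivity)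
    (by linarith)
  refine ⟨c / 2 / 4, by positivity, ?_⟩
  have h1 := (tendsto_sub_atTop_nat (2 * r)).eventually hmain
  have h2 := pow_transfer (2 * r) (4 * Real.exp (1 / 2)) ε (by positivity) hε
  have h3 := pow_transfer (2 * r) (2 * Real.exp (1 / 2)) ε (by positivity) hε
  filter_upwards [h1, h2, h3, log_bound (r + 4) (c / 2) (by positivity), eventually_ge_atTop (4 * r + 4)] with
    N g1 g2 g3 hlog hN4 P hP hrP hpos hsch k1 k2 k hk hkN a b c' f s hdvd hfs hf hfN hrad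
  have hN0 : (0 : ℝ) < N := by
    have : 0 < N := by omega
    exact_mod_cast this
  have hN1 : (1 : ℝ) ≤ N := by exact_mod_cast (by omega : 1 ≤ N)
  obtain ⟨hP0, hPpos⟩ := t_POS r P hP hrP hpos
  have hc00 : P.coeff 0 ≠ 0 := by
    intro h
    rw [h, mul_zero] at hP0
    omega
  have hN2 : (N : ℝ) ^ (c / 2) ≤ ((N - 2 * r : ℕ) : ℝ) ^ c := by
    have e4 : (N : ℝ) ≤ ((N - 2 * r : ℕ) : ℝ) ^ 2 := by
      have : N ≤ (N - 2 * r) ^ 2 := by
        obtain ⟨m, hm, hm2⟩ : ∃ m, N - 2 * r = m ∧ N ≤ 2 * m := ⟨N - 2 * r, rfl, by omega⟩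
        have hm3 : 2 ≤ m := by omega
        rw [hm]
        nlinarith
      exact_mod_cast this
    calc (N : ℝ) ^ (c / 2) ≤ (((N - 2 * r : ℕ) : ℝ) ^ 2) ^ (c / 2) := Real.rpow_le_rpow hN0.le e4 (by positivity)
      _ = ((N - 2 * r : ℕ) : ℝ) ^ c := by
          rw [← Real.rpow_natCast, ← Real.rpow_mul (Nat.cast_nonneg _)]
          congr 1
          push_cast
          ring
  -- the sizes
  obtain ⟨E, hE⟩ : ∃ E : ℝ, E = 2 * ((chern r P 1 : ℤ) : ℝ) := ⟨_, rfl⟩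
  have hch0 : (0 : ℝ) ≤ ((chern r P 1 : ℤ) : ℝ) := by exact_mod_cast hpos 1 hr
  have hE0 : 0 ≤ E := by rw [hE]; linarith
  have hroot : ∀ β ∈ rootsOf P, ‖β - 1‖ ≤ E := by
    rw [hE]
    exact t_ROOT r P hP hrP hpos hsch
  have hb1 := t_BD.2.2 r P E hP hrP hE0 hroot
  obtain ⟨hb2, hb3, hb4, hb5⟩ := t_BD.1 a b c' E hE0 (fun β hβ => hroot β (MAIN.rootsOf_sub hP hdvd β hβ))
  have hc1' := MAIN.chern_one r hr P hP hrP
  rw [hk] at hc1'
  have hEk : E + 1 ≤ 2 * k + 2 * N + 3 := by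
    have : ((chern r P 1 : ℤ) : ℝ) = k + N + 1 - r := by
      rw [hc1']
      push_cast
      ring
    have hr0 : (0 : ℝ) ≤ r := Nat.cast_nonneg r
    rw [hE, this]
    linarith
  have hex : 1 ≤ Real.exp ((N : ℝ) ^ (c / 2 / 4)) := Real.one_le_exp (by positivity)
  have hE2 : E + 1 ≤ Real.exp ((N : ℝ) ^ (c / 2 / 4)) * (2 * N + 5) := by
    have : Real.exp ((N : ℝ) ^ (c / 2 / 4)) * (2 * N + 5) =
      2 * Real.exp ((N : ℝ) ^ (c / 2 / 4)) + Real.exp ((N : ℝ) ^ (c / 2 / 4)) * (2 * N + 3) := by ring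
    rw [this]
    nlinarith
  have hE3 : Real.log (E + 1) ≤ (N : ℝ) ^ (c / 2 / 4) + Real.log (2 * N + 5) := by
    have := Real.log_le_log (by linarith) hE2
    rwa [Real.log_mul (Real.exp_pos _).ne' (by positivity), Real.log_exp] at this
  have hr0 : (0 : ℝ) ≤ r := Nat.cast_nonneg r
  have hE1 : 1 ≤ E + 1 := by linarith
  have hlogE : 0 ≤ Real.log (E + 1) := Real.log_nonneg hE1
  have hbig : 64 * (E + 1) ^ (r + 6) ≤ Real.exp (((N - 2 * r : ℕ) : ℝ) ^ c) := by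
    refine le_trans ?_ (Real.exp_le_exp.mpr hN2)
    rw [← Real.log_le_iff_le_exp (by positivity), Real.log_mul (by norm_num) (by positivity), Real.log_pow]
    have hl4 : Real.log 64 ≤ 5 := by
      have : Real.log 64 = 6 * Real.log 2 := by
        rw [show (64 : ℝ) = 2 ^ 6 by norm_num, Real.log_pow]
        norm_num
      linarith [Real.log_two_lt_d9]
    push_cast at hlog ⊢
    have h7 : ((r : ℝ) + 6) * Real.log (E + 1) ≤ ((r : ℝ) + 6) * ((N : ℝ) ^ (c / 2 / 4) + Real.log (2 * N + 5)) :=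
      mul_le_mul_of_nonneg_left hE3 (by linarith)
    have h8 : (1 : ℝ) ≤ (N : ℝ) ^ (c / 2 / 4) := Real.one_le_rpow hN1 (by positivity)
    have h9 : 0 ≤ Real.log (2 * (N : ℝ) + 5) := Real.log_nonneg (by linarith)
    have h10 : 1 ≤ ((r : ℝ) + 6) * ((N : ℝ) ^ (c / 2 / 4) + Real.log (2 * N + 5)) := by nlinarith
    have h11 : 2 * (2 + ((r : ℝ) + 4 + 2) * ((N : ℝ) ^ (c / 2 / 4) + Real.log (2 * N + 5))) =
      4 + 2 * (((r : ℝ) + 6) * ((N : ℝ) ^ (c / 2 / 4) + Real.log (2 * N + 5))) := by ring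
    rw [h11] at hlog
    linarith
  have hpw : ∀ m : ℕ, m ≤ r + 6 → ∀ t : ℝ, 0 ≤ t → t ≤ 64 → t * (E + 1) ^ m ≤ Real.exp (((N - 2 * r : ℕ) : ℝ) ^ c) := by
    intro m hm t ht ht2
    refine le_trans ?_ hbig
    exact mul_le_mul ht2 (pow_le_pow_right₀ hE1 hm) (by positivity) (by norm_num)
  -- the cubic polynomial splits
  have hQm : (P3 a b c' : ℤ[X]).Monic := (BD.monic3 a b c').1
  obtain ⟨x, y, z, e1, e2, e3⟩ := g1 a b c' (P.coeff 0) f s hc00
    (by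
      have := hpw r (by omega) 1 (by norm_num) (by norm_num)
      rw [one_mul] at this
      exact hb1.trans this)
    (by
      have := hpw 1 (by omega) 3 (by norm_num) (by norm_num)
      rw [pow_one] at this
      exact hb2.trans this)
    (hb3.trans (hpw 2 (by omega) 3 (by norm_num) (by norm_num)))
    (by
      refine le_trans hb5 (le_trans ?_ (hpw 6 (by omega) 64 (by norm_num) le_rfl))
      have : E ^ 6 ≤ (E + 1) ^ 6 := pow_le_pow_left₀ hE0 (by linarith) 6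
      linarith)
    hfs hf (by push_cast at hfN; exact hfN.trans g2) (hrad.trans g3) (by
      intro p hp hrp hpN hpc
      have hpd : ¬ (p : ℤ) ∣ (-1) ^ r * P.coeff 0 := by
        intro h
        apply hpc
        have h3 := Dvd.dvd.mul_left h ((-1) ^ r)
        rwa [← mul_assoc, ← mul_pow, neg_one_mul, neg_neg, one_pow, one_mul] at h3
      have hx := FIN.loc t_KOS t_LSP N r P hP hrP _ rfl k1 k2 p hp hrp (by omega) hpd
      exact (t_SPL p r P (P3 a b c') hp hP hQm hdvd hx).1 a b c' rfl)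
  have e : P3 a b c' = (X - C x) * (X - C y) * (X - C z) := by
    unfold P3
    rw [e1, e2, e3]
    simp only [map_add, map_mul]
    ring
  refine ⟨x, y, z, ?_, ?_, ?_, e⟩
  · exact hPpos x (dvd_trans ⟨(X - C y) * (X - C z), by rw [e]; ring⟩ hdvd)
  · exact hPpos y (dvd_trans ⟨(X - C x) * (X - C z), by rw [e]; ring⟩ hdvd)
  · exact hPpos z (dvd_trans ⟨(X - C x) * (X - C y), by rw [e]; ring⟩ hdvd)

end Pool.Agent.Run7.h740.BC
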