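import Pool.Agent.Run7.h740.BC.Sv

set_option autoImplicit false
set_option maxHeartbeats 4000000

/-! The sums of a character with the values at all exceptional primes up to `y ^ c` replaced by one. -/

namespace Pool.Agent.Run7.h740.BC

open Finset Filter Pool.Agent.H471R4.BW Pool.Agent.R852.BC

/-- the exponent of the double power -/
def JJ (y : ℕ) : ℕ := Nat.log 2 (Nat.log 2 y) + 1

lemma JJ_lt (y : ℕ) : y < 2 ^ 2 ^ JJ y := by
  have h1 : y < 2 ^ (Nat.log 2 y + 1) := Nat.lt_pow_succ_log_self (by norm_num) y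
  have h2 : Nat.log 2 y + 1 ≤ 2 ^ JJ y := Nat.lt_pow_succ_log_self (by norm_num) _
  exact h1.trans_le (Nat.pow_le_pow_right (by norm_num) h2)

lemma JJ_le (y : ℕ) (hy : 2 ≤ y) : 2 ^ 2 ^ JJ y ≤ y ^ 2 := by
  have h0 : Nat.log 2 y ≠ 0 := by
    have : 0 < Nat.log 2 y := Nat.log_pos (by norm_num) hy
    omega
  have h1 : 2 ^ JJ y ≤ 2 * Nat.log 2 y := by
    unfold JJ
    rw [pow_succ]
    have := Nat.pow_log_le_self 2 h0
    omega
  calc 2 ^ 2 ^ JJ y ≤ 2 ^ (2 * Nat.log 2 y) := Nat.pow_le_pow_right (by norm_num) h1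
    _ = (2 ^ Nat.log 2 y) ^ 2 := by rw [← pow_mul, mul_comm]
    _ ≤ y ^ 2 := Nat.pow_le_pow_left (Nat.pow_log_le_self 2 (by omega)) 2

lemma JJ_small (y : ℕ) (hy : 3 ≤ y) : JJ y + 2 ≤ 2 * y := by
  have h1 : Nat.log 2 (Nat.log 2 y) ≤ Nat.log 2 y := Nat.log_le_self 2 _
  have h2 : Nat.log 2 y ≤ y := Nat.log_le_self 2 _
  unfold JJ
  omega

/-- the bound for the modified sum, by its values over the free integers -/
lemma G_le {N : ℕ} (χ : DirichletCharacter ℂ N) (S P : Finset ℕ) (hP : ∀ p ∈ P, p.Prime) (X : ℕ) (A t : ℝ) (ht : 0 ≤ t)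
    (h : ∀ a : ℕ, 0 < a → (a : ℝ) ≤ A → ‖Ph χ S P (X / a)‖ ≤ t * NP P (X / a)) :
    ‖G χ (S ∪ P) X‖ ≤ t * X + (((Icc 1 X).filter (fun n => A < ((pp P n : ℕ) : ℝ))).card : ℝ) := by
  classical
  have hmaps : ∀ n ∈ Icc 1 X, pp P n ∈ (Icc 1 X).image (pp P) := fun n hn => mem_image_of_mem _ hn
  have h1 : G χ (S ∪ P) X = ∑ a ∈ (Icc 1 X).image (pp P), ∑ n ∈ (Icc 1 X).filter (fun n => pp P n = a),
      gS χ (S ∪ P) n := by
    unfold G
    exact (sum_fiberwise_of_maps_to hmaps _).symm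
  have h2 : t * X + (((Icc 1 X).filter (fun n => A < ((pp P n : ℕ) : ℝ))).card : ℝ) =
      ∑ n ∈ Icc 1 X, (t + if A < ((pp P n : ℕ) : ℝ) then 1 else 0) := by
    rw [sum_add_distrib, sum_const, nsmul_eq_mul, Nat.card_Icc, Nat.add_sub_cancel, card_filter]
    push_cast
    ring
  have h3 : ∑ n ∈ Icc 1 X, (t + if A < ((pp P n : ℕ) : ℝ) then 1 else 0) =
      ∑ a ∈ (Icc 1 X).image (pp P), ∑ n ∈ (Icc 1 X).filter (fun n => pp P n = a),
        (t + if A < ((pp P n : ℕ) : ℝ) then 1 else 0) := (sum_fiberwise_of_maps_to hmaps _).symm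
  rw [h1, h2, h3]
  refine (norm_sum_le _ _).trans (sum_le_sum fun a ha => ?_)
  obtain ⟨n, hn, rfl⟩ := mem_image.1 ha
  have hn0 : n ≠ 0 := by
    have := (mem_Icc.1 hn).1
    omega
  have ha0 := pp_pos P hn0
  have haa := pp_pp P hP hn0
  have hga := gS_pp χ S P hP hn0
  obtain ⟨a, hae⟩ : ∃ a, a = pp P n := ⟨_, rfl⟩
  rw [← hae] at ha0 haa hga ⊢
  have e1 : ∑ n ∈ (Icc 1 X).filter (fun n => pp P n = a), gS χ (S ∪ P) n = Ph χ S P (X / a) := by
    rw [fiber P hP X a ha0 haa]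
    unfold Ph
    apply sum_congr rfl
    intro b hb
    rw [mem_filter, mem_Icc] at hb
    rw [gS_mul χ _ ha0.ne' (by omega), hga, one_mul, gS_union_free χ S P hb.2]
  have e2 : ∑ n ∈ (Icc 1 X).filter (fun n => pp P n = a), (t + if A < ((pp P n : ℕ) : ℝ) then 1 else 0) =
      (t + if A < (a : ℝ) then 1 else 0) * NP P (X / a) := by
    have e3 : ∀ n ∈ (Icc 1 X).filter (fun n => pp P n = a), (t + if A < ((pp P n : ℕ) : ℝ) then 1 else 0) =
        (t + if A < (a : ℝ) then 1 else 0) * 1 := by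
      intro n hn
      rw [(mem_filter.1 hn).2, mul_one]
    rw [sum_congr rfl e3, ← mul_sum, fiber P hP X a ha0 haa]
    congr 1
    simp [NP]
  rw [e1, e2]
  have hNP : (0 : ℝ) ≤ NP P (X / a) := Nat.cast_nonneg _
  split_ifs with hA
  · have h4 : ‖Ph χ S P (X / a)‖ ≤ NP P (X / a) := by
      unfold Ph NP
      refine (norm_sum_le _ _).trans ?_
      refine (sum_le_sum fun b _ => gS_norm_le χ S b).trans ?_
      simp
    nlinarith
  · have := h a ha0 (not_lt.1 hA)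
    linarith

open Classical in
/-- **The bound for the modified sum.** -/
theorem G_est2 (γ η δ : ℝ) (hγ : 0 < γ) (hη : 0 < η) (hδ : 0 < δ) : ∃ c : ℝ, 0 < c ∧ c ≤ 1 ∧ ∀ᶠ y : ℕ in atTop,
    ∀ (N : ℕ) (χ : DirichletCharacter ℂ N) (z X : ℕ) (dl T : ℝ), (z : ℝ) ≤ (y : ℝ) ^ c → 0 ≤ dl →
      dl ≤ (y : ℝ) ^ (-δ) → 1 ≤ T → T * (y : ℝ) ^ η ≤ X →
      (∀ Y ≤ X, ‖shortSum N χ Y‖ ≤ dl * Y ∨ (‖shortSum N χ Y‖ ≤ T ∧ ‖shortSum N χ Y‖ ≤ Y)) →
        ‖G χ (exc χ z) X‖ ≤ γ * X := by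
  obtain ⟨C0, hC0, hcmp⟩ := compare
  obtain ⟨C1, hC1, hlp⟩ := large_part
  obtain ⟨b1, hb1⟩ := exists_pow_lt_of_lt_one (show 0 < γ / 16 by positivity) (show (1 / 2 : ℝ) < 1 by norm_num)
  obtain ⟨b, hb⟩ : ∃ b, b = C0 + 2 + b1 := ⟨_, rfl⟩
  have hbt : 8 * (1 / 2 : ℝ) ^ b ≤ γ / 2 := by
    have h1 : (1 / 2 : ℝ) ^ b ≤ (1 / 2 : ℝ) ^ b1 :=
      pow_le_pow_of_le_one (by norm_num) (by norm_num) (by omega)
    linarith
  obtain ⟨z0, hz0⟩ : ∃ z0, z0 = C0 + 6 := ⟨_, rfl⟩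
  obtain ⟨K, hK⟩ : ∃ K : ℝ, K = 6 ^ (z0 + 1) := ⟨_, rfl⟩
  have hK1 : 1 ≤ K := by rw [hK]; exact one_le_pow₀ (by norm_num)
  obtain ⟨ν, hν⟩ : ∃ ν, ν = min (η / 4) δ := ⟨_, rfl⟩
  have hν0 : 0 < ν := by rw [hν]; exact lt_min (by positivity) hδ
  have hν1 : ν ≤ η / 4 := by rw [hν]; exact min_le_left _ _
  have hν2 : ν ≤ δ := by rw [hν]; exact min_le_right _ _
  obtain ⟨m, hm⟩ : ∃ m : ℕ, m = 2 * (C0 * b + 1) + 1 := ⟨_, rfl⟩
  have hm0 : (0 : ℝ) < m := by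
    rw [hm]
    positivity
  obtain ⟨c, hc⟩ : ∃ c, c = min 1 (min (ν / (2 * m)) (γ * η / (16 * C1))) := ⟨_, rfl⟩
  have hc0 : 0 < c := by
    rw [hc]
    exact lt_min one_pos (lt_min (by positivity) (by positivity))
  have hc1 : c ≤ 1 := by rw [hc]; exact min_le_left _ _
  have hc2 : c * m ≤ ν / 2 := by
    have h1 : c ≤ ν / (2 * m) := by rw [hc]; exact (min_le_right _ _).trans (min_le_left _ _)
    calc c * m ≤ ν / (2 * m) * m := mul_le_mul_of_nonneg_right h1 hm0.le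
      _ = ν / 2 := by field_simp
  have hc3 : c ≤ γ * η / (16 * C1) := by rw [hc]; exact (min_le_right _ _).trans (min_le_right _ _)
  refine ⟨c, hc0, hc1, ?_⟩
  have tc : Tendsto (fun q : ℕ => (q : ℝ)) atTop atTop := tendsto_natCast_atTop_atTop
  have f1 : ∀ᶠ x : ℝ in atTop, 3 * (K * (2 * 2 ^ b)) ≤ x ^ (ν / 2) :=
    (tendsto_rpow_atTop (by positivity : (0 : ℝ) < ν / 2)).eventually_ge_atTop _
  have f2 : ∀ᶠ x : ℝ in atTop, 9 ≤ x ^ c := (tendsto_rpow_atTop hc0).eventually_ge_atTop _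
  have f3 : ∀ᶠ x : ℝ in atTop, 2 ≤ x ^ (η / 4) :=
    (tendsto_rpow_atTop (by positivity : (0 : ℝ) < η / 4)).eventually_ge_atTop _
  filter_upwards [tc.eventually f1, tc.eventually f2, tc.eventually f3, eventually_ge_atTop 2]
    with y g1 g2 g3 hy2 N χ z X dl T hzy hdl0 hdly hT1 hTX hbase
  have hy0 : (0 : ℝ) < y := by positivity
  have hy1 : (1 : ℝ) ≤ y := by exact_mod_cast (by omega : 1 ≤ y)
  have hly : 0 < Real.log y := Real.log_pos (by exact_mod_cast hy2)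
  -- the sifting range
  obtain ⟨z1, hz1⟩ : ∃ z1 : ℕ, z1 = ⌊(y : ℝ) ^ c⌋₊ := ⟨_, rfl⟩
  have hyc0 : 0 ≤ (y : ℝ) ^ c := by positivity
  have hz1u : (z1 : ℝ) ≤ (y : ℝ) ^ c := by rw [hz1]; exact Nat.floor_le hyc0
  have hz18 : 8 ≤ z1 := by
    rw [hz1]
    apply Nat.le_floor
    push_cast
    linarith
  have hzz1 : z ≤ z1 := by
    rw [hz1]
    exact Nat.le_floor hzy
  obtain ⟨J, hJ⟩ : ∃ J, J = JJ z1 := ⟨_, rfl⟩
  obtain ⟨Z, hZ⟩ : ∃ Z : ℕ, Z = 2 ^ 2 ^ J := ⟨_, rfl⟩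
  have hz1Z : z1 < Z := by rw [hZ, hJ]; exact JJ_lt z1
  have hZz1 : Z ≤ z1 ^ 2 := by rw [hZ, hJ]; exact JJ_le z1 (by omega)
  have hJz : J + 2 ≤ 2 * z1 := by rw [hJ]; exact JJ_small z1 (by omega)
  have hZy : (Z : ℝ) ≤ (y : ℝ) ^ (2 * c) := by
    calc (Z : ℝ) ≤ (z1 : ℝ) ^ 2 := by exact_mod_cast hZz1
      _ ≤ ((y : ℝ) ^ c) ^ 2 := pow_le_pow_left₀ (Nat.cast_nonneg _) hz1u 2
      _ = (y : ℝ) ^ (2 * c) := by
          rw [← Real.rpow_natCast, ← Real.rpow_mul hy0.le]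
          congr 1
          push_cast
          ring
  have hZ0 : (0 : ℝ) < Z := by
    have : (0 : ℝ) ≤ z1 := Nat.cast_nonneg _
    have h2 : (z1 : ℝ) < Z := by exact_mod_cast hz1Z
    linarith
  have hlZ : Real.log Z ≤ 2 * c * Real.log y := by
    have := Real.log_le_log hZ0 hZy
    rwa [Real.log_rpow hy0] at this
  have hlZ0 : 0 < Real.log Z := Real.log_pos (by
    have h2 : (z1 : ℝ) < Z := by exact_mod_cast hz1Z
    have h3 : (8 : ℝ) ≤ z1 := by exact_mod_cast hz18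
    linarith)
  -- the two parts of the exceptional primes
  obtain ⟨S, hS⟩ : ∃ S, S = (exc χ z).filter (fun p => ¬ z0 < p) := ⟨_, rfl⟩
  obtain ⟨P, hP⟩ : ∃ P, P = (exc χ z).filter (fun p => z0 < p) := ⟨_, rfl⟩
  have hSP : exc χ z = S ∪ P := by
    rw [hS, hP, union_comm]
    exact (filter_union_filter_not_eq _ _).symm
  have hexc : ∀ q ∈ exc χ z, q.Prime ∧ q ≤ z := by
    intro q hq
    unfold exc at hq
    rw [mem_filter, mem_range] at hq
    exact ⟨hq.2.1, by omega⟩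
  have hPp : ∀ p ∈ P, p.Prime ∧ z0 < p ∧ p ≤ Z := by
    intro p hp
    rw [hP, mem_filter] at hp
    have := hexc p hp.1
    exact ⟨this.1, hp.2, by omega⟩
  have hSp : ∀ p ∈ S, p.Prime ∧ p ≤ z0 := by
    intro p hp
    rw [hS, mem_filter] at hp
    exact ⟨(hexc p hp.1).1, not_lt.1 hp.2⟩
  -- the losses at the primes of S
  have hrho : ∏ q ∈ S, rho q ≤ K := by
    have hcard : S.card ≤ z0 + 1 := by
      calc S.card ≤ (range (z0 + 1)).card := by
            apply card_le_card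
            intro p hp
            rw [mem_range]
            have := (hSp p hp).2
            omega
        _ = z0 + 1 := card_range _
    calc ∏ q ∈ S, rho q ≤ ∏ _q ∈ S, (6 : ℝ) := Finset.prod_le_prod
          (fun q hq => by have := rho_one_le (hSp q hq).1; linarith) (fun q hq => rho_le (hSp q hq).1)
      _ = 6 ^ S.card := by rw [prod_const]
      _ ≤ K := by
          rw [hK]
          exact pow_le_pow_right₀ (by norm_num) hcard
  have hT0 : 0 ≤ T := by linarith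
  have hbase' : ∀ Y ≤ X, ‖shortSum N χ Y‖ ≤ dl * Y + √T * √(Y : ℝ) := by
    intro Y hY
    rcases hbase Y hY with h | ⟨h1, h2⟩
    · have : 0 ≤ √T * √(Y : ℝ) := by positivity
      linarith
    · have h3 : ‖shortSum N χ Y‖ ≤ √T * √(Y : ℝ) := by
        have h0 := norm_nonneg (shortSum N χ Y)
        calc ‖shortSum N χ Y‖ = √‖shortSum N χ Y‖ * √‖shortSum N χ Y‖ := (Real.mul_self_sqrt h0).symm
          _ ≤ √T * √(Y : ℝ) := mul_le_mul (Real.sqrt_le_sqrt h1) (Real.sqrt_le_sqrt h2) (Real.sqrt_nonneg _)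
              (Real.sqrt_nonneg _)
      have : 0 ≤ dl * Y := mul_nonneg hdl0 (Nat.cast_nonneg _)
      linarith
  have hGS : ∀ Y ≤ X, ‖G χ S Y‖ ≤ K * (dl * Y + √T * √(Y : ℝ)) := by
    intro Y hY
    refine (G_bound χ S (fun q hq => (hSp q hq).1) X dl (√T) hdl0 (Real.sqrt_nonneg _) hbase' Y hY).trans ?_
    apply mul_le_mul_of_nonneg_right hrho
    have : 0 ≤ dl * Y := mul_nonneg hdl0 (Nat.cast_nonneg _)
    positivity
  -- the cost of the sieve
  obtain ⟨M, hM⟩ : ∃ M : ℝ, M = ((J : ℝ) + 2) * (((Z ^ (C0 * b) : ℕ) : ℝ)) * ((Z : ℝ) * 2 ^ b) := ⟨_, rfl⟩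
  have hM0 : 0 ≤ M := by rw [hM]; positivity
  have hMy : 3 * (M * K) ≤ (y : ℝ) ^ ν := by
    have h1 : M ≤ (2 * 2 ^ b) * (y : ℝ) ^ (c * m) := by
      have e1 : (J : ℝ) + 2 ≤ 2 * (y : ℝ) ^ c := by
        have : ((J + 2 : ℕ) : ℝ) ≤ ((2 * z1 : ℕ) : ℝ) := by exact_mod_cast hJz
        push_cast at this
        linarith
      have e2 : ((Z ^ (C0 * b) : ℕ) : ℝ) * (Z : ℝ) ≤ (y : ℝ) ^ (2 * c * ((C0 * b + 1 : ℕ) : ℝ)) := by
        calc ((Z ^ (C0 * b) : ℕ) : ℝ) * (Z : ℝ) = (Z : ℝ) ^ (C0 * b + 1) := by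
              push_cast
              ring
          _ ≤ ((y : ℝ) ^ (2 * c)) ^ (C0 * b + 1) := pow_le_pow_left₀ hZ0.le hZy _
          _ = (y : ℝ) ^ (2 * c * ((C0 * b + 1 : ℕ) : ℝ)) := by
              rw [← Real.rpow_natCast, ← Real.rpow_mul hy0.le]
      calc M = ((J : ℝ) + 2) * (((Z ^ (C0 * b) : ℕ) : ℝ) * (Z : ℝ)) * 2 ^ b := by
            rw [hM]
            ring
        _ ≤ (2 * (y : ℝ) ^ c) * (y : ℝ) ^ (2 * c * ((C0 * b + 1 : ℕ) : ℝ)) * 2 ^ b := by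
            gcongr
        _ = (2 * 2 ^ b) * ((y : ℝ) ^ c * (y : ℝ) ^ (2 * c * ((C0 * b + 1 : ℕ) : ℝ))) := by ring
        _ = (2 * 2 ^ b) * (y : ℝ) ^ (c * m) := by
            rw [← Real.rpow_add hy0]
            congr 2
            rw [hm]
            push_cast
            ring
    have h2 : (y : ℝ) ^ (c * m) ≤ (y : ℝ) ^ (ν / 2) := Real.rpow_le_rpow_of_exponent_le hy1 hc2
    have h3 : (y : ℝ) ^ ν = (y : ℝ) ^ (ν / 2) * (y : ℝ) ^ (ν / 2) := by
      rw [← Real.rpow_add hy0]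
      congr 1
      ring
    calc 3 * (M * K) ≤ 3 * ((2 * 2 ^ b) * (y : ℝ) ^ (ν / 2) * K) := by
          have : M ≤ (2 * 2 ^ b) * (y : ℝ) ^ (ν / 2) := h1.trans (mul_le_mul_of_nonneg_left h2 (by positivity))
          gcongr
      _ = (3 * (K * (2 * 2 ^ b))) * (y : ℝ) ^ (ν / 2) := by ring
      _ ≤ (y : ℝ) ^ (ν / 2) * (y : ℝ) ^ (ν / 2) := mul_le_mul_of_nonneg_right g1 (by positivity)
      _ = _ := h3.symm
  -- sizes
  obtain ⟨w, hw⟩ : ∃ w, w = (y : ℝ) ^ (η / 2) := ⟨_, rfl⟩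
  have hw0 : 0 < w := by rw [hw]; positivity
  have hw1 : 1 ≤ w := by rw [hw]; exact Real.one_le_rpow hy1 (by positivity)
  have hww : (y : ℝ) ^ η = w * w := by
    rw [hw, ← Real.rpow_add hy0]
    congr 1
    ring
  rw [hww] at hTX
  have hνw : ((y : ℝ) ^ ν) ^ 2 ≤ w := by
    rw [hw, ← Real.rpow_natCast, ← Real.rpow_mul hy0.le]
    apply Real.rpow_le_rpow_of_exponent_le hy1
    push_cast
    linarith
  have hyν1 : 1 ≤ (y : ℝ) ^ ν := Real.one_le_rpow hy1 hν0.le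
  have hνw' : (y : ℝ) ^ ν ≤ w := by nlinarith
  have hdlν : dl * (y : ℝ) ^ ν ≤ 1 := by
    calc dl * (y : ℝ) ^ ν ≤ (y : ℝ) ^ (-δ) * (y : ℝ) ^ ν := mul_le_mul_of_nonneg_right hdly (by positivity)
      _ = (y : ℝ) ^ (-δ + ν) := by rw [← Real.rpow_add hy0]
      _ ≤ (y : ℝ) ^ (0 : ℝ) := Real.rpow_le_rpow_of_exponent_le hy1 (by linarith)
      _ = 1 := Real.rpow_zero _
  have hXw : w * w ≤ X := le_trans (le_mul_of_one_le_left (by positivity) hT1) hTX
  have hX0 : (0 : ℝ) < X := lt_of_lt_of_le (by positivity) hXw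
  -- the sieve for large quotients
  have hmain : ∀ a : ℕ, 0 < a → (a : ℝ) ≤ w / 2 → ‖Ph χ S P (X / a)‖ ≤ 8 * (1 / 2 : ℝ) ^ b * NP P (X / a) := by
    intro a ha haw
    have ha0 : (0 : ℝ) < a := by exact_mod_cast ha
    obtain ⟨Y, hY⟩ : ∃ Y, Y = X / a := ⟨_, rfl⟩
    rw [← hY]
    have hYX : Y ≤ X := by rw [hY]; exact Nat.div_le_self _ _
    have hYl : (X : ℝ) / w ≤ Y := by
      have e1 : (X : ℝ) / a ≤ (Y : ℝ) + 1 := by
        rw [div_le_iff₀ ha0, hY]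
        have h5 : X < (X / a + 1) * a := by
          have := Nat.lt_div_mul_add ha (a := X)
          linarith [Nat.add_mul (X / a) 1 a, this]
        exact_mod_cast h5.le
      have e2 : 2 * ((X : ℝ) / w) ≤ X / a := by
        have : (X : ℝ) / (w / 2) ≤ X / a := div_le_div_of_nonneg_left hX0.le ha0 haw
        calc 2 * ((X : ℝ) / w) = X / (w / 2) := by field_simp
          _ ≤ _ := this
      have e3 : 1 ≤ (X : ℝ) / w := by
        rw [le_div_iff₀ hw0]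
        nlinarith
      linarith
    have hYw : w ≤ Y := by
      refine le_trans ?_ hYl
      rw [le_div_iff₀ hw0]
      exact hXw
    have hYT : T * w ≤ Y := by
      refine le_trans ?_ hYl
      rw [le_div_iff₀ hw0]
      linarith
    have hY0 : (0 : ℝ) < Y := by linarith
    have hsY : √(Y : ℝ) * √(Y : ℝ) = Y := Real.mul_self_sqrt hY0.le
    apply hcmp b J z0 P (by omega) (by omega) (by omega) (fun p hp => by
      obtain ⟨h1, h2, h3⟩ := hPp p hp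
      exact ⟨h1, h2, by rw [← hZ]; exact h3⟩) N χ S Y (K * (dl * Y + √T * √(Y : ℝ))) (by positivity)
    · intro d hd
      have h1 : Y / d ≤ Y := Nat.div_le_self _ _
      have h2 : (((Y / d : ℕ) : ℕ) : ℝ) ≤ Y := by exact_mod_cast h1
      refine (hGS (Y / d) (h1.trans hYX)).trans ?_
      have h3 : √(((Y / d : ℕ) : ℕ) : ℝ) ≤ √(Y : ℝ) := Real.sqrt_le_sqrt h2
      gcongr
    · rw [← hZ]
      have e0 : ((J : ℝ) + 2) * ((((Z ^ (C0 * b) : ℕ) : ℝ)) * (1 + K * (dl * Y + √T * √(Y : ℝ)))) * ((Z : ℝ) * 2 ^ b) =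
          M + (M * K) * dl * Y + (M * K) * √T * √(Y : ℝ) := by
        rw [hM]
        ring
      rw [e0]
      have hMK : 0 ≤ M * K := mul_nonneg hM0 (by linarith)
      have t1 : 3 * M ≤ Y := by
        have : M ≤ M * K := le_mul_of_one_le_right hM0 hK1
        linarith
      have t2 : 3 * ((M * K) * dl) ≤ 1 := by
        calc 3 * ((M * K) * dl) = dl * (3 * (M * K)) := by ring
          _ ≤ dl * (y : ℝ) ^ ν := mul_le_mul_of_nonneg_left hMy hdl0
          _ ≤ 1 := hdlν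
      have t3 : 3 * ((M * K) * √T) ≤ √(Y : ℝ) := by
        apply Real.le_sqrt_of_sq_le
        have hsT : √T ^ 2 = T := Real.sq_sqrt hT0
        calc (3 * ((M * K) * √T)) ^ 2 = (3 * (M * K)) ^ 2 * √T ^ 2 := by ring
          _ = (3 * (M * K)) ^ 2 * T := by rw [hsT]
          _ ≤ ((y : ℝ) ^ ν) ^ 2 * T := by
              apply mul_le_mul_of_nonneg_right _ hT0
              exact pow_le_pow_left₀ (by linarith) hMy 2
          _ ≤ w * T := mul_le_mul_of_nonneg_right hνw hT0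
          _ ≤ Y := by linarith
      have t2' : 3 * ((M * K) * dl * Y) ≤ Y := by
        calc 3 * ((M * K) * dl * Y) = (3 * ((M * K) * dl)) * Y := by ring
          _ ≤ 1 * Y := mul_le_mul_of_nonneg_right t2 hY0.le
          _ = Y := one_mul _
      have t3' : 3 * ((M * K) * √T * √(Y : ℝ)) ≤ Y := by
        calc 3 * ((M * K) * √T * √(Y : ℝ)) = (3 * ((M * K) * √T)) * √(Y : ℝ) := by ring
          _ ≤ √(Y : ℝ) * √(Y : ℝ) := mul_le_mul_of_nonneg_right t3 (Real.sqrt_nonneg _)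
          _ = Y := hsY
      linarith
  have hG := G_le χ S P (fun p hp => (hPp p hp).1) X (w / 2) (8 * (1 / 2 : ℝ) ^ b) (by positivity) hmain
  have hLP := hlp Z (by omega) P (fun q hq => by
    obtain ⟨h1, h2, h3⟩ := hPp q hq
    exact ⟨h1, by omega, h3⟩) X (w / 2) (by positivity)
  -- the rare integers
  have hrare : C1 * (w / 2) ^ (-(1 / Real.log Z)) ≤ γ / 2 := by
    have e1 : (y : ℝ) ^ (η / 4) ≤ w / 2 := by
      have : w = (y : ℝ) ^ (η / 4) * (y : ℝ) ^ (η / 4) := by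
        rw [hw, ← Real.rpow_add hy0]
        congr 1
        ring
      rw [this]
      nlinarith
    have e2 : (w / 2) ^ (-(1 / Real.log Z)) ≤ ((y : ℝ) ^ (η / 4)) ^ (-(1 / Real.log Z)) :=
      Real.rpow_le_rpow_of_nonpos (by positivity) e1 (by
        have : 0 < 1 / Real.log Z := by positivity
        linarith)
    have e3 : ((y : ℝ) ^ (η / 4)) ^ (-(1 / Real.log Z)) = Real.exp (-(η / 4 * Real.log y / Real.log Z)) := by
      rw [← Real.rpow_mul hy0.le, Real.rpow_def_of_pos hy0]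
      congr 1
      ring
    have e4 : η / (8 * c) ≤ η / 4 * Real.log y / Real.log Z := by
      rw [div_le_div_iff₀ (by positivity) hlZ0]
      calc η * Real.log Z ≤ η * (2 * c * Real.log y) := mul_le_mul_of_nonneg_left hlZ hη.le
        _ = η / 4 * Real.log y * (8 * c) := by ring
    have e5 : Real.exp (-(η / 4 * Real.log y / Real.log Z)) ≤ 8 * c / η := by
      calc Real.exp (-(η / 4 * Real.log y / Real.log Z)) ≤ Real.exp (-(η / (8 * c))) :=
            Real.exp_le_exp.mpr (by linarith)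
        _ = (Real.exp (η / (8 * c)))⁻¹ := Real.exp_neg _
        _ ≤ (η / (8 * c))⁻¹ := by
            apply inv_anti₀ (by positivity)
            have := Real.add_one_le_exp (η / (8 * c))
            linarith
        _ = 8 * c / η := by rw [inv_div]
    calc C1 * (w / 2) ^ (-(1 / Real.log Z)) ≤ C1 * (8 * c / η) := by
          apply mul_le_mul_of_nonneg_left _ hC1.le
          rw [e3] at e2
          exact e2.trans e5
      _ ≤ C1 * (8 * (γ * η / (16 * C1)) / η) := by gcongr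
      _ = γ / 2 := by
          field_simp
          ring
  rw [hSP]
  have h1 : 8 * (1 / 2 : ℝ) ^ b * X ≤ γ / 2 * X := mul_le_mul_of_nonneg_right hbt hX0.le
  have h2 : C1 * (w / 2) ^ (-(1 / Real.log Z)) * X ≤ γ / 2 * X := mul_le_mul_of_nonneg_right hrare hX0.le
  have h3 : ‖G χ (S ∪ P) X‖ ≤ 8 * (1 / 2 : ℝ) ^ b * X + C1 * (w / 2) ^ (-(1 / Real.log Z)) * X :=
    hG.trans (by
      apply add_le_add le_rfl
      convert hLP)
  linarith

end Pool.Agent.Run7.h740.BC
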