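import Pool.Agent.Run7.h740.BC.Main2
import Pool.Agent.R852.BC.Fin

set_option autoImplicit false
set_option maxHeartbeats 4000000

/-! Discriminants of Chern polynomials of rank two, of size up to `exp (n ^ (c / log log n))`. -/

namespace Pool.Agent.Run7.h740.BC

open Finset Filter Pool.Agent.R852.BC Pool.Agent.R920.CH

lemma ev_log_one (K : ℝ) (hK : 0 < K) : ∀ᶠ x : ℝ in atTop, K ≤ Real.log x :=
  Real.tendsto_log_atTop.eventually_ge_atTop K

/-- comparison of the bounds for `n` and `n - 1` -/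
lemma thr_sub (c : ℝ) (hc : 0 < c) : ∀ᶠ n : ℕ in atTop, thr (c / 2) n ≤ thr c (n - 1) := by
  have tl : Tendsto (fun y : ℕ => Real.log (y : ℝ)) atTop atTop :=
    Real.tendsto_log_atTop.comp tendsto_natCast_atTop_atTop
  have tl1 : Tendsto (fun y : ℕ => Real.log ((y - 1 : ℕ) : ℝ)) atTop atTop := tl.comp (tendsto_sub_atTop_nat 1)
  filter_upwards [tl.eventually_ge_atTop 3, tl1.eventually_ge_atTop 3, eventually_ge_atTop 4] with n h1 h2 h4
  rw [thr_eq (c / 2) (by omega), thr_eq c (by omega)]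
  apply Real.exp_le_exp.mpr
  set m : ℕ := n - 1 with hm
  have hm3 : 3 ≤ m := by omega
  have hm0 : (0 : ℝ) < m := by exact_mod_cast (by omega : 0 < m)
  have hn0 : (0 : ℝ) < n := by exact_mod_cast (by omega : 0 < n)
  have hnm : (n : ℝ) ≤ (m : ℝ) ^ 2 := by
    have : n ≤ m ^ 2 := by
      have : n = m + 1 := by omega
      rw [this]
      nlinarith
    exact_mod_cast this
  have h5 : Real.log n ≤ 2 * Real.log m := by
    have := Real.log_le_log hn0 hnm
    rwa [Real.log_pow, Nat.cast_ofNat] at this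
  have h6 : Real.log m ≤ Real.log n := Real.log_le_log hm0 (by exact_mod_cast (by omega : m ≤ n))
  have h7 : 1 ≤ Real.log (Real.log m) := by
    rw [Real.le_log_iff_exp_le (by linarith)]
    have := Real.exp_one_lt_d9
    linarith
  have h8 : Real.log (Real.log m) ≤ Real.log (Real.log n) := Real.log_le_log (by linarith) h6
  calc c / 2 * (Real.log n / Real.log (Real.log n)) ≤ c / 2 * (2 * Real.log m / Real.log (Real.log m)) := by
        apply mul_le_mul_of_nonneg_left _ (by positivity)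
        exact div_le_div₀ (by linarith) h5 (by linarith) h8
    _ = c * (Real.log m / Real.log (Real.log m)) := by ring

/-- the same in the form used below -/
lemma main_sub3 (ε : ℝ) (hε : 0 < ε) (hε1 : ε ≤ 1) : ∃ c : ℝ, 0 < c ∧ c ≤ 1 ∧ ∀ᶠ n : ℕ in atTop, ∀ D B : ℤ,
    B ≠ 0 → (|B| : ℝ) ≤ Real.exp (thr c n) → (|D| : ℝ) ≤ (n : ℝ) ^ (4 * Real.exp (1 / 2) - ε) →
    (∀ p : ℕ, p.Prime → 2 < p → p + 1 ≤ n → ¬ (p : ℤ) ∣ B → ∃ t : ℤ, (p : ℤ) ∣ D - t ^ 2) →
      IsSquare D := by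
  obtain ⟨c, hc0, hc1, hm⟩ := main3 2 (ε / 2) (by positivity) (by linarith)
  refine ⟨c / 2, by positivity, by linarith, ?_⟩
  have h1 := (tendsto_sub_atTop_nat 1).eventually hm
  have h2 := pow_transfer 1 (4 * Real.exp (1 / 2)) ε (by positivity) hε
  filter_upwards [h1, h2, thr_sub c hc0, eventually_ge_atTop 1] with n g1 g2 g3 hn1 D B hB0 hB hD hp
  refine g1 D B hB0 (hB.trans (Real.exp_le_exp.mpr g3)) (hD.trans g2) ?_
  intro p hp1 hkp hpn hpB
  exact hp p hp1 hkp (by omega) hpB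

/-- **Rank two**: the squarefree part of a discriminant of size at most `exp (n ^ (c / log log n))` which is not a square
is large. -/
theorem rank_two3 (ε : ℝ) (hε : 0 < ε) : ∃ c : ℝ, 0 < c ∧ c ≤ 1 ∧ ∀ᶠ n : ℕ in atTop, ∀ c₁ c₂ f s : ℤ,
    RiemannRoch n (poly2 c₁ c₂) → c₁ ^ 2 - 4 * c₂ = f * s ^ 2 →
    (|c₁ ^ 2 - 4 * c₂| : ℤ) ≤ Real.exp (thr c n) →
    (|f| : ℤ) ≤ (n : ℝ) ^ (4 * Real.exp (1 / 2) - ε) →
    ∃ a b : ℤ, c₁ = a + b ∧ c₂ = a * b := by
  wlog hε1 : ε ≤ 1 generalizing ε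
  · obtain ⟨c, hc0, hc1, h1⟩ := this 1 one_pos le_rfl
    refine ⟨c, hc0, hc1, ?_⟩
    filter_upwards [h1, eventually_ge_atTop 1] with y hy hy1 c₁ c₂ f s h2 h3 h4 h5
    refine hy c₁ c₂ f s h2 h3 h4 (h5.trans ?_)
    apply Real.rpow_le_rpow_of_exponent_le (by exact_mod_cast hy1)
    linarith
  obtain ⟨c, hc0, hc1, hmain⟩ := main_sub3 ε hε hε1
  refine ⟨c, hc0, hc1, ?_⟩
  filter_upwards [hmain, eventually_ge_atTop 1]
    with n hn hn1 c₁ c₂ f s hRR hfs hA hf
  have hsq : IsSquare (c₁ ^ 2 - 4 * c₂) := by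
    by_cases hD0 : c₁ ^ 2 - 4 * c₂ = 0
    · rw [hD0]
      exact ⟨0, by norm_num⟩
    · have hs0 : s ≠ 0 := by
        rintro rfl
        exact hD0 (by rw [hfs]; ring)
      have h1 : IsSquare f := by
        refine hn f s hs0 ?_ (by push_cast at hf; exact hf) ?_
        · have h2 : (|s| : ℤ) ≤ |c₁ ^ 2 - 4 * c₂| := by
            have h3 : (1 : ℤ) ≤ |f| := by
              apply Int.one_le_abs
              rintro rfl
              exact hD0 (by rw [hfs]; ring)
            have h4 : (1 : ℤ) ≤ |s| := Int.one_le_abs hs0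
            rw [hfs, abs_mul, abs_pow]
            nlinarith
          have h3 : ((|s| : ℤ) : ℝ) ≤ ((|c₁ ^ 2 - 4 * c₂| : ℤ) : ℝ) := by exact_mod_cast h2
          push_cast at h3 hA
          linarith
        · intro p hp h2 hpn hps
          obtain ⟨t, ht⟩ := square_mod hRR p hp (by omega) (by omega)
          rw [hfs] at ht
          have hpi := Nat.prime_iff_prime_int.1 hp
          obtain ⟨u, v, huv⟩ := (Irreducible.coprime_iff_not_dvd hpi.irreducible).mpr hps
          -- `v s = 1 - u p`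
          refine ⟨v * t, ?_⟩
          have e : f - (v * t) ^ 2 = v ^ 2 * (f * s ^ 2 - t ^ 2) + (p : ℤ) * (f * u * (2 - u * p)) := by
            have e1 : v * s = 1 - u * p := by linarith
            have e2 : (v * s) ^ 2 = (1 - u * p) ^ 2 := by rw [e1]
            linear_combination (-f) * e2
          rw [e]
          exact dvd_add (Dvd.dvd.mul_left ht _) (dvd_mul_right _ _)
      obtain ⟨g, hg⟩ := h1
      exact ⟨g * s, by rw [hfs, hg]; ring⟩
  obtain ⟨s, hs⟩ := hsq
  have h1 : Even (c₁ ^ 2 - s * s) := ⟨2 * c₂, by linarith⟩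
  have h2 : Even (c₁ - s) := by
    rw [Int.even_sub] at h1 ⊢
    rw [Int.even_pow' two_ne_zero, Int.even_mul] at h1
    tauto
  obtain ⟨m, hm⟩ := h2
  refine ⟨c₁ - m, m, by ring, ?_⟩
  have h3 : s = c₁ - 2 * m := by linarith
  rw [h3] at hs
  have h4 : 4 * c₂ = 4 * ((c₁ - m) * m) := by linear_combination -hs
  linarith

end Pool.Agent.Run7.h740.BC
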