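import Pool.Agent.Run7.h740.BC.Main4
import Pool.Agent.R852.BC.Fin

set_option autoImplicit false
set_option maxHeartbeats 4000000

/-! Discriminants of Chern polynomials of rank two which are divisible by at most `n ^ c` primes below `n`. -/

namespace Pool.Agent.Run7.h740.BC

open Finset Filter Pool.Agent.R852.BC Pool.Agent.R920.CH

/-- the primes below `n` dividing `D` -/
def PD (n : ℕ) (D : ℤ) : Finset ℕ := (Finset.range n).filter (fun p : ℕ => p.Prime ∧ (p : ℤ) ∣ D)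

/-- the main theorem in the form used below -/
lemma main_sub4 (ε : ℝ) (hε : 0 < ε) (hε1 : ε ≤ 1) : ∃ c : ℝ, 0 < c ∧ c ≤ 1 ∧ ∀ᶠ n : ℕ in atTop, ∀ (D s : ℤ),
    ((PD n s).card : ℝ) ≤ (n : ℝ) ^ c → (|D| : ℝ) ≤ (n : ℝ) ^ (4 * Real.exp (1 / 2) - ε) →
    (∀ p : ℕ, p.Prime → 2 < p → p + 1 ≤ n → ¬ (p : ℤ) ∣ s → ∃ t : ℤ, (p : ℤ) ∣ D - t ^ 2) →
      IsSquare D := by
  obtain ⟨c, hc0, hc1, hm⟩ := main4 2 (ε / 2) (by positivity) (by linarith)
  refine ⟨c / 4, by positivity, by linarith, ?_⟩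
  have h1 := (tendsto_sub_atTop_nat 1).eventually hm
  have h2 := pow_transfer 1 (4 * Real.exp (1 / 2)) ε (by positivity) hε
  have tc : Tendsto (fun q : ℕ => (q : ℝ)) atTop atTop := tendsto_natCast_atTop_atTop
  have f1 : ∀ᶠ x : ℝ in atTop, Real.log x ≤ x ^ (c / 4) := by
    have h1 := (isLittleO_log_rpow_atTop (show (0 : ℝ) < c / 4 by positivity)).def (show (0 : ℝ) < 1 by norm_num)
    filter_upwards [h1, eventually_ge_atTop 1] with x hx hx1
    have h3 : 0 ≤ Real.log x := Real.log_nonneg hx1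
    rw [Real.norm_eq_abs, Real.norm_eq_abs, abs_of_nonneg h3, abs_of_nonneg (by positivity)] at hx
    linarith
  filter_upwards [h1, h2, tc.eventually f1, eventually_ge_atTop 4] with n g1 g2 g3 hn4 D s hs hD hp
  have hn0 : (0 : ℝ) < n := by positivity
  have hn1 : (1 : ℝ) ≤ n := by exact_mod_cast (by omega : 1 ≤ n)
  obtain ⟨B, hB⟩ : ∃ B : ℕ, B = ∏ p ∈ PD n s, p := ⟨_, rfl⟩
  have hPD : ∀ p ∈ PD n s, p < n ∧ p.Prime ∧ (p : ℤ) ∣ s := by
    intro p hp
    unfold PD at hp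
    rw [mem_filter, mem_range] at hp
    exact hp
  have hB0 : B ≠ 0 := by
    rw [hB]
    exact prod_ne_zero_iff.2 fun p hp => (hPD p hp).2.1.ne_zero
  have hBle : (B : ℝ) ≤ Real.exp (((n - 1 : ℕ) : ℝ) ^ c) := by
    have e1 : B ≤ n ^ (PD n s).card := by
      rw [hB]
      exact prod_le_pow_card _ _ _ fun p hp => (hPD p hp).1.le
    have e2 : (B : ℝ) ≤ (n : ℝ) ^ (PD n s).card := by exact_mod_cast e1
    have e3 : (n : ℝ) ^ (PD n s).card = Real.exp ((PD n s).card * Real.log n) := by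
      rw [Real.exp_nat_mul, Real.exp_log hn0]
    rw [e3] at e2
    refine e2.trans (Real.exp_le_exp.mpr ?_)
    have e4 : (n : ℝ) ≤ ((n - 1 : ℕ) : ℝ) ^ 2 := by
      have : n ≤ (n - 1) ^ 2 := by
        obtain ⟨m, rfl⟩ : ∃ m, n = m + 1 := ⟨n - 1, by omega⟩
        rw [Nat.add_sub_cancel]
        nlinarith
      exact_mod_cast this
    calc ((PD n s).card : ℝ) * Real.log n ≤ (n : ℝ) ^ (c / 4) * (n : ℝ) ^ (c / 4) :=
          mul_le_mul hs g3 (Real.log_nonneg hn1) (by positivity)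
      _ = (n : ℝ) ^ (c / 2) := by
          rw [← Real.rpow_add hn0]
          congr 1
          ring
      _ ≤ (((n - 1 : ℕ) : ℝ) ^ 2) ^ (c / 2) := Real.rpow_le_rpow hn0.le e4 (by positivity)
      _ = ((n - 1 : ℕ) : ℝ) ^ c := by
          rw [← Real.rpow_natCast, ← Real.rpow_mul (Nat.cast_nonneg _)]
          congr 1
          push_cast
          ring
  refine g1 D B (by exact_mod_cast hB0) (by push_cast; rw [abs_of_nonneg (Nat.cast_nonneg _)]; exact hBle)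
    (hD.trans g2) ?_
  intro p hp1 hkp hpn hpB
  refine hp p hp1 hkp (by omega) fun hps => hpB ?_
  have hmem : p ∈ PD n s := by
    unfold PD
    rw [mem_filter, mem_range]
    exact ⟨by omega, hp1, hps⟩
  have : p ∣ B := by
    rw [hB]
    exact Finset.dvd_prod_of_mem _ hmem
  exact_mod_cast this

/-- **Rank two**: the squarefree part of a discriminant which is not a square and is divisible by at most `n ^ c`
primes below `n` is large. -/
theorem rank_two5 (ε : ℝ) (hε : 0 < ε) : ∃ c : ℝ, 0 < c ∧ c ≤ 1 ∧ ∀ᶠ n : ℕ in atTop, ∀ c₁ c₂ f s : ℤ,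
    RiemannRoch n (poly2 c₁ c₂) → c₁ ^ 2 - 4 * c₂ = f * s ^ 2 →
    ((PD n (c₁ ^ 2 - 4 * c₂)).card : ℝ) ≤ (n : ℝ) ^ c →
    (|f| : ℤ) ≤ (n : ℝ) ^ (4 * Real.exp (1 / 2) - ε) →
    ∃ a b : ℤ, c₁ = a + b ∧ c₂ = a * b := by
  wlog hε1 : ε ≤ 1 generalizing ε
  · obtain ⟨c, hc0, hc1, h1⟩ := this 1 one_pos le_rfl
    refine ⟨c, hc0, hc1, ?_⟩
    filter_upwards [h1, eventually_ge_atTop 1] with y hy hy1 c₁ c₂ f s h2 h3 h4 h5
    refine hy c₁ c₂ f s h2 h3 h4 (h5.trans ?_)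
    apply Real.rpow_le_rpow_of_exponent_le (by exact_mod_cast hy1)
    linarith
  obtain ⟨c, hc0, hc1, hmain⟩ := main_sub4 ε hε hε1
  refine ⟨c, hc0, hc1, ?_⟩
  filter_upwards [hmain, eventually_ge_atTop 1]
    with n hn hn1 c₁ c₂ f s hRR hfs hA hf
  have hsq : IsSquare (c₁ ^ 2 - 4 * c₂) := by
    by_cases hD0 : c₁ ^ 2 - 4 * c₂ = 0
    · rw [hD0]
      exact ⟨0, by norm_num⟩
    · have h1 : IsSquare f := by
        refine hn f s ?_ (by push_cast at hf; exact hf) ?_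
        · refine le_trans ?_ hA
          have : (PD n s).card ≤ (PD n (c₁ ^ 2 - 4 * c₂)).card := by
            apply card_le_card
            intro p hp
            unfold PD at hp ⊢
            rw [mem_filter] at hp ⊢
            refine ⟨hp.1, hp.2.1, ?_⟩
            rw [hfs]
            exact Dvd.dvd.mul_left (Dvd.dvd.pow hp.2.2 two_ne_zero) f
          exact_mod_cast this
        · intro p hp h2 hpn hps
          obtain ⟨t, ht⟩ := square_mod hRR p hp (by omega) (by omega)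
          rw [hfs] at ht
          have hpi := Nat.prime_iff_prime_int.1 hp
          obtain ⟨u, v, huv⟩ := (Irreducible.coprime_iff_not_dvd hpi.irreducible).mpr hps
          refine ⟨v * t, ?_⟩
          have e : f - (v * t) ^ 2 = v ^ 2 * (f * s ^ 2 - t ^ 2) + (p : ℤ) * (f * u * (2 - u * p)) := by
            have e1 : v * s = 1 - u * p := by linarith
            have e2 : (v * s) ^ 2 = (1 - u * p) ^ 2 := by rw [e1]
            linear_combination (-f) * e2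
          rw [e]
          exact dvd_add (Dvd.dvd.mul_left ht _) (dvd_mul_right _ _)
      obtain ⟨g, hg⟩ := h1
      exact ⟨g * s, by rw [hfs, hg]; ring⟩
  obtain ⟨s, hs⟩ := hsq
  have h1 : Even (c₁ ^ 2 - s * s) := ⟨2 * c₂, by linarith⟩
  have h2 : Even (c₁ - s) := by
    rw [Int.even_sub] at h1 ⊢
    rw [Int.even_pow' two_ne_zero, Int.even_mul] at h1
    tauto
  obtain ⟨m, hm⟩ := h2
  refine ⟨c₁ - m, m, by ring, ?_⟩
  have h3 : s = c₁ - 2 * m := by linarith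
  rw [h3] at hs
  have h4 : 4 * c₂ = 4 * ((c₁ - m) * m) := by linear_combination -hs
  linarith

/-- an integer has few prime factors -/
lemma card_PD (n : ℕ) (D : ℤ) (hD : D ≠ 0) : ((PD n D).card : ℝ) * Real.log 2 ≤ Real.log |(D : ℝ)| := by
  have hPD : ∀ p ∈ PD n D, p < n ∧ p.Prime ∧ (p : ℤ) ∣ D := by
    intro p hp
    unfold PD at hp
    rw [mem_filter, mem_range] at hp
    exact hp
  have hdvd : (∏ p ∈ PD n D, p) ∣ D.natAbs := by
    apply Finset.prod_primes_dvd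
    · intro p hp
      exact (hPD p hp).2.1.prime
    · intro p hp
      exact Int.natCast_dvd.mp (hPD p hp).2.2
  have h3 : 2 ^ (PD n D).card ≤ D.natAbs := by
    calc 2 ^ (PD n D).card = ∏ _p ∈ PD n D, 2 := by rw [prod_const]
      _ ≤ ∏ p ∈ PD n D, p := prod_le_prod' fun p hp => (hPD p hp).2.1.two_le
      _ ≤ D.natAbs := Nat.le_of_dvd (Int.natAbs_pos.mpr hD) hdvd
  have h4 : ((2 : ℝ) ^ (PD n D).card) ≤ |(D : ℝ)| := by
    have h5 : ((2 ^ (PD n D).card : ℕ) : ℝ) ≤ (D.natAbs : ℝ) := by exact_mod_cast h3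
    push_cast at h5
    rwa [Nat.cast_natAbs, Int.cast_abs] at h5
  have h5 := Real.log_le_log (by positivity) h4
  rwa [Real.log_pow] at h5

/-- the same for discriminants of size at most `exp (n ^ c)` -/
theorem rank_two4 (ε : ℝ) (hε : 0 < ε) : ∃ c : ℝ, 0 < c ∧ c ≤ 1 ∧ ∀ᶠ n : ℕ in atTop, ∀ c₁ c₂ f s : ℤ,
    RiemannRoch n (poly2 c₁ c₂) → c₁ ^ 2 - 4 * c₂ = f * s ^ 2 →
    (|c₁ ^ 2 - 4 * c₂| : ℤ) ≤ Real.exp ((n : ℝ) ^ c) →
    (|f| : ℤ) ≤ (n : ℝ) ^ (4 * Real.exp (1 / 2) - ε) →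
    ∃ a b : ℤ, c₁ = a + b ∧ c₂ = a * b := by
  obtain ⟨c, hc0, hc1, h⟩ := rank_two5 ε hε
  refine ⟨c / 2, by positivity, by linarith, ?_⟩
  have tc : Tendsto (fun q : ℕ => (q : ℝ)) atTop atTop := tendsto_natCast_atTop_atTop
  have f2 : ∀ᶠ x : ℝ in atTop, 2 ≤ x ^ (c / 2) :=
    (tendsto_rpow_atTop (by positivity : (0 : ℝ) < c / 2)).eventually_ge_atTop _
  filter_upwards [h, tc.eventually f2, eventually_ge_atTop 2] with n hn h2 hn2 c₁ c₂ f s hRR hfs hA hf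
  have hn0 : (0 : ℝ) < n := by positivity
  by_cases hD0 : c₁ ^ 2 - 4 * c₂ = 0
  · have h1 : Even (c₁ ^ 2) := ⟨2 * c₂, by linarith⟩
    rw [Int.even_pow' two_ne_zero] at h1
    obtain ⟨m, hm⟩ := h1
    refine ⟨m, m, hm, ?_⟩
    rw [hm] at hD0
    linarith
  · refine hn c₁ c₂ f s hRR hfs ?_ hf
    have e1 := card_PD n _ hD0
    have e2 : 0 < |((c₁ ^ 2 - 4 * c₂ : ℤ) : ℝ)| := by
      have : ((c₁ ^ 2 - 4 * c₂ : ℤ) : ℝ) ≠ 0 := by exact_mod_cast hD0
      positivity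
    have e3 : Real.log |((c₁ ^ 2 - 4 * c₂ : ℤ) : ℝ)| ≤ (n : ℝ) ^ (c / 2) := by
      have hA' : |((c₁ ^ 2 - 4 * c₂ : ℤ) : ℝ)| ≤ Real.exp ((n : ℝ) ^ (c / 2)) := by
        rw [← Int.cast_abs]
        exact hA
      have := Real.log_le_log e2 hA'
      rwa [Real.log_exp] at this
    have e4 : (1 / 2 : ℝ) ≤ Real.log 2 := by linarith [Real.log_two_gt_d9]
    have e5 : (0 : ℝ) ≤ ((PD n (c₁ ^ 2 - 4 * c₂)).card : ℝ) := Nat.cast_nonneg _
    have e6 : (n : ℝ) ^ c = (n : ℝ) ^ (c / 2) * (n : ℝ) ^ (c / 2) := by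
      rw [← Real.rpow_add hn0]
      congr 1
      ring
    rw [e6]
    nlinarith

end Pool.Agent.Run7.h740.BC
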