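import Pool.Agent.R852.BC.Gs
import Pool.Agent.H471R4.BW.SNG
import Pool.Agent.Helper923.HMertens

set_option autoImplicit false
set_option maxHeartbeats 4000000

/-! A character with the values at all small exceptional primes replaced by one: bounds with an exponent near one. -/

namespace Pool.Agent.Run7.h740.BC

open Finset Filter Pool.Agent.H471R4.BW Pool.Agent.R852.BC

variable {N : ℕ} (χ : DirichletCharacter ℂ N)

/-- the loss at a prime, for the exponent `σ` -/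
noncomputable def rhos (σ : ℝ) (q : ℕ) : ℝ := ((q : ℝ) ^ σ + 1) / ((q : ℝ) ^ σ - 1)

lemma pow_gt {σ : ℝ} (hσ : 1 / 2 ≤ σ) {q : ℕ} (hq : q.Prime) : 7 / 5 < (q : ℝ) ^ σ := by
  have h1 := sqrt_gt hq
  rw [Real.sqrt_eq_rpow] at h1
  exact h1.trans_le (Real.rpow_le_rpow_of_exponent_le (by exact_mod_cast hq.one_lt.le) hσ)

lemma rhos_one_le {σ : ℝ} (hσ : 1 / 2 ≤ σ) {q : ℕ} (hq : q.Prime) : 1 ≤ rhos σ q := by
  have := pow_gt hσ hq
  unfold rhos
  rw [le_div_iff₀ (by linarith)]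
  linarith

lemma rhos_le_exp {σ : ℝ} (hσ : 1 / 2 ≤ σ) {q : ℕ} (hq : q.Prime) : rhos σ q ≤ Real.exp (7 / (q : ℝ) ^ σ) := by
  have h := pow_gt hσ hq
  unfold rhos
  set s := (q : ℝ) ^ σ with hs
  have h0 : 0 < s := by linarith
  have h1 : (s + 1) / (s - 1) = 1 + 2 / (s - 1) := by
    have : s - 1 ≠ 0 := by linarith
    field_simp
    ring
  have h2 : 2 / (s - 1) ≤ 7 / s := by
    rw [div_le_div_iff₀ (by linarith) h0]
    nlinarith
  rw [h1]
  calc 1 + 2 / (s - 1) ≤ 7 / s + 1 := by linarith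
    _ ≤ Real.exp (7 / s) := Real.add_one_le_exp _

lemma bound_step2 {σ : ℝ} (hσ : 1 / 2 ≤ σ) (hσ1 : σ ≤ 1) (S : Finset ℕ) {q : ℕ} (hq : q.Prime) (X : ℕ) (a b : ℝ)
    (ha : 0 ≤ a) (hb : 0 ≤ b) (h : ∀ Y ≤ X, ‖G χ S Y‖ ≤ a * Y + b * (Y : ℝ) ^ σ) :
    ∀ Y ≤ X, ‖G χ (insert q S) Y‖ ≤ rhos σ q * (a * Y + b * (Y : ℝ) ^ σ) := by
  intro Y
  induction Y using Nat.strong_induction_on with
  | _ Y ih =>
    intro hYX
    rcases Nat.eq_zero_or_pos Y with h0 | h0
    · subst h0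
      have hσ0 : σ ≠ 0 := by linarith
      simp [G, Real.zero_rpow hσ0]
    · have hlt : Y / q < Y := Nat.div_lt_self h0 hq.one_lt
      have h1 := ih (Y / q) hlt (hlt.le.trans hYX)
      have h2 := h Y hYX
      have h3 := h (Y / q) (hlt.le.trans hYX)
      have h4 := G_step χ S hq Y
      have hs1 := pow_gt hσ hq
      have hρ : 1 ≤ rhos σ q := rhos_one_le hσ hq
      have hq0 : (0 : ℝ) < q := by exact_mod_cast hq.pos
      have hqs : (q : ℝ) ^ σ ≤ q := by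
        calc (q : ℝ) ^ σ ≤ (q : ℝ) ^ (1 : ℝ) :=
              Real.rpow_le_rpow_of_exponent_le (by exact_mod_cast hq.one_lt.le) hσ1
          _ = q := Real.rpow_one _
      have hY0 : (0 : ℝ) ≤ Y := Nat.cast_nonneg Y
      have h5 : (((Y / q : ℕ) : ℕ) : ℝ) ≤ Y / q := Nat.cast_div_le
      have h6 : (((Y / q : ℕ) : ℕ) : ℝ) ^ σ ≤ (Y : ℝ) ^ σ / (q : ℝ) ^ σ := by
        rw [← Real.div_rpow hY0 hq0.le]
        exact Real.rpow_le_rpow (Nat.cast_nonneg _) h5 (by linarith)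
      obtain ⟨s, hs⟩ : ∃ s, s = (q : ℝ) ^ σ := ⟨_, rfl⟩
      have hr : rhos σ q = (s + 1) / (s - 1) := by rw [hs]; rfl
      rw [← hs] at hs1 hqs h6
      have hs0 : 0 < s := by linarith
      have h7 : (Y : ℝ) / q ≤ Y / s := div_le_div_of_nonneg_left hY0 hs0 hqs
      have hid : rhos σ q / s + 1 + 1 / s = rhos σ q := by
        rw [hr]
        have : s - 1 ≠ 0 := by linarith
        field_simp
        ring
      have h8 : a * (((Y / q : ℕ) : ℕ) : ℝ) + b * (((Y / q : ℕ) : ℕ) : ℝ) ^ σ ≤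
          (a * Y + b * (Y : ℝ) ^ σ) / s := by
        have e1 : a * (((Y / q : ℕ) : ℕ) : ℝ) ≤ a * (Y / s) :=
          mul_le_mul_of_nonneg_left (h5.trans h7) ha
        have e2 : b * (((Y / q : ℕ) : ℕ) : ℝ) ^ σ ≤ b * ((Y : ℝ) ^ σ / s) :=
          mul_le_mul_of_nonneg_left h6 hb
        calc _ ≤ a * (Y / s) + b * ((Y : ℝ) ^ σ / s) := add_le_add e1 e2
          _ = _ := by ring
      calc ‖G χ (insert q S) Y‖ ≤ _ := h4
        _ ≤ rhos σ q * ((a * Y + b * (Y : ℝ) ^ σ) / s) + (a * Y + b * (Y : ℝ) ^ σ) +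
            (a * Y + b * (Y : ℝ) ^ σ) / s :=
            add_le_add (add_le_add (h1.trans (mul_le_mul_of_nonneg_left h8 (by linarith))) h2)
              (h3.trans h8)
        _ = (rhos σ q / s + 1 + 1 / s) * (a * Y + b * (Y : ℝ) ^ σ) := by ring
        _ = _ := by rw [hid]

theorem G_bound2 {σ : ℝ} (hσ : 1 / 2 ≤ σ) (hσ1 : σ ≤ 1) (S : Finset ℕ) (hS : ∀ q ∈ S, q.Prime) (X : ℕ) (a b : ℝ)
    (ha : 0 ≤ a) (hb : 0 ≤ b) (h : ∀ Y ≤ X, ‖shortSum N χ Y‖ ≤ a * Y + b * (Y : ℝ) ^ σ) :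
    ∀ Y ≤ X, ‖G χ S Y‖ ≤ (∏ q ∈ S, rhos σ q) * (a * Y + b * (Y : ℝ) ^ σ) := by
  induction S using Finset.induction_on with
  | empty =>
    intro Y hY
    rw [G_empty, prod_empty, one_mul]
    exact h Y hY
  | insert q S hqS ih =>
    have hq : q.Prime := hS q (mem_insert_self q S)
    have h1 := ih (fun l hl => hS l (mem_insert_of_mem hl))
    set P := ∏ q ∈ S, rhos σ q with hP
    have hP0 : 0 ≤ P := prod_nonneg fun l hl => by
      have := rhos_one_le hσ (hS l (mem_insert_of_mem hl))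
      linarith
    have h2 := bound_step2 χ hσ hσ1 S hq X (P * a) (P * b) (by positivity) (by positivity) (fun Y hY => by
      have := h1 Y hY
      linarith)
    intro Y hY
    rw [prod_insert hqS]
    have := h2 Y hY
    linarith

/-- the product of the losses over primes `≤ z`, for the exponent `1 - 1 / log z` -/
theorem prod_rhos_le : ∃ C : ℝ, 0 < C ∧ ∀ (z : ℕ), 8 ≤ z → ∀ S : Finset ℕ, (∀ q ∈ S, q.Prime ∧ q ≤ z) →
    ∏ q ∈ S, rhos (1 - 1 / Real.log z) q ≤ C * Real.log z ^ 20 := by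
  obtain ⟨C, hC0, hC⟩ := Pool.Agent.Helper923.HMertens.mertens_ratio
  have hl2 : (0 : ℝ) < Real.log 2 := Real.log_pos (by norm_num)
  obtain ⟨C3, hC3⟩ : ∃ C3 : ℝ, C3 = 1 / 2 + Real.log (1 / Real.log 2) + C / Real.log 2 := ⟨_, rfl⟩
  refine ⟨Real.exp (20 * |C3|), Real.exp_pos _, fun z hz S hS => ?_⟩
  have hzr : (8 : ℝ) ≤ z := by exact_mod_cast hz
  have hz0 : (0 : ℝ) < z := by linarith
  have hL2 : 2 ≤ Real.log z := by
    rw [Real.le_log_iff_exp_le hz0]
    have h1 := Real.exp_one_lt_d9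
    have h2 : Real.exp 2 = Real.exp 1 * Real.exp 1 := by rw [← Real.exp_add]; norm_num
    have h3 := Real.exp_pos 1
    nlinarith
  obtain ⟨L, hL⟩ : ∃ L, L = Real.log (z : ℝ) := ⟨_, rfl⟩
  rw [← hL] at hL2 ⊢
  have hL0 : 0 < L := by linarith
  have hσ : (1 : ℝ) / 2 ≤ 1 - 1 / L := by
    have : 1 / L ≤ 1 / 2 := one_div_le_one_div_of_le (by norm_num) hL2
    linarith
  have hsub : S ⊆ insert 2 ((Ioc 2 z).filter Nat.Prime) := by
    intro q hq
    obtain ⟨h1, h2⟩ := hS q hq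
    rw [mem_insert, mem_filter, mem_Ioc]
    by_cases h3 : q = 2
    · left; exact h3
    · right
      exact ⟨⟨by have := h1.two_le; omega, h2⟩, h1⟩
  have hsum : ∑ q ∈ S, (1 : ℝ) / q ≤ Real.log L + C3 := by
    have h1 : ∑ q ∈ S, (1 : ℝ) / q ≤ ∑ q ∈ insert 2 ((Ioc 2 z).filter Nat.Prime), (1 : ℝ) / q :=
      sum_le_sum_of_subset_of_nonneg hsub (fun _ _ _ => by positivity)
    rw [sum_insert (by simp)] at h1
    have h2 := (abs_le.mp (hC 2 z le_rfl (by omega))).2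
    rw [← hL] at h2
    have h3 : Real.log (L / Real.log (2 : ℕ)) = Real.log L + Real.log (1 / Real.log 2) := by
      rw [← Real.log_mul hL0.ne' (by positivity)]
      congr 1
      push_cast
      ring
    rw [h3] at h2
    push_cast at h1 h2
    rw [hC3]
    linarith
  have hpt : ∀ q ∈ S, rhos (1 - 1 / L) q ≤ Real.exp (20 * (1 / (q : ℝ))) := by
    intro q hq
    obtain ⟨h1, h2⟩ := hS q hq
    refine (rhos_le_exp hσ h1).trans (Real.exp_le_exp.mpr ?_)
    have hq0 : (0 : ℝ) < q := by exact_mod_cast h1.pos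
    have e1 : (q : ℝ) ^ (1 - 1 / L) = q / (q : ℝ) ^ (1 / L) := by
      rw [Real.rpow_sub hq0, Real.rpow_one]
    have e2 : (q : ℝ) ^ (1 / L) ≤ Real.exp 1 := by
      rw [Real.rpow_def_of_pos hq0]
      apply Real.exp_le_exp.mpr
      have e3 : Real.log q ≤ L := by
        rw [hL]
        exact Real.log_le_log hq0 (by exact_mod_cast h2)
      rw [mul_one_div, div_le_one hL0]
      exact e3
    rw [e1]
    have e4 : 0 < (q : ℝ) ^ (1 / L) := Real.rpow_pos_of_pos hq0 _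
    have e5 : (7 : ℝ) / (q / (q : ℝ) ^ (1 / L)) = 7 * (q : ℝ) ^ (1 / L) * (1 / q) := by
      field_simp
    rw [e5]
    apply mul_le_mul_of_nonneg_right _ (by positivity)
    have := Real.exp_one_lt_d9
    linarith
  calc ∏ q ∈ S, rhos (1 - 1 / L) q ≤ ∏ q ∈ S, Real.exp (20 * (1 / (q : ℝ))) :=
        Finset.prod_le_prod (fun q hq => by have := rhos_one_le hσ (hS q hq).1; linarith) hpt
    _ = Real.exp (20 * ∑ q ∈ S, 1 / (q : ℝ)) := by rw [← Real.exp_sum, mul_sum]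
    _ ≤ Real.exp (20 * |C3| + Real.log L * 20) := by
        apply Real.exp_le_exp.mpr
        have := le_abs_self C3
        linarith
    _ = Real.exp (20 * |C3|) * L ^ 20 := by
        rw [Real.exp_add]
        congr 1
        rw [mul_comm, ← Real.log_rpow hL0, Real.exp_log (by positivity)]
        exact_mod_cast Real.rpow_natCast L 20

/-- the exceptional primes between `z` and `y` divide `E` -/
lemma bad_split {N : ℕ} (χ : DirichletCharacter ℂ N) (k z y X : ℕ) (E : ℤ) (hE0 : E ≠ 0) (hk : k ≤ z) (hz : 8 ≤ z)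
    (h : ∀ l : ℕ, l.Prime → k < l → l ≤ y → l ≠ 2 → ¬ (l : ℤ) ∣ E → χ (l : ZMod N) = 1) :
    badSum N χ z X ≤ Real.log |(E : ℝ)| / z + ∑ p ∈ (Ioc y X).filter Nat.Prime, (1 : ℝ) / p := by
  classical
  have hzr : (8 : ℝ) ≤ z := by exact_mod_cast hz
  have hz0 : (0 : ℝ) < z := by linarith
  set T : Finset ℕ := (Ioc z y).filter (fun l : ℕ => l.Prime ∧ χ (l : ZMod N) ≠ 1) with hT
  have h1 : badSum N χ z X ≤ ∑ l ∈ T ∪ (Ioc y X).filter Nat.Prime, (1 : ℝ) / l := by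
    unfold badSum
    refine sum_le_sum_of_subset_of_nonneg ?_ (fun _ _ _ => by positivity)
    intro l hl
    rw [mem_filter, mem_Ioc] at hl
    rw [mem_union, hT, mem_filter, mem_filter, mem_Ioc, mem_Ioc]
    by_cases h1 : l ≤ y
    · left; exact ⟨⟨hl.1.1, h1⟩, hl.2⟩
    · right; exact ⟨⟨by omega, hl.1.2⟩, hl.2.1⟩
  have h2 : ∑ l ∈ T ∪ (Ioc y X).filter Nat.Prime, (1 : ℝ) / l ≤
      ∑ l ∈ T, (1 : ℝ) / l + ∑ p ∈ (Ioc y X).filter Nat.Prime, (1 : ℝ) / p := by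
    rw [← sum_union_inter]
    have : 0 ≤ ∑ l ∈ T ∩ (Ioc y X).filter Nat.Prime, (1 : ℝ) / l := sum_nonneg fun _ _ => by positivity
    linarith
  have hdvd : (∏ l ∈ T, l) ∣ E.natAbs := by
    apply Finset.prod_primes_dvd
    · intro l hl
      exact (mem_filter.mp hl).2.1.prime
    · intro l hl
      rw [hT, mem_filter, mem_Ioc] at hl
      obtain ⟨⟨h3, h4⟩, h5, h6⟩ := hl
      by_contra hcon
      exact h6 (h l h5 (by omega) h4 (by omega) (fun hd => hcon (Int.natCast_dvd.mp hd)))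
  have hcard : (T.card : ℝ) ≤ Real.log |(E : ℝ)| := by
    have h3 : 3 ^ T.card ≤ E.natAbs := by
      calc 3 ^ T.card = ∏ _l ∈ T, 3 := by rw [prod_const]
        _ ≤ ∏ l ∈ T, l := prod_le_prod' fun l hl => by
            rw [hT, mem_filter, mem_Ioc] at hl
            omega
        _ ≤ E.natAbs := Nat.le_of_dvd (Int.natAbs_pos.mpr hE0) hdvd
    have h4 : ((3 : ℝ) ^ T.card) ≤ |(E : ℝ)| := by
      have h5 : ((3 ^ T.card : ℕ) : ℝ) ≤ (E.natAbs : ℝ) := by exact_mod_cast h3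
      push_cast at h5
      rwa [Nat.cast_natAbs, Int.cast_abs] at h5
    have h5 := Real.log_le_log (by positivity) h4
    rw [Real.log_pow] at h5
    have h6 : 1 ≤ Real.log 3 := by
      rw [Real.le_log_iff_exp_le (by norm_num)]
      have := Real.exp_one_lt_d9
      linarith
    have h7 : (0 : ℝ) ≤ T.card := Nat.cast_nonneg _
    nlinarith
  have h3 : ∑ l ∈ T, (1 : ℝ) / l ≤ Real.log |(E : ℝ)| / z := by
    calc ∑ l ∈ T, (1 : ℝ) / l ≤ ∑ _l ∈ T, (1 : ℝ) / z := by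
          refine sum_le_sum fun l hl => ?_
          rw [hT, mem_filter, mem_Ioc] at hl
          exact one_div_le_one_div_of_le hz0 (by exact_mod_cast hl.1.1.le)
      _ = T.card / z := by rw [sum_const, nsmul_eq_mul, mul_one_div]
      _ ≤ _ := div_le_div_of_nonneg_right hcard hz0.le
  linarith

end Pool.Agent.Run7.h740.BC
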