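import Pool.Agent.Run7.h740.BC.Gs2
import Pool.Agent.R852.BC.Main

set_option autoImplicit false
set_option maxHeartbeats 4000000

/-! An integer `D` with `|D| ≤ y ^ (4 √e - ε)` which is a square modulo all primes `≤ y` that do not divide a
further integer `B` of size at most `exp (y ^ (c / log log y))` is a square. -/

namespace Pool.Agent.Run7.h740.BC

open Finset Filter Pool.Agent.H471R4.BW Pool.Agent.R852.BC

/-- the bound for the modified sum -/
theorem G_est : ∃ C : ℝ, 0 < C ∧ ∀ (N : ℕ) (χ : DirichletCharacter ℂ N) (z X : ℕ) (dl T Q : ℝ), 8 ≤ z → 0 ≤ dl →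
    0 < T → 0 < Q → T * Q ≤ X →
    (∀ Y ≤ X, ‖shortSum N χ Y‖ ≤ dl * Y ∨ (‖shortSum N χ Y‖ ≤ T ∧ ‖shortSum N χ Y‖ ≤ Y)) →
      ‖G χ (exc χ z) X‖ ≤ C * Real.log z ^ 20 * (dl + Q ^ (-(1 / Real.log z))) * X := by
  obtain ⟨C, hC0, hC⟩ := prod_rhos_le
  refine ⟨C, hC0, fun N χ z X dl T Q hz hdl hT hQ hTQ hbase => ?_⟩
  have hzr : (8 : ℝ) ≤ z := by exact_mod_cast hz
  have hz0 : (0 : ℝ) < z := by linarith
  have hL2 : 2 ≤ Real.log z := by
    rw [Real.le_log_iff_exp_le hz0]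
    have h1 := Real.exp_one_lt_d9
    have h2 : Real.exp 2 = Real.exp 1 * Real.exp 1 := by rw [← Real.exp_add]; norm_num
    have h3 := Real.exp_pos 1
    nlinarith
  have hexc : ∀ q ∈ exc χ z, q.Prime ∧ q ≤ z := by
    intro q hq
    unfold exc at hq
    rw [mem_filter, mem_range] at hq
    exact ⟨hq.2.1, by omega⟩
  have hP := hC z hz (exc χ z) hexc
  obtain ⟨L, hL⟩ : ∃ L, L = Real.log (z : ℝ) := ⟨_, rfl⟩
  rw [← hL] at hL2 hP ⊢
  have hL0 : 0 < L := by linarith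
  have hτ : 1 / L ≤ 1 / 2 := one_div_le_one_div_of_le (by norm_num) hL2
  have hτ0 : 0 < 1 / L := by positivity
  obtain ⟨σ, hσ⟩ : ∃ σ, σ = 1 - 1 / L := ⟨_, rfl⟩
  have hσh : (1 : ℝ) / 2 ≤ σ := by rw [hσ]; linarith
  have hσ1 : σ ≤ 1 := by rw [hσ]; linarith
  have hb0 : 0 ≤ T ^ (1 / L) := Real.rpow_nonneg hT.le _
  have hbase' : ∀ Y ≤ X, ‖shortSum N χ Y‖ ≤ dl * Y + T ^ (1 / L) * (Y : ℝ) ^ σ := by
    intro Y hY
    have hYσ : 0 ≤ (Y : ℝ) ^ σ := Real.rpow_nonneg (Nat.cast_nonneg _) _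
    rcases hbase Y hY with h | ⟨h1, h2⟩
    · have : 0 ≤ T ^ (1 / L) * (Y : ℝ) ^ σ := mul_nonneg hb0 hYσ
      linarith
    · have h3 : ‖shortSum N χ Y‖ ≤ T ^ (1 / L) * (Y : ℝ) ^ σ := by
        rcases eq_or_lt_of_le (norm_nonneg (shortSum N χ Y)) with h0 | h0
        · rw [← h0]
          exact mul_nonneg hb0 hYσ
        · calc ‖shortSum N χ Y‖ = ‖shortSum N χ Y‖ ^ (1 / L + σ) := by
                rw [hσ, show 1 / L + (1 - 1 / L) = 1 by ring, Real.rpow_one]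
            _ = ‖shortSum N χ Y‖ ^ (1 / L) * ‖shortSum N χ Y‖ ^ σ := Real.rpow_add h0 _ _
            _ ≤ T ^ (1 / L) * (Y : ℝ) ^ σ :=
                mul_le_mul (Real.rpow_le_rpow h0.le h1 hτ0.le) (Real.rpow_le_rpow h0.le h2 (by linarith))
                  (Real.rpow_nonneg h0.le _) hb0
      have : 0 ≤ dl * Y := mul_nonneg hdl (Nat.cast_nonneg _)
      linarith
  have hG := G_bound2 χ hσh hσ1 (exc χ z) (fun q hq => (hexc q hq).1) X dl (T ^ (1 / L)) hdl hb0 hbase' X le_rfl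
  have hXpos : (0 : ℝ) < X := lt_of_lt_of_le (mul_pos hT hQ) hTQ
  have h4 : T ^ (1 / L) * (X : ℝ) ^ σ ≤ Q ^ (-(1 / L)) * X := by
    have e1 : (X : ℝ) ^ σ = X / (X : ℝ) ^ (1 / L) := by
      rw [hσ, Real.rpow_sub hXpos, Real.rpow_one]
    have e2 : T ≤ X / Q := by rwa [le_div_iff₀ hQ]
    have e3 : T ^ (1 / L) ≤ (X : ℝ) ^ (1 / L) / Q ^ (1 / L) := by
      rw [← Real.div_rpow hXpos.le hQ.le]
      exact Real.rpow_le_rpow hT.le e2 hτ0.le
    have hXL : 0 < (X : ℝ) ^ (1 / L) := Real.rpow_pos_of_pos hXpos _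
    have hQL : 0 < Q ^ (1 / L) := Real.rpow_pos_of_pos hQ _
    rw [e1, Real.rpow_neg hQ.le]
    calc T ^ (1 / L) * (X / (X : ℝ) ^ (1 / L)) ≤ ((X : ℝ) ^ (1 / L) / Q ^ (1 / L)) * (X / (X : ℝ) ^ (1 / L)) :=
          mul_le_mul_of_nonneg_right e3 (by positivity)
      _ = (Q ^ (1 / L))⁻¹ * X := by field_simp
  rw [← hσ] at hP
  have hP0 : 0 ≤ ∏ q ∈ exc χ z, rhos σ q := prod_nonneg fun q hq => by
    have := rhos_one_le hσh (hexc q hq).1
    linarith
  have hQL0 : 0 ≤ Q ^ (-(1 / L)) := Real.rpow_nonneg hQ.le _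
  calc ‖G χ (exc χ z) X‖ ≤ _ := hG
    _ ≤ (∏ q ∈ exc χ z, rhos σ q) * (dl * X + Q ^ (-(1 / L)) * X) :=
        mul_le_mul_of_nonneg_left (by linarith) hP0
    _ ≤ (C * L ^ 20) * (dl * X + Q ^ (-(1 / L)) * X) :=
        mul_le_mul_of_nonneg_right hP (by positivity)
    _ = _ := by ring

/-- the contradiction -/
theorem fin_step : ∃ C : ℝ, 0 ≤ C ∧ ∀ (N : ℕ) (χ : DirichletCharacter ℂ N) (k z y X : ℕ) (E : ℤ) (κ g : ℝ),
    E ≠ 0 → k ≤ z → 8 ≤ z → 2 ≤ y → 1 ≤ X → 1 ≤ κ → Real.log X ≤ κ * Real.log y → 0 < g → g ≤ 1 / 2 - Real.log κ →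
    2 * (C / Real.log y) < g → Real.log |(E : ℝ)| / z ≤ g / 8 →
    (∀ l : ℕ, l.Prime → k < l → l ≤ y → l ≠ 2 → ¬ (l : ℤ) ∣ E → χ (l : ZMod N) = 1) →
    ‖G χ (exc χ z) X‖ ≤ g / 2 * X → False := by
  obtain ⟨C, hC0, hC⟩ := Pool.Agent.Helper923.HMertens.mertens_ratio
  refine ⟨C, hC0, fun N χ k z y X E κ g hE0 hk hz hy hX hκ hlog hg hgκ hCg hEz hgood hG => ?_⟩
  have hX0 : (0 : ℝ) < X := by exact_mod_cast hX
  have hly : 0 < Real.log y := Real.log_pos (by exact_mod_cast (by omega : 1 < y))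
  have h1 : (X : ℝ) * (1 - 2 * badSum N χ z X) ≤ X * (g / 2) := (vinG χ z X).trans (by linarith)
  have h2 := le_of_mul_le_mul_left h1 hX0
  have h3 := bad_split χ k z y X E hE0 hk hz hgood
  have hlκ : 0 ≤ Real.log κ := Real.log_nonneg hκ
  have hCl : 0 ≤ C / Real.log y := by positivity
  have h4 : ∑ p ∈ (Ioc y X).filter Nat.Prime, (1 : ℝ) / p ≤ Real.log κ + C / Real.log y := by
    rcases le_or_gt X y with hXy | hXy
    · rw [Finset.Ioc_eq_empty_of_le hXy, Finset.filter_empty, Finset.sum_empty]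
      linarith
    · have hm2 := (abs_le.mp (hC y X hy hXy.le)).2
      have hlX : 0 < Real.log X := Real.log_pos (by exact_mod_cast (by omega : 1 < X))
      have hr : Real.log X / Real.log y ≤ κ := by rwa [div_le_iff₀ hly]
      have := Real.log_le_log (div_pos hlX hly) hr
      linarith
  linarith

/-- `y ^ (c / log log y)` -/
noncomputable def thr (c : ℝ) (y : ℕ) : ℝ := (y : ℝ) ^ (c / Real.log (Real.log y))

lemma thr_eq (c : ℝ) {y : ℕ} (hy : 1 ≤ y) : thr c y = Real.exp (c * (Real.log y / Real.log (Real.log y))) := by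
  unfold thr
  rw [Real.rpow_def_of_pos (by exact_mod_cast hy)]
  congr 1
  ring

lemma ev_log_sq (K : ℝ) (hK : 0 < K) : ∀ᶠ x : ℝ in atTop, K * Real.log x ^ 2 ≤ x := by
  have h := (Real.isLittleO_pow_log_id_atTop (n := 2)).def (show (0 : ℝ) < 1 / K by positivity)
  filter_upwards [h, eventually_ge_atTop 1] with x hx hx1
  rw [Real.norm_eq_abs, Real.norm_eq_abs, abs_of_nonneg (by positivity), id, abs_of_nonneg (by linarith)] at hx
  calc K * Real.log x ^ 2 ≤ K * (1 / K * x) := mul_le_mul_of_nonneg_left hx hK.le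
    _ = x := by field_simp

/-- `y ^ (c / log log y)` is larger than every power of `log y` -/
lemma thr_ge (c : ℝ) (hc : 0 < c) (m : ℝ) : ∀ᶠ y : ℕ in atTop, Real.log y ^ m ≤ thr c y := by
  have tl : Tendsto (fun y : ℕ => Real.log (y : ℝ)) atTop atTop :=
    Real.tendsto_log_atTop.comp tendsto_natCast_atTop_atTop
  filter_upwards [tl.eventually (ev_log_sq ((|m| + 1) / c) (by positivity)), tl.eventually_ge_atTop 3,
    eventually_ge_atTop 1] with y h1 h2 h3
  rw [thr_eq c h3]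
  obtain ⟨L, hL⟩ : ∃ L, L = Real.log (y : ℝ) := ⟨_, rfl⟩
  rw [← hL] at h1 h2 ⊢
  have hL0 : 0 < L := by linarith
  have hl : 1 ≤ Real.log L := by
    rw [Real.le_log_iff_exp_le hL0]
    have := Real.exp_one_lt_d9
    linarith
  rw [Real.rpow_def_of_pos hL0]
  apply Real.exp_le_exp.mpr
  have h4 : (|m| + 1) * Real.log L ^ 2 ≤ c * L := by
    have := mul_le_mul_of_nonneg_left h1 hc.le
    calc (|m| + 1) * Real.log L ^ 2 = c * ((|m| + 1) / c * Real.log L ^ 2) := by field_simp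
      _ ≤ c * L := this
  rw [← mul_div_assoc, le_div_iff₀ (by linarith)]
  have h5 := le_abs_self m
  nlinarith [sq_nonneg (Real.log L)]

/-- **A small integer which is a square modulo all small primes is a square**: the primes dividing the integer, and those
dividing a further integer `B ≠ 0` of size at most `exp (y ^ (c / log log y))`, are allowed. -/
theorem main3 (k : ℕ) (ε : ℝ) (hε : 0 < ε) (hε1 : ε ≤ 1) : ∃ c : ℝ, 0 < c ∧ c ≤ 1 ∧ ∀ᶠ y : ℕ in atTop, ∀ D B : ℤ, B ≠ 0 →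
    (|B| : ℝ) ≤ Real.exp (thr c y) → (|D| : ℝ) ≤ (y : ℝ) ^ (4 * Real.exp (1 / 2) - ε) →
    (∀ p : ℕ, p.Prime → k < p → p ≤ y → ¬ (p : ℤ) ∣ B → ∃ t : ℤ, (p : ℤ) ∣ D - t ^ 2) →
      IsSquare D := by
  obtain ⟨he1, he2⟩ := exp_half_bounds
  set r := Real.exp (1 / 2) with hr
  -- parameters
  set η : ℝ := ε / 64 with hη
  have hη0 : 0 < η := by positivity
  obtain ⟨δ, hδ0, hbur⟩ := bur8 η hη0
  obtain ⟨M0, hM0⟩ := eventually_atTop.mp hbur
  obtain ⟨C₁, hC₁0, hGest⟩ := G_est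
  obtain ⟨C, hC0, hfin⟩ := fin_step
  set κ : ℝ := r - ε / 16 with hκ
  have hκ1 : 1 ≤ κ := by rw [hκ]; linarith
  have hκ2 : Real.log κ < 1 / 2 := by
    rw [Real.log_lt_iff_lt_exp (by linarith)]
    rw [hκ, ← hr]
    linarith
  have hκ3 : Real.log (3 / 2) < 1 / 2 := by
    rw [Real.log_lt_iff_lt_exp (by norm_num)]
    rw [← hr]; linarith
  obtain ⟨g, hgdef⟩ : ∃ g, g = min (1 / 2 - Real.log κ) (1 / 2 - Real.log (3 / 2)) := ⟨_, rfl⟩
  have hg0 : 0 < g := by rw [hgdef]; exact lt_min (by linarith) (by linarith)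
  have hg1 : g ≤ 1 / 2 - Real.log κ := by rw [hgdef]; exact min_le_left _ _
  have hg2 : g ≤ 1 / 2 - Real.log (3 / 2) := by rw [hgdef]; exact min_le_right _ _
  set c : ℝ := η / 100 with hc
  have hc0 : 0 < c := by positivity
  refine ⟨c, hc0, by rw [hc, hη]; linarith, ?_⟩
  -- eventual inequalities
  have tc : Tendsto (fun q : ℕ => (q : ℝ)) atTop atTop := tendsto_natCast_atTop_atTop
  have tl : Tendsto (fun y : ℕ => Real.log (y : ℝ)) atTop atTop := Real.tendsto_log_atTop.comp tc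
  have f1 : ∀ᶠ x : ℝ in atTop, 4 * (1 + 2 * Real.log x) ≤ x ^ (1 / 16 : ℝ) := by
    have h1 := (isLittleO_log_rpow_atTop (show (0 : ℝ) < 1 / 16 by norm_num)).def
      (show (0 : ℝ) < 1 / 16 by norm_num)
    have h2 : ∀ᶠ x : ℝ in atTop, 8 ≤ x ^ (1 / 16 : ℝ) :=
      (tendsto_rpow_atTop (by norm_num : (0 : ℝ) < 1 / 16)).eventually_ge_atTop _
    filter_upwards [h1, h2, eventually_ge_atTop 1] with x hx hx2 hx1
    have h3 : 0 ≤ Real.log x := Real.log_nonneg hx1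
    rw [Real.norm_eq_abs, Real.norm_eq_abs, abs_of_nonneg h3, abs_of_nonneg (by positivity)] at hx
    linarith
  have f5 : ∀ᶠ x : ℝ in atTop, 16 ≤ x ^ (ε / 16) :=
    (tendsto_rpow_atTop (by positivity : (0 : ℝ) < ε / 16)).eventually_ge_atTop _
  have f6 : ∀ᶠ x : ℝ in atTop, 2 ≤ x ^ (1 / 4 : ℝ) :=
    (tendsto_rpow_atTop (by norm_num : (0 : ℝ) < 1 / 4)).eventually_ge_atTop _
  have f7 : ∀ᶠ L : ℝ in atTop, C₁ * L ^ 20 * Real.exp (-(2 * δ) * L) ≤ g / 4 := by
    have h1 := (isLittleO_pow_exp_pos_mul_atTop 20 (show (0 : ℝ) < 2 * δ by positivity)).def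
      (show (0 : ℝ) < g / (4 * C₁) by positivity)
    filter_upwards [h1, eventually_ge_atTop 1] with L h2 h3
    rw [Real.norm_eq_abs, Real.norm_eq_abs, abs_of_nonneg (by positivity), abs_of_nonneg (Real.exp_pos _).le] at h2
    have h4 : Real.exp (-(2 * δ) * L) = (Real.exp (2 * δ * L))⁻¹ := by
      rw [← Real.exp_neg]
      congr 1
      ring
    have h5 := Real.exp_pos (2 * δ * L)
    rw [h4, ← div_eq_mul_inv, div_le_iff₀ h5]
    calc C₁ * L ^ 20 ≤ C₁ * (g / (4 * C₁) * Real.exp (2 * δ * L)) := mul_le_mul_of_nonneg_left h2 hC₁0.le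
      _ = g / 4 * Real.exp (2 * δ * L) := by field_simp
  filter_upwards [tc.eventually f1, tc.eventually f5, tc.eventually f6, tl.eventually f7,
    tl.eventually_ge_atTop (4 * C₁ / g + 2 * C / g + 16 / g + 8 + k + 1),
    tl.eventually (ev_log_sq (1 / c) (by positivity)), thr_ge c hc0 2, eventually_ge_atTop (M0 + 16)]
    with y g1 g5 g6 g7 g8 g9 g10 hy D B hB0 hB hD hsqD
  by_contra hDsq
  have hD0 : D ≠ 0 := by
    rintro rfl
    exact hDsq ⟨0, by norm_num⟩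
  have hy16 : 16 ≤ y := by omega
  have hyr : (16 : ℝ) ≤ y := by exact_mod_cast hy16
  have hy0 : (0 : ℝ) < y := by linarith
  have hy1 : (1 : ℝ) ≤ y := by linarith
  obtain ⟨L, hL⟩ : ∃ L, L = Real.log (y : ℝ) := ⟨_, rfl⟩
  have u1 : 0 < 4 * C₁ / g := by positivity
  have u2 : 0 ≤ 2 * C / g := by positivity
  have u3 : 0 < 16 / g := by positivity
  have u4 : (0 : ℝ) ≤ k := Nat.cast_nonneg k
  rw [← hL] at g7 g8 g9
  have hL9 : 9 ≤ L := by linarith
  have hL0 : 0 < L := by linarith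
  have hlL : 2 ≤ Real.log L := by
    rw [Real.le_log_iff_exp_le hL0]
    have h1 := Real.exp_one_lt_d9
    have h2 : Real.exp 2 = Real.exp 1 * Real.exp 1 := by rw [← Real.exp_add]; norm_num
    have h3 := Real.exp_pos 1
    nlinarith
  have hlL0 : 0 < Real.log L := by linarith
  -- the size of z
  obtain ⟨W, hW⟩ : ∃ W, W = thr c y := ⟨_, rfl⟩
  have hWe : W = Real.exp (c * (L / Real.log L)) := by rw [hW, hL]; exact thr_eq c (by omega)
  rw [← hW] at hB
  have hW2 : L ^ 2 ≤ W := by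
    rw [hW, hL]
    exact_mod_cast g10
  have hWL : 9 * L ≤ W := by nlinarith
  have hW1 : 1 ≤ W := by nlinarith
  obtain ⟨z, hz⟩ : ∃ z : ℕ, z = ⌈W ^ 2⌉₊ := ⟨_, rfl⟩
  have hzl : W ^ 2 ≤ z := by rw [hz]; exact Nat.le_ceil _
  have hzu : (z : ℝ) ≤ W ^ 2 + 1 := by rw [hz]; exact (Nat.ceil_lt_add_one (by positivity)).le
  have hWz : W ≤ z := (le_self_pow₀ hW1 two_ne_zero).trans hzl
  have hz8 : 8 ≤ z := by
    have : (8 : ℝ) ≤ z := by linarith
    exact_mod_cast this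
  have hzk : k ≤ z := by
    have : (k : ℝ) ≤ z := by linarith
    exact_mod_cast this
  have hz0 : (0 : ℝ) < z := by linarith
  -- the logarithm of z
  have hlz : Real.log z ≤ 4 * c * (L / Real.log L) := by
    have h1 : (z : ℝ) ≤ W ^ 4 := by
      have h2 : W ^ 4 = W ^ 2 * W ^ 2 := by ring
      have h3 : 81 ≤ W := by linarith
      have h4 : 2 ≤ W ^ 2 := by nlinarith
      nlinarith
    have h2 := Real.log_le_log hz0 h1
    rw [Real.log_pow, hWe, Real.log_exp] at h2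
    push_cast at h2
    linarith
  have hlz2 : 2 ≤ Real.log z := by
    rw [Real.le_log_iff_exp_le hz0]
    have h1 := Real.exp_one_lt_d9
    have h2 : Real.exp 2 = Real.exp 1 * Real.exp 1 := by rw [← Real.exp_add]; norm_num
    have h3 := Real.exp_pos 1
    have h4 : (8 : ℝ) ≤ z := by exact_mod_cast hz8
    nlinarith
  have hlzL : Real.log z ≤ L := by
    have h1 : L / Real.log L ≤ L / 1 := div_le_div_of_nonneg_left hL0.le one_pos (by linarith)
    have h2 : 4 * c ≤ 1 := by rw [hc, hη]; linarith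
    have h3 : 0 ≤ L / Real.log L := by positivity
    calc Real.log z ≤ 4 * c * (L / Real.log L) := hlz
      _ ≤ 1 * (L / 1) := by nlinarith
      _ = L := by ring
  -- the main estimates
  have hmain1 : C₁ * Real.log z ^ 20 * ((y : ℝ) ^ η) ^ (-(1 / Real.log z)) ≤ g / 4 := by
    have h1 : ((y : ℝ) ^ η) ^ (-(1 / Real.log z)) ≤ L ^ (-(25 : ℝ)) := by
      rw [← Real.rpow_mul hy0.le, Real.rpow_def_of_pos hy0, Real.rpow_def_of_pos hL0, ← hL]
      apply Real.exp_le_exp.mpr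
      have h2 : 25 * Real.log L ≤ η * L / Real.log z := by
        rw [le_div_iff₀ (by linarith)]
        calc 25 * Real.log L * Real.log z ≤ 25 * Real.log L * (4 * c * (L / Real.log L)) :=
              mul_le_mul_of_nonneg_left hlz (by positivity)
          _ = η * L := by
              rw [hc]
              field_simp
              ring
      have h3 : L * (η * -(1 / Real.log z)) = -(η * L / Real.log z) := by ring
      rw [h3]
      linarith
    have h2 : Real.log z ^ 20 ≤ L ^ 20 := pow_le_pow_left₀ (by linarith) hlzL 20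
    have h3 : L ^ (-(25 : ℝ)) = (L ^ 25)⁻¹ := by
      rw [Real.rpow_neg hL0.le]
      congr 1
      exact_mod_cast Real.rpow_natCast L 25
    have h4 : 0 ≤ ((y : ℝ) ^ η) ^ (-(1 / Real.log z)) := by positivity
    calc C₁ * Real.log z ^ 20 * ((y : ℝ) ^ η) ^ (-(1 / Real.log z)) ≤ C₁ * L ^ 20 * (L ^ 25)⁻¹ := by
          rw [← h3]
          exact mul_le_mul (mul_le_mul_of_nonneg_left h2 hC₁0.le) h1 h4 (by positivity)
      _ = C₁ / L ^ 5 := by
          have : L ≠ 0 := hL0.ne'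
          field_simp
      _ ≤ g / 4 := by
          rw [div_le_div_iff₀ (by positivity) (by norm_num)]
          have h5 : L ≤ L ^ 5 := le_self_pow₀ (by linarith) (by norm_num)
          have h6 : 4 * C₁ / g ≤ L := by linarith
          rw [div_le_iff₀ hg0] at h6
          nlinarith
  have hmain2 : C₁ * Real.log z ^ 20 * (y : ℝ) ^ (-(2 * δ)) ≤ g / 4 := by
    have h2 : Real.log z ^ 20 ≤ L ^ 20 := pow_le_pow_left₀ (by linarith) hlzL 20
    have h1 : (y : ℝ) ^ (-(2 * δ)) = Real.exp (-(2 * δ) * L) := by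
      rw [Real.rpow_def_of_pos hy0, ← hL]
      congr 1
      ring
    rw [h1]
    refine le_trans ?_ g7
    exact mul_le_mul_of_nonneg_right (mul_le_mul_of_nonneg_left h2 hC₁0.le) (Real.exp_pos _).le
  have hCL : 2 * (C / Real.log y) < g := by
    rw [← hL]
    have h1 : 2 * C / g < L := by linarith
    rw [div_lt_iff₀ hg0] at h1
    rw [← mul_div_assoc, div_lt_iff₀ hL0]
    linarith [mul_comm L g]
  obtain ⟨N, θ, hN0, hNodd, hNsq, hND, hN1, hchar⟩ := exists_char D hD0 hDsq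
  haveI : NeZero N := ⟨hN0⟩
  haveI : NeZero (8 * N) := ⟨by omega⟩
  set χ := chi 8 N (psi θ) with hχ
  have hχ1 : χ ≠ 1 := chi_ne_one N hNodd hNsq θ hN1
  -- the exceptional primes
  have hgood : ∀ l : ℕ, l.Prime → k < l → l ≤ y → l ≠ 2 → ¬ (l : ℤ) ∣ D * B →
      χ (l : ZMod (8 * N)) = 1 := by
    intro l hl hkl hly2 hl2 hlDB
    have hlD : ¬ (l : ℤ) ∣ D := fun h => hlDB (Dvd.dvd.mul_right h _)
    have hlB : ¬ (l : ℤ) ∣ B := fun h => hlDB (Dvd.dvd.mul_left h _)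
    have h1 := hchar l hl hl2 hlD (hsqD l hl hkl hly2 hlB)
    rw [hχ, chi_nat, psi_apply, jchar_apply]
    exact_mod_cast h1
  set E : ℝ := 4 * r - ε with hE
  have hE7 : E ≤ 7 := by rw [hE]; linarith
  have hDr : ((D.natAbs : ℕ) : ℝ) = |(D : ℝ)| := by
    rw [Nat.cast_natAbs]
    push_cast
    rfl
  have hDpos : 0 < |(D : ℝ)| := by positivity
  have hBpos : 0 < |(B : ℝ)| := by positivity
  have hEz : Real.log |((D * B : ℤ) : ℝ)| / z ≤ g / 8 := by
    have h1 : Real.log |((D * B : ℤ) : ℝ)| ≤ 7 * L + W := by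
      push_cast
      rw [abs_mul, Real.log_mul hDpos.ne' hBpos.ne']
      have e1 : Real.log |(D : ℝ)| ≤ E * L := by
        have := Real.log_le_log hDpos hD
        rwa [Real.log_rpow hy0, ← hL] at this
      have e2 : Real.log |(B : ℝ)| ≤ W := by
        have := Real.log_le_log hBpos hB
        rwa [Real.log_exp] at this
      have e3 : E * L ≤ 7 * L := mul_le_mul_of_nonneg_right hE7 hL0.le
      linarith
    rw [div_le_iff₀ hz0]
    have h2 : 16 / g ≤ W := by linarith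
    rw [div_le_iff₀ hg0] at h2
    have h3 : g / 8 * W ^ 2 ≤ g / 8 * z := mul_le_mul_of_nonneg_left hzl (by positivity)
    have h4 : 16 * W ≤ W * g * W := mul_le_mul_of_nonneg_right h2 (by linarith)
    have h5 : g / 8 * W ^ 2 = W * g * W / 8 := by ring
    linarith
  set M : ℝ := ((8 * N : ℕ) : ℝ) with hM
  have hM8 : 8 ≤ M := by
    rw [hM]
    exact_mod_cast (by omega : 8 ≤ 8 * N)
  have hMpos : 0 < M := by linarith
  have hM1 : 1 ≤ M := by linarith
  have hMD : M ≤ 8 * (y : ℝ) ^ E := by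
    have h1 : N ≤ D.natAbs := Nat.le_of_dvd (Int.natAbs_pos.mpr hD0) hND
    have h2 : (N : ℝ) ≤ |(D : ℝ)| := by
      rw [← hDr]
      exact_mod_cast h1
    rw [hM]
    push_cast
    linarith
  have hη64 : η ≤ 1 / 64 := by rw [hη]; linarith
  rcases le_or_gt M ((y : ℝ) ^ 2) with hcase | hcase
  · -- small modulus: Pólya–Vinogradov
    set T : ℝ := 4 * √M * (1 + Real.log M) with hT
    have hlM : 0 ≤ Real.log M := Real.log_nonneg hM1
    have hT0 : 0 < T := by positivity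
    have hPV : ∀ Y : ℕ, ‖shortSum (8 * N) χ Y‖ ≤ T := by
      intro Y
      exact Pool.Agent.H38R2.CG.PVh.sum_le (8 * N) χ (by omega) hχ1 Y
    set X : ℕ := ⌈(y : ℝ) ^ (5 / 4 : ℝ)⌉₊ with hX
    have hXl : (y : ℝ) ^ (5 / 4 : ℝ) ≤ X := Nat.le_ceil _
    have hy54 : (1 : ℝ) ≤ (y : ℝ) ^ (5 / 4 : ℝ) := Real.one_le_rpow hy1 (by norm_num)
    have hXu : (X : ℝ) ≤ (y : ℝ) ^ (3 / 2 : ℝ) := by
      have h1 : (X : ℝ) ≤ (y : ℝ) ^ (5 / 4 : ℝ) + 1 := (Nat.ceil_lt_add_one (by positivity)).le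
      have h2 : (y : ℝ) ^ (3 / 2 : ℝ) = (y : ℝ) ^ (1 / 4 : ℝ) * (y : ℝ) ^ (5 / 4 : ℝ) := by
        rw [← Real.rpow_add hy0]; norm_num
      rw [h2]
      calc (X : ℝ) ≤ 2 * (y : ℝ) ^ (5 / 4 : ℝ) := by linarith
        _ ≤ (y : ℝ) ^ (1 / 4 : ℝ) * (y : ℝ) ^ (5 / 4 : ℝ) :=
            mul_le_mul_of_nonneg_right g6 (by linarith)
    have hX1 : 1 ≤ X := by
      have : (1 : ℝ) ≤ X := hy54.trans hXl
      exact_mod_cast this
    have hXpos : (0 : ℝ) < X := by exact_mod_cast hX1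
    -- bound for T
    have hTy : T ≤ (y : ℝ) ^ (17 / 16 : ℝ) := by
      have h1 : √M ≤ y := by
        rw [Real.sqrt_le_left hy0.le]
        exact hcase
      have h2 : Real.log M ≤ 2 * Real.log y := by
        have := Real.log_le_log hMpos hcase
        rwa [Real.log_pow, Nat.cast_ofNat] at this
      calc T ≤ 4 * y * (1 + 2 * Real.log y) := by
            rw [hT]
            gcongr
        _ = y * (4 * (1 + 2 * Real.log y)) := by ring
        _ ≤ y * (y : ℝ) ^ (1 / 16 : ℝ) := by gcongr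
        _ = (y : ℝ) ^ (17 / 16 : ℝ) := by
            nth_rewrite 1 [← Real.rpow_one (y : ℝ)]
            rw [← Real.rpow_add hy0]; norm_num
    have hTX : T * (y : ℝ) ^ η ≤ X := by
      calc T * (y : ℝ) ^ η ≤ (y : ℝ) ^ (17 / 16 : ℝ) * (y : ℝ) ^ η :=
            mul_le_mul_of_nonneg_right hTy (by positivity)
        _ = (y : ℝ) ^ (17 / 16 + η) := by rw [← Real.rpow_add hy0]
        _ ≤ (y : ℝ) ^ (5 / 4 : ℝ) := Real.rpow_le_rpow_of_exponent_le hy1 (by linarith)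
        _ ≤ X := hXl
    have hG := hGest (8 * N) χ z X 0 T ((y : ℝ) ^ η) hz8 le_rfl hT0 (by positivity) hTX
      (fun Y _ => Or.inr ⟨hPV Y, shortSum_triv χ Y⟩)
    rw [zero_add] at hG
    have hG2 : ‖G χ (exc χ z) X‖ ≤ g / 2 * X := by
      refine hG.trans (mul_le_mul_of_nonneg_right ?_ hXpos.le)
      linarith
    have hlogX : Real.log X ≤ 3 / 2 * Real.log y := by
      have := Real.log_le_log hXpos hXu
      rwa [Real.log_rpow hy0] at this
    exact hfin (8 * N) χ k z y X (D * B) (3 / 2) g (mul_ne_zero hD0 hB0) hzk hz8 (by omega) hX1 (by norm_num) hlogX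
      hg0 hg2 hCL hEz hgood hG2
  · -- large modulus: Burgess
    have hyM : (y : ℝ) ≤ M ^ (1 / 2 : ℝ) := by
      have h1 : ((y : ℝ) ^ 2) ^ (1 / 2 : ℝ) ≤ M ^ (1 / 2 : ℝ) :=
        Real.rpow_le_rpow (by positivity) hcase.le (by norm_num)
      rwa [← Real.sqrt_eq_rpow, Real.sqrt_sq hy0.le] at h1
    have hMM0 : M0 ≤ 8 * N := by
      have h1 : (y : ℝ) ≤ M := by
        have h0 : (y : ℝ) ≤ (y : ℝ) ^ 2 := by
          rw [pow_two]
          exact le_mul_of_one_le_left hy0.le hy1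
        linarith
      have h2 : y ≤ 8 * N := by
        rw [hM] at h1
        exact_mod_cast h1
      omega
    have hburX := hM0 (8 * N) hMM0 N rfl hNodd hNsq (psi θ)
    rw [← hχ, ← hM] at hburX
    set Y₀ : ℝ := M ^ (1 / 4 + η) with hY₀
    have hY₀1 : 1 ≤ Y₀ := Real.one_le_rpow hM1 (by positivity)
    have hyη : 1 ≤ (y : ℝ) ^ η := Real.one_le_rpow hy1 hη0.le
    set X : ℕ := ⌈Y₀ * (y : ℝ) ^ η⌉₊ with hX
    have hXl : Y₀ * (y : ℝ) ^ η ≤ X := Nat.le_ceil _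
    have hX1r : 1 ≤ Y₀ * (y : ℝ) ^ η := one_le_mul_of_one_le_of_one_le hY₀1 hyη
    have hXu : (X : ℝ) ≤ 2 * (Y₀ * (y : ℝ) ^ η) := by
      have h1 : (X : ℝ) ≤ Y₀ * (y : ℝ) ^ η + 1 := (Nat.ceil_lt_add_one (by positivity)).le
      linarith
    have hX1 : 1 ≤ X := by
      have : (1 : ℝ) ≤ X := hX1r.trans hXl
      exact_mod_cast this
    have hXpos : (0 : ℝ) < X := by exact_mod_cast hX1
    -- X is at most the square root of M
    have hXM : (X : ℝ) ≤ M ^ (1 / 2 + δ) := by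
      have h1 : (y : ℝ) ^ η ≤ M ^ (η / 2) := by
        calc (y : ℝ) ^ η ≤ (M ^ (1 / 2 : ℝ)) ^ η := Real.rpow_le_rpow hy0.le hyM hη0.le
          _ = M ^ (η / 2) := by rw [← Real.rpow_mul hMpos.le]; congr 1; ring
      have h2 : (2 : ℝ) ≤ M ^ (1 / 8 : ℝ) := by
        have h3 : (2 : ℝ) ≤ (y : ℝ) ^ (1 / 4 : ℝ) := g6
        have h4 : (y : ℝ) ^ (1 / 4 : ℝ) ≤ (M ^ (1 / 2 : ℝ)) ^ (1 / 4 : ℝ) :=
          Real.rpow_le_rpow hy0.le hyM (by norm_num)
        rw [← Real.rpow_mul hMpos.le] at h4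
        norm_num at h4
        norm_num at h3 ⊢
        linarith
      calc (X : ℝ) ≤ 2 * (Y₀ * (y : ℝ) ^ η) := hXu
        _ ≤ M ^ (1 / 8 : ℝ) * (M ^ (1 / 4 + η) * M ^ (η / 2)) := by gcongr
        _ = M ^ (1 / 8 + (1 / 4 + η + η / 2)) := by
            rw [← Real.rpow_add hMpos, ← Real.rpow_add hMpos]
        _ ≤ M ^ (1 / 2 + δ) := by
            apply Real.rpow_le_rpow_of_exponent_le hM1
            linarith
    set dl : ℝ := M ^ (-δ) with hdl
    have hdl0 : 0 < dl := Real.rpow_pos_of_pos hMpos _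
    have hbase : ∀ Y ≤ X, ‖shortSum (8 * N) χ Y‖ ≤ dl * Y ∨
        (‖shortSum (8 * N) χ Y‖ ≤ Y₀ ∧ ‖shortSum (8 * N) χ Y‖ ≤ Y) := by
      intro Y hYX
      have hYX' : (Y : ℝ) ≤ X := by exact_mod_cast hYX
      rcases le_or_gt Y₀ (Y : ℝ) with h1 | h1
      · left
        exact hburX Y h1 (hYX'.trans hXM)
      · right
        have h2 := shortSum_triv χ Y
        exact ⟨h2.trans h1.le, h2⟩
    have hG := hGest (8 * N) χ z X dl Y₀ ((y : ℝ) ^ η) hz8 hdl0.le (by linarith) (by positivity) hXl hbase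
    have e1 : dl ≤ (y : ℝ) ^ (-(2 * δ)) := by
      calc dl ≤ ((y : ℝ) ^ 2) ^ (-δ) := by
            apply Real.rpow_le_rpow_of_nonpos (by positivity) hcase.le (by linarith)
        _ = (y : ℝ) ^ (-(2 * δ)) := by
            rw [← Real.rpow_natCast, ← Real.rpow_mul hy0.le]; congr 1; push_cast; ring
    have hG2 : ‖G χ (exc χ z) X‖ ≤ g / 2 * X := by
      refine hG.trans (mul_le_mul_of_nonneg_right ?_ hXpos.le)
      have h1 : C₁ * Real.log z ^ 20 * dl ≤ C₁ * Real.log z ^ 20 * (y : ℝ) ^ (-(2 * δ)) :=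
        mul_le_mul_of_nonneg_left e1 (by positivity)
      rw [mul_add]
      linarith
    have hlogX : Real.log X ≤ κ * Real.log y := by
      have h1 : (X : ℝ) ≤ (y : ℝ) ^ κ := by
        have e1 : Y₀ ≤ 8 * (y : ℝ) ^ (E * (1 / 4 + η)) := by
          calc Y₀ ≤ (8 * (y : ℝ) ^ E) ^ (1 / 4 + η) :=
                Real.rpow_le_rpow hMpos.le hMD (by positivity)
            _ = (8 : ℝ) ^ (1 / 4 + η) * (y : ℝ) ^ (E * (1 / 4 + η)) := by
                rw [Real.mul_rpow (by norm_num) (by positivity), ← Real.rpow_mul hy0.le]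
            _ ≤ (8 : ℝ) ^ (1 : ℝ) * (y : ℝ) ^ (E * (1 / 4 + η)) := by
                gcongr
                · norm_num
                · linarith
            _ = 8 * (y : ℝ) ^ (E * (1 / 4 + η)) := by rw [Real.rpow_one]
        calc (X : ℝ) ≤ 2 * (Y₀ * (y : ℝ) ^ η) := hXu
          _ ≤ 2 * ((8 * (y : ℝ) ^ (E * (1 / 4 + η))) * (y : ℝ) ^ η) := by gcongr
          _ = 16 * (y : ℝ) ^ (E * (1 / 4 + η) + η) := by
              rw [Real.rpow_add hy0]; ring
          _ ≤ (y : ℝ) ^ (ε / 16) * (y : ℝ) ^ (E * (1 / 4 + η) + η) := by gcongr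
          _ = (y : ℝ) ^ (ε / 16 + (E * (1 / 4 + η) + η)) := by rw [← Real.rpow_add hy0]
          _ ≤ (y : ℝ) ^ κ := by
              apply Real.rpow_le_rpow_of_exponent_le hy1
              rw [hκ]
              have : E * (1 / 4 + η) + η ≤ r - ε / 4 + 8 * η := by
                have e2 : E * η ≤ 7 * η := mul_le_mul_of_nonneg_right hE7 hη0.le
                have e3 : E * (1 / 4) = r - ε / 4 := by rw [hE]; ring
                linarith
              have e4 : 8 * η = ε / 8 := by rw [hη]; ring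
              linarith
      have := Real.log_le_log hXpos h1
      rwa [Real.log_rpow hy0] at this
    exact hfin (8 * N) χ k z y X (D * B) κ g (mul_ne_zero hD0 hB0) hzk hz8 (by omega) hX1 hκ1 hlogX
      hg0 hg1 hCL hEz hgood hG2

end Pool.Agent.Run7.h740.BC
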