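import Pool.Agent.Run7.h740.BC.Main2
import Pool.Agent.Run7.h740.BC.Est

set_option autoImplicit false
set_option maxHeartbeats 4000000

/-! An integer `D` with `|D| ≤ y ^ (4 √e - ε)` which is a square modulo all primes `≤ y` that do not divide a
further integer `B` of size at most `exp (y ^ c)` is a square. -/

namespace Pool.Agent.Run7.h740.BC

open Finset Filter Pool.Agent.H471R4.BW Pool.Agent.R852.BC

/-- **A small integer which is a square modulo all small primes is a square**: the primes dividing the integer, and those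
dividing a further integer `B ≠ 0` of size at most `exp (y ^ c)`, are allowed. -/
theorem main4 (k : ℕ) (ε : ℝ) (hε : 0 < ε) (hε1 : ε ≤ 1) : ∃ c : ℝ, 0 < c ∧ c ≤ 1 ∧ ∀ᶠ y : ℕ in atTop, ∀ D B : ℤ, B ≠ 0 →
    (|B| : ℝ) ≤ Real.exp ((y : ℝ) ^ c) → (|D| : ℝ) ≤ (y : ℝ) ^ (4 * Real.exp (1 / 2) - ε) →
    (∀ p : ℕ, p.Prime → k < p → p ≤ y → ¬ (p : ℤ) ∣ B → ∃ t : ℤ, (p : ℤ) ∣ D - t ^ 2) →
      IsSquare D := by
  obtain ⟨he1, he2⟩ := exp_half_bounds
  set r := Real.exp (1 / 2) with hr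
  -- parameters
  set η : ℝ := ε / 64 with hη
  have hη0 : 0 < η := by positivity
  obtain ⟨δ, hδ0, hbur⟩ := bur8 η hη0
  obtain ⟨M0, hM0⟩ := eventually_atTop.mp hbur
  obtain ⟨C, hC0, hfin⟩ := fin_step
  set κ : ℝ := r - ε / 16 with hκ
  have hκ1 : 1 ≤ κ := by rw [hκ]; linarith
  have hκ2 : Real.log κ < 1 / 2 := by
    rw [Real.log_lt_iff_lt_exp (by linarith)]
    rw [hκ, ← hr]
    linarith
  have hκ3 : Real.log (3 / 2) < 1 / 2 := by
    rw [Real.log_lt_iff_lt_exp (by norm_num)]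
    rw [← hr]; linarith
  obtain ⟨g, hgdef⟩ : ∃ g, g = min (1 / 2 - Real.log κ) (1 / 2 - Real.log (3 / 2)) := ⟨_, rfl⟩
  have hg0 : 0 < g := by rw [hgdef]; exact lt_min (by linarith) (by linarith)
  have hg1 : g ≤ 1 / 2 - Real.log κ := by rw [hgdef]; exact min_le_left _ _
  have hg2 : g ≤ 1 / 2 - Real.log (3 / 2) := by rw [hgdef]; exact min_le_right _ _
  obtain ⟨c, hc0, hc1, hGest⟩ := G_est2 (g / 2) η (2 * δ) (by positivity) hη0 (by positivity)
  refine ⟨c / 2, by positivity, by linarith, ?_⟩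
  -- eventual inequalities
  have tc : Tendsto (fun q : ℕ => (q : ℝ)) atTop atTop := tendsto_natCast_atTop_atTop
  have tl : Tendsto (fun y : ℕ => Real.log (y : ℝ)) atTop atTop := Real.tendsto_log_atTop.comp tc
  have f1 : ∀ᶠ x : ℝ in atTop, 4 * (1 + 2 * Real.log x) ≤ x ^ (1 / 16 : ℝ) := by
    have h1 := (isLittleO_log_rpow_atTop (show (0 : ℝ) < 1 / 16 by norm_num)).def
      (show (0 : ℝ) < 1 / 16 by norm_num)
    have h2 : ∀ᶠ x : ℝ in atTop, 8 ≤ x ^ (1 / 16 : ℝ) :=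
      (tendsto_rpow_atTop (by norm_num : (0 : ℝ) < 1 / 16)).eventually_ge_atTop _
    filter_upwards [h1, h2, eventually_ge_atTop 1] with x hx hx2 hx1
    have h3 : 0 ≤ Real.log x := Real.log_nonneg hx1
    rw [Real.norm_eq_abs, Real.norm_eq_abs, abs_of_nonneg h3, abs_of_nonneg (by positivity)] at hx
    linarith
  have f5 : ∀ᶠ x : ℝ in atTop, 16 ≤ x ^ (ε / 16) :=
    (tendsto_rpow_atTop (by positivity : (0 : ℝ) < ε / 16)).eventually_ge_atTop _
  have f6 : ∀ᶠ x : ℝ in atTop, 2 ≤ x ^ (1 / 4 : ℝ) :=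
    (tendsto_rpow_atTop (by norm_num : (0 : ℝ) < 1 / 4)).eventually_ge_atTop _
  have f7 : ∀ᶠ x : ℝ in atTop, 7 * Real.log x ≤ x ^ (c / 2) := by
    have h1 := (isLittleO_log_rpow_atTop (show (0 : ℝ) < c / 2 by positivity)).def
      (show (0 : ℝ) < 1 / 7 by norm_num)
    filter_upwards [h1, eventually_ge_atTop 1] with x hx hx1
    have h3 : 0 ≤ Real.log x := Real.log_nonneg hx1
    rw [Real.norm_eq_abs, Real.norm_eq_abs, abs_of_nonneg h3, abs_of_nonneg (by positivity)] at hx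
    linarith
  have f8 : ∀ᶠ x : ℝ in atTop, 32 / g + k + 9 ≤ x ^ (c / 2) :=
    (tendsto_rpow_atTop (by positivity : (0 : ℝ) < c / 2)).eventually_ge_atTop _
  filter_upwards [tc.eventually f1, tc.eventually f5, tc.eventually f6, tc.eventually f7, tc.eventually f8,
    tl.eventually_ge_atTop (2 * C / g + 1), hGest, eventually_ge_atTop (M0 + 16)]
    with y g1 g5 g6 g7 g8 g9 hGe hy D B hB0 hB hD hsqD
  by_contra hDsq
  have hD0 : D ≠ 0 := by
    rintro rfl
    exact hDsq ⟨0, by norm_num⟩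
  have hy16 : 16 ≤ y := by omega
  have hyr : (16 : ℝ) ≤ y := by exact_mod_cast hy16
  have hy0 : (0 : ℝ) < y := by linarith
  have hy1 : (1 : ℝ) ≤ y := by linarith
  obtain ⟨L, hL⟩ : ∃ L, L = Real.log (y : ℝ) := ⟨_, rfl⟩
  have u2 : 0 ≤ 2 * C / g := by positivity
  have u3 : 0 < 32 / g := by positivity
  have u4 : (0 : ℝ) ≤ k := Nat.cast_nonneg k
  rw [← hL] at g7 g9
  have hL1 : 1 ≤ L := by linarith
  have hL0 : 0 < L := by linarith
  -- the size of z
  obtain ⟨W, hW⟩ : ∃ W, W = (y : ℝ) ^ (c / 2) := ⟨_, rfl⟩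
  rw [← hW] at hB g7 g8
  have hW2 : (y : ℝ) ^ c = W * W := by
    rw [hW, ← Real.rpow_add hy0]
    congr 1
    ring
  have hW9 : 9 ≤ W := by linarith
  obtain ⟨z, hz⟩ : ∃ z : ℕ, z = ⌊(y : ℝ) ^ c⌋₊ := ⟨_, rfl⟩
  have hzu : (z : ℝ) ≤ (y : ℝ) ^ c := by rw [hz]; exact Nat.floor_le (by positivity)
  have hzl : W * W / 2 ≤ z := by
    have h1 : (y : ℝ) ^ c < (z : ℝ) + 1 := by rw [hz]; exact Nat.lt_floor_add_one _
    rw [hW2] at h1
    nlinarith
  have hWz : W ≤ z := by nlinarith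
  have hz8 : 8 ≤ z := by
    have : (8 : ℝ) ≤ z := by linarith
    exact_mod_cast this
  have hzk : k ≤ z := by
    have : (k : ℝ) ≤ z := by linarith
    exact_mod_cast this
  have hz0 : (0 : ℝ) < z := by linarith
  have hCL : 2 * (C / Real.log y) < g := by
    rw [← hL]
    have h1 : 2 * C / g < L := by linarith
    rw [div_lt_iff₀ hg0] at h1
    rw [← mul_div_assoc, div_lt_iff₀ hL0]
    linarith [mul_comm L g]
  obtain ⟨N, θ, hN0, hNodd, hNsq, hND, hN1, hchar⟩ := exists_char D hD0 hDsq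
  haveI : NeZero N := ⟨hN0⟩
  haveI : NeZero (8 * N) := ⟨by omega⟩
  set χ := chi 8 N (psi θ) with hχ
  have hχ1 : χ ≠ 1 := chi_ne_one N hNodd hNsq θ hN1
  -- the exceptional primes
  have hgood : ∀ l : ℕ, l.Prime → k < l → l ≤ y → l ≠ 2 → ¬ (l : ℤ) ∣ D * B →
      χ (l : ZMod (8 * N)) = 1 := by
    intro l hl hkl hly2 hl2 hlDB
    have hlD : ¬ (l : ℤ) ∣ D := fun h => hlDB (Dvd.dvd.mul_right h _)
    have hlB : ¬ (l : ℤ) ∣ B := fun h => hlDB (Dvd.dvd.mul_left h _)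
    have h1 := hchar l hl hl2 hlD (hsqD l hl hkl hly2 hlB)
    rw [hχ, chi_nat, psi_apply, jchar_apply]
    exact_mod_cast h1
  set E : ℝ := 4 * r - ε with hE
  have hE7 : E ≤ 7 := by rw [hE]; linarith
  have hDr : ((D.natAbs : ℕ) : ℝ) = |(D : ℝ)| := by
    rw [Nat.cast_natAbs]
    push_cast
    rfl
  have hDpos : 0 < |(D : ℝ)| := by positivity
  have hBpos : 0 < |(B : ℝ)| := by positivity
  have hEz : Real.log |((D * B : ℤ) : ℝ)| / z ≤ g / 8 := by
    have h1 : Real.log |((D * B : ℤ) : ℝ)| ≤ 2 * W := by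
      push_cast
      rw [abs_mul, Real.log_mul hDpos.ne' hBpos.ne']
      have e1 : Real.log |(D : ℝ)| ≤ E * L := by
        have := Real.log_le_log hDpos hD
        rwa [Real.log_rpow hy0, ← hL] at this
      have e2 : Real.log |(B : ℝ)| ≤ W := by
        have := Real.log_le_log hBpos hB
        rwa [Real.log_exp] at this
      have e3 : E * L ≤ 7 * L := mul_le_mul_of_nonneg_right hE7 hL0.le
      linarith
    rw [div_le_iff₀ hz0]
    have h2 : 32 / g ≤ W := by linarith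
    rw [div_le_iff₀ hg0] at h2
    have h3 : g / 8 * (W * W / 2) ≤ g / 8 * z := mul_le_mul_of_nonneg_left hzl (by positivity)
    have h4 : 32 * W ≤ W * g * W := mul_le_mul_of_nonneg_right h2 (by linarith)
    have h5 : g / 8 * (W * W / 2) = W * g * W / 16 := by ring
    linarith
  set M : ℝ := ((8 * N : ℕ) : ℝ) with hM
  have hM8 : 8 ≤ M := by
    rw [hM]
    exact_mod_cast (by omega : 8 ≤ 8 * N)
  have hMpos : 0 < M := by linarith
  have hM1 : 1 ≤ M := by linarith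
  have hMD : M ≤ 8 * (y : ℝ) ^ E := by
    have h1 : N ≤ D.natAbs := Nat.le_of_dvd (Int.natAbs_pos.mpr hD0) hND
    have h2 : (N : ℝ) ≤ |(D : ℝ)| := by
      rw [← hDr]
      exact_mod_cast h1
    rw [hM]
    push_cast
    linarith
  have hη64 : η ≤ 1 / 64 := by rw [hη]; linarith
  rcases le_or_gt M ((y : ℝ) ^ 2) with hcase | hcase
  · -- small modulus: Pólya–Vinogradov
    set T : ℝ := 4 * √M * (1 + Real.log M) with hT
    have hlM : 0 ≤ Real.log M := Real.log_nonneg hM1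
    have hT0 : 0 < T := by positivity
    have hPV : ∀ Y : ℕ, ‖shortSum (8 * N) χ Y‖ ≤ T := by
      intro Y
      exact Pool.Agent.H38R2.CG.PVh.sum_le (8 * N) χ (by omega) hχ1 Y
    set X : ℕ := ⌈(y : ℝ) ^ (5 / 4 : ℝ)⌉₊ with hX
    have hXl : (y : ℝ) ^ (5 / 4 : ℝ) ≤ X := Nat.le_ceil _
    have hy54 : (1 : ℝ) ≤ (y : ℝ) ^ (5 / 4 : ℝ) := Real.one_le_rpow hy1 (by norm_num)
    have hXu : (X : ℝ) ≤ (y : ℝ) ^ (3 / 2 : ℝ) := by
      have h1 : (X : ℝ) ≤ (y : ℝ) ^ (5 / 4 : ℝ) + 1 := (Nat.ceil_lt_add_one (by positivity)).le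
      have h2 : (y : ℝ) ^ (3 / 2 : ℝ) = (y : ℝ) ^ (1 / 4 : ℝ) * (y : ℝ) ^ (5 / 4 : ℝ) := by
        rw [← Real.rpow_add hy0]; norm_num
      rw [h2]
      calc (X : ℝ) ≤ 2 * (y : ℝ) ^ (5 / 4 : ℝ) := by linarith
        _ ≤ (y : ℝ) ^ (1 / 4 : ℝ) * (y : ℝ) ^ (5 / 4 : ℝ) :=
            mul_le_mul_of_nonneg_right g6 (by linarith)
    have hX1 : 1 ≤ X := by
      have : (1 : ℝ) ≤ X := hy54.trans hXl
      exact_mod_cast this
    have hXpos : (0 : ℝ) < X := by exact_mod_cast hX1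
    -- bound for T
    have hTy : T ≤ (y : ℝ) ^ (17 / 16 : ℝ) := by
      have h1 : √M ≤ y := by
        rw [Real.sqrt_le_left hy0.le]
        exact hcase
      have h2 : Real.log M ≤ 2 * Real.log y := by
        have := Real.log_le_log hMpos hcase
        rwa [Real.log_pow, Nat.cast_ofNat] at this
      calc T ≤ 4 * y * (1 + 2 * Real.log y) := by
            rw [hT]
            gcongr
        _ = y * (4 * (1 + 2 * Real.log y)) := by ring
        _ ≤ y * (y : ℝ) ^ (1 / 16 : ℝ) := by gcongr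
        _ = (y : ℝ) ^ (17 / 16 : ℝ) := by
            nth_rewrite 1 [← Real.rpow_one (y : ℝ)]
            rw [← Real.rpow_add hy0]; norm_num
    have hTX : T * (y : ℝ) ^ η ≤ X := by
      calc T * (y : ℝ) ^ η ≤ (y : ℝ) ^ (17 / 16 : ℝ) * (y : ℝ) ^ η :=
            mul_le_mul_of_nonneg_right hTy (by positivity)
        _ = (y : ℝ) ^ (17 / 16 + η) := by rw [← Real.rpow_add hy0]
        _ ≤ (y : ℝ) ^ (5 / 4 : ℝ) := Real.rpow_le_rpow_of_exponent_le hy1 (by linarith)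
        _ ≤ X := hXl
    have hT1 : 1 ≤ T := by
      have h1 : 1 ≤ √M := by
        rw [Real.one_le_sqrt]
        exact hM1
      rw [hT]
      nlinarith [mul_nonneg (Real.sqrt_nonneg M) hlM]
    have hG2 : ‖G χ (exc χ z) X‖ ≤ g / 2 * X :=
      hGe (8 * N) χ z X 0 T hzu le_rfl (by positivity) hT1 hTX
        (fun Y _ => Or.inr ⟨hPV Y, shortSum_triv χ Y⟩)
    have hlogX : Real.log X ≤ 3 / 2 * Real.log y := by
      have := Real.log_le_log hXpos hXu
      rwa [Real.log_rpow hy0] at this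
    exact hfin (8 * N) χ k z y X (D * B) (3 / 2) g (mul_ne_zero hD0 hB0) hzk hz8 (by omega) hX1 (by norm_num) hlogX
      hg0 hg2 hCL hEz hgood hG2
  · -- large modulus: Burgess
    have hyM : (y : ℝ) ≤ M ^ (1 / 2 : ℝ) := by
      have h1 : ((y : ℝ) ^ 2) ^ (1 / 2 : ℝ) ≤ M ^ (1 / 2 : ℝ) :=
        Real.rpow_le_rpow (by positivity) hcase.le (by norm_num)
      rwa [← Real.sqrt_eq_rpow, Real.sqrt_sq hy0.le] at h1
    have hMM0 : M0 ≤ 8 * N := by
      have h1 : (y : ℝ) ≤ M := by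
        have h0 : (y : ℝ) ≤ (y : ℝ) ^ 2 := by
          rw [pow_two]
          exact le_mul_of_one_le_left hy0.le hy1
        linarith
      have h2 : y ≤ 8 * N := by
        rw [hM] at h1
        exact_mod_cast h1
      omega
    have hburX := hM0 (8 * N) hMM0 N rfl hNodd hNsq (psi θ)
    rw [← hχ, ← hM] at hburX
    set Y₀ : ℝ := M ^ (1 / 4 + η) with hY₀
    have hY₀1 : 1 ≤ Y₀ := Real.one_le_rpow hM1 (by positivity)
    have hyη : 1 ≤ (y : ℝ) ^ η := Real.one_le_rpow hy1 hη0.le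
    set X : ℕ := ⌈Y₀ * (y : ℝ) ^ η⌉₊ with hX
    have hXl : Y₀ * (y : ℝ) ^ η ≤ X := Nat.le_ceil _
    have hX1r : 1 ≤ Y₀ * (y : ℝ) ^ η := one_le_mul_of_one_le_of_one_le hY₀1 hyη
    have hXu : (X : ℝ) ≤ 2 * (Y₀ * (y : ℝ) ^ η) := by
      have h1 : (X : ℝ) ≤ Y₀ * (y : ℝ) ^ η + 1 := (Nat.ceil_lt_add_one (by positivity)).le
      linarith
    have hX1 : 1 ≤ X := by
      have : (1 : ℝ) ≤ X := hX1r.trans hXl
      exact_mod_cast this
    have hXpos : (0 : ℝ) < X := by exact_mod_cast hX1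
    -- X is at most the square root of M
    have hXM : (X : ℝ) ≤ M ^ (1 / 2 + δ) := by
      have h1 : (y : ℝ) ^ η ≤ M ^ (η / 2) := by
        calc (y : ℝ) ^ η ≤ (M ^ (1 / 2 : ℝ)) ^ η := Real.rpow_le_rpow hy0.le hyM hη0.le
          _ = M ^ (η / 2) := by rw [← Real.rpow_mul hMpos.le]; congr 1; ring
      have h2 : (2 : ℝ) ≤ M ^ (1 / 8 : ℝ) := by
        have h3 : (2 : ℝ) ≤ (y : ℝ) ^ (1 / 4 : ℝ) := g6
        have h4 : (y : ℝ) ^ (1 / 4 : ℝ) ≤ (M ^ (1 / 2 : ℝ)) ^ (1 / 4 : ℝ) :=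
          Real.rpow_le_rpow hy0.le hyM (by norm_num)
        rw [← Real.rpow_mul hMpos.le] at h4
        norm_num at h4
        norm_num at h3 ⊢
        linarith
      calc (X : ℝ) ≤ 2 * (Y₀ * (y : ℝ) ^ η) := hXu
        _ ≤ M ^ (1 / 8 : ℝ) * (M ^ (1 / 4 + η) * M ^ (η / 2)) := by gcongr
        _ = M ^ (1 / 8 + (1 / 4 + η + η / 2)) := by
            rw [← Real.rpow_add hMpos, ← Real.rpow_add hMpos]
        _ ≤ M ^ (1 / 2 + δ) := by
            apply Real.rpow_le_rpow_of_exponent_le hM1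
            linarith
    set dl : ℝ := M ^ (-δ) with hdl
    have hdl0 : 0 < dl := Real.rpow_pos_of_pos hMpos _
    have hbase : ∀ Y ≤ X, ‖shortSum (8 * N) χ Y‖ ≤ dl * Y ∨
        (‖shortSum (8 * N) χ Y‖ ≤ Y₀ ∧ ‖shortSum (8 * N) χ Y‖ ≤ Y) := by
      intro Y hYX
      have hYX' : (Y : ℝ) ≤ X := by exact_mod_cast hYX
      rcases le_or_gt Y₀ (Y : ℝ) with h1 | h1
      · left
        exact hburX Y h1 (hYX'.trans hXM)
      · right
        have h2 := shortSum_triv χ Y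
        exact ⟨h2.trans h1.le, h2⟩
    have e1 : dl ≤ (y : ℝ) ^ (-(2 * δ)) := by
      calc dl ≤ ((y : ℝ) ^ 2) ^ (-δ) := by
            apply Real.rpow_le_rpow_of_nonpos (by positivity) hcase.le (by linarith)
        _ = (y : ℝ) ^ (-(2 * δ)) := by
            rw [← Real.rpow_natCast, ← Real.rpow_mul hy0.le]; congr 1; push_cast; ring
    have hG2 : ‖G χ (exc χ z) X‖ ≤ g / 2 * X :=
      hGe (8 * N) χ z X dl Y₀ hzu hdl0.le e1 hY₀1 hXl hbase
    have hlogX : Real.log X ≤ κ * Real.log y := by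
      have h1 : (X : ℝ) ≤ (y : ℝ) ^ κ := by
        have e1 : Y₀ ≤ 8 * (y : ℝ) ^ (E * (1 / 4 + η)) := by
          calc Y₀ ≤ (8 * (y : ℝ) ^ E) ^ (1 / 4 + η) :=
                Real.rpow_le_rpow hMpos.le hMD (by positivity)
            _ = (8 : ℝ) ^ (1 / 4 + η) * (y : ℝ) ^ (E * (1 / 4 + η)) := by
                rw [Real.mul_rpow (by norm_num) (by positivity), ← Real.rpow_mul hy0.le]
            _ ≤ (8 : ℝ) ^ (1 : ℝ) * (y : ℝ) ^ (E * (1 / 4 + η)) := by
                gcongr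
                · norm_num
                · linarith
            _ = 8 * (y : ℝ) ^ (E * (1 / 4 + η)) := by rw [Real.rpow_one]
        calc (X : ℝ) ≤ 2 * (Y₀ * (y : ℝ) ^ η) := hXu
          _ ≤ 2 * ((8 * (y : ℝ) ^ (E * (1 / 4 + η))) * (y : ℝ) ^ η) := by gcongr
          _ = 16 * (y : ℝ) ^ (E * (1 / 4 + η) + η) := by
              rw [Real.rpow_add hy0]; ring
          _ ≤ (y : ℝ) ^ (ε / 16) * (y : ℝ) ^ (E * (1 / 4 + η) + η) := by gcongr
          _ = (y : ℝ) ^ (ε / 16 + (E * (1 / 4 + η) + η)) := by rw [← Real.rpow_add hy0]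
          _ ≤ (y : ℝ) ^ κ := by
              apply Real.rpow_le_rpow_of_exponent_le hy1
              rw [hκ]
              have : E * (1 / 4 + η) + η ≤ r - ε / 4 + 8 * η := by
                have e2 : E * η ≤ 7 * η := mul_le_mul_of_nonneg_right hE7 hη0.le
                have e3 : E * (1 / 4) = r - ε / 4 := by rw [hE]; ring
                linarith
              have e4 : 8 * η = ε / 8 := by rw [hη]; ring
              linarith
      have := Real.log_le_log hXpos h1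
      rwa [Real.log_rpow hy0] at this
    exact hfin (8 * N) χ k z y X (D * B) κ g (mul_ne_zero hD0 hB0) hzk hz8 (by omega) hX1 hκ1 hlogX
      hg0 hg1 hCL hEz hgood hG2

end Pool.Agent.Run7.h740.BC
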