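import Pool.Agent.R852.BC.Gs
import Pool.Agent.Helper923.HMertens

set_option autoImplicit false
set_option maxHeartbeats 4000000

/-! The part of an integer composed of the primes in a finite set, and its moments. -/

namespace Pool.Agent.Run7.h740.BC

open Finset Filter Pool.Agent.H471R4.BW Pool.Agent.R852.BC

/-- no prime of `P` divides `n` -/
def Fr (P : Finset ℕ) (n : ℕ) : Prop := ∀ p ∈ P, ¬ p ∣ n

/-- the part of `n` composed of the primes in `P` -/
def pp (P : Finset ℕ) (n : ℕ) : ℕ := (n.primeFactorsList.filter (fun l => l ∈ P)).prod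

/-- the cofactor -/
def qq (P : Finset ℕ) (n : ℕ) : ℕ := (n.primeFactorsList.filter (fun l => ¬ l ∈ P)).prod

lemma list_filter_mul (P : Finset ℕ) (L : List ℕ) :
    (L.filter (fun l => l ∈ P)).prod * (L.filter (fun l => ¬ l ∈ P)).prod = L.prod := by
  induction L with
  | nil => simp
  | cons a t ih =>
    by_cases h : a ∈ P
    · rw [List.filter_cons_of_pos (by simpa using h), List.filter_cons_of_neg (by simpa using h), List.prod_cons,
        List.prod_cons, mul_assoc, ih]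
    · rw [List.filter_cons_of_neg (by simpa using h), List.filter_cons_of_pos (by simpa using h), List.prod_cons,
        List.prod_cons, mul_left_comm, ih]

lemma pp_mul_qq (P : Finset ℕ) {n : ℕ} (hn : n ≠ 0) : pp P n * qq P n = n := by
  unfold pp qq
  rw [list_filter_mul, Nat.prod_primeFactorsList hn]

lemma pp_mul (P : Finset ℕ) {a b : ℕ} (ha : a ≠ 0) (hb : b ≠ 0) : pp P (a * b) = pp P a * pp P b := by
  unfold pp
  rw [((Nat.perm_primeFactorsList_mul ha hb).filter _).prod_eq, List.filter_append, List.prod_append]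

lemma pp_pos (P : Finset ℕ) {n : ℕ} (hn : n ≠ 0) : 0 < pp P n := by
  have := pp_mul_qq P hn
  rcases Nat.eq_zero_or_pos (pp P n) with h | h
  · rw [h, zero_mul] at this
    exact absurd this.symm hn
  · exact h

lemma qq_pos (P : Finset ℕ) {n : ℕ} (hn : n ≠ 0) : 0 < qq P n := by
  have := pp_mul_qq P hn
  rcases Nat.eq_zero_or_pos (qq P n) with h | h
  · rw [h, mul_zero] at this
    exact absurd this.symm hn
  · exact h

lemma pp_free (P : Finset ℕ) {n : ℕ} (h : Fr P n) : pp P n = 1 := by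
  unfold pp
  have : n.primeFactorsList.filter (fun l => l ∈ P) = [] := by
    rw [List.filter_eq_nil_iff]
    intro l hl
    simp only [decide_eq_true_eq]
    intro hlP
    exact h l hlP (Nat.dvd_of_mem_primeFactorsList hl)
  rw [this, List.prod_nil]

lemma qq_free (P : Finset ℕ) (hP : ∀ p ∈ P, p.Prime) (n : ℕ) : Fr P (qq P n) := by
  intro p hp hd
  unfold qq at hd
  obtain ⟨l, hl, hpl⟩ := (Prime.dvd_prod_iff (hP p hp).prime).1 hd
  rw [List.mem_filter] at hl
  have h1 := Nat.prime_of_mem_primeFactorsList hl.1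
  have h2 : p = l := (Nat.prime_dvd_prime_iff_eq (hP p hp) h1).1 hpl
  subst h2
  simp [hp] at hl

lemma pp_pp (P : Finset ℕ) (hP : ∀ p ∈ P, p.Prime) {n : ℕ} (hn : n ≠ 0) : pp P (pp P n) = pp P n := by
  have h1 := pp_mul P (pp_pos P hn).ne' (qq_pos P hn).ne'
  rw [pp_mul_qq P hn, pp_free P (qq_free P hP n), mul_one] at h1
  exact h1.symm

lemma pp_prime_mem (P : Finset ℕ) {q : ℕ} (hq : q.Prime) (h : q ∈ P) : pp P q = q := by
  simp [pp, Nat.primeFactorsList_prime hq, h]

lemma pp_prime_notMem (P : Finset ℕ) {q : ℕ} (hq : q.Prime) (h : q ∉ P) : pp P q = 1 := by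
  simp [pp, Nat.primeFactorsList_prime hq, h]

lemma pp_insert (P : Finset ℕ) {q n : ℕ} (h : ¬ q ∣ n) : pp (insert q P) n = pp P n := by
  unfold pp
  congr 1
  apply List.filter_congr
  intro l hl
  have h1 : l ≠ q := by
    rintro rfl
    exact h (Nat.dvd_of_mem_primeFactorsList hl)
  simp [Finset.mem_insert, h1]

/-- the values of the modified function -/
lemma gS_pp {N : ℕ} (χ : DirichletCharacter ℂ N) (S P : Finset ℕ) (hP : ∀ p ∈ P, p.Prime) {n : ℕ} (hn : n ≠ 0) :
    gS χ (S ∪ P) (pp P n) = 1 := by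
  apply gS_good
  intro l hl hd
  unfold pp at hd
  obtain ⟨k, hk, hlk⟩ := (Prime.dvd_prod_iff hl.prime).1 hd
  rw [List.mem_filter] at hk
  have h1 := Nat.prime_of_mem_primeFactorsList hk.1
  have h2 : l = k := (Nat.prime_dvd_prime_iff_eq hl h1).1 hlk
  subst h2
  have h3 : l ∈ P := by simpa using hk.2
  simp [gv, h3]

lemma gS_union_free {N : ℕ} (χ : DirichletCharacter ℂ N) (S P : Finset ℕ) {n : ℕ} (h : Fr P n) :
    gS χ (S ∪ P) n = gS χ S n := by
  unfold gS
  congr 1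
  apply List.map_congr_left
  intro l hl
  have h1 : l ∉ P := fun hlP => h l hlP (Nat.dvd_of_mem_primeFactorsList hl)
  unfold gv
  simp [Finset.mem_union, h1]

open Classical in
/-- the sum over the integers free of primes of `P` -/
noncomputable def Ph {N : ℕ} (χ : DirichletCharacter ℂ N) (S P : Finset ℕ) (Y : ℕ) : ℂ :=
  ∑ n ∈ (Icc 1 Y).filter (fun n => Fr P n), gS χ S n

open Classical in
/-- their number -/
noncomputable def NP (P : Finset ℕ) (Y : ℕ) : ℕ := ((Icc 1 Y).filter (fun n => Fr P n)).card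

open Classical in
/-- the fibres of `pp` -/
lemma fiber {M : Type} [AddCommMonoid M] (P : Finset ℕ) (hP : ∀ p ∈ P, p.Prime) (X a : ℕ) (ha : 0 < a)
    (haa : pp P a = a) (F : ℕ → M) :
    ∑ n ∈ (Icc 1 X).filter (fun n => pp P n = a), F n =
      ∑ b ∈ (Icc 1 (X / a)).filter (fun b => Fr P b), F (a * b) := by
  symm
  refine Finset.sum_bij (fun b _ => a * b) ?_ ?_ ?_ ?_
  · intro b hb
    rw [mem_filter, mem_Icc] at hb
    rw [mem_filter, mem_Icc]
    refine ⟨⟨Nat.mul_pos ha hb.1.1, ?_⟩, ?_⟩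
    · calc a * b ≤ a * (X / a) := Nat.mul_le_mul_left _ hb.1.2
        _ ≤ X := Nat.mul_div_le X a
    · rw [pp_mul P ha.ne' (by omega), haa, pp_free P hb.2, mul_one]
  · intro b _ c _ hbc
    exact Nat.eq_of_mul_eq_mul_left ha hbc
  · intro n hn
    rw [mem_filter, mem_Icc] at hn
    have hn0 : n ≠ 0 := by omega
    have h1 := pp_mul_qq P hn0
    rw [hn.2] at h1
    refine ⟨qq P n, ?_, h1⟩
    rw [mem_filter, mem_Icc]
    refine ⟨⟨qq_pos P hn0, ?_⟩, qq_free P hP n⟩
    rw [Nat.le_div_iff_mul_le ha, mul_comm, h1]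
    exact hn.1.2
  · intro b _
    rfl

/-- the loss at a prime -/
noncomputable def KK2 (θ : ℝ) (q : ℕ) : ℝ := ((q : ℝ) - 1) / ((q : ℝ) - (q : ℝ) ^ θ)

/-- moments of the part -/
noncomputable def HP (P : Finset ℕ) (θ : ℝ) (Y : ℕ) : ℝ := ∑ n ∈ Icc 1 Y, ((pp P n : ℕ) : ℝ) ^ θ

lemma sum_dvdR (q : ℕ) (hq : 0 < q) (g : ℕ → ℝ) (Y : ℕ) :
    ∑ m ∈ (Icc 1 Y).filter (fun m => q ∣ m), g m = ∑ k ∈ Icc 1 (Y / q), g (q * k) := by
  symm
  refine Finset.sum_bij (fun k _ => q * k) ?_ ?_ ?_ ?_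
  · intro k hk
    rw [mem_Icc] at hk
    rw [mem_filter, mem_Icc]
    refine ⟨⟨Nat.mul_pos hq hk.1, ?_⟩, dvd_mul_right _ _⟩
    calc q * k ≤ q * (Y / q) := Nat.mul_le_mul_left _ hk.2
      _ ≤ Y := Nat.mul_div_le Y q
  · intro a _ b _ hab
    exact Nat.eq_of_mul_eq_mul_left hq hab
  · intro m hm
    rw [mem_filter, mem_Icc] at hm
    obtain ⟨k, rfl⟩ := hm.2
    refine ⟨k, ?_, rfl⟩
    rw [mem_Icc]
    refine ⟨Nat.pos_of_ne_zero (by rintro rfl; simp at hm), ?_⟩
    rw [Nat.le_div_iff_mul_le hq, mul_comm]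
    exact hm.1.2
  · intro k _
    rfl

theorem HP_bound (θ : ℝ) (hθ : 0 < θ) (P : Finset ℕ) (hP : ∀ q ∈ P, q.Prime ∧ (q : ℝ) ^ θ < q) :
    ∀ Y : ℕ, HP P θ Y ≤ (∏ q ∈ P, KK2 θ q) * Y := by
  induction P using Finset.induction_on with
  | empty =>
    intro Y
    unfold HP
    have h1 : ∀ n ∈ Icc 1 Y, ((pp ∅ n : ℕ) : ℝ) ^ θ = 1 := by
      intro n _
      rw [pp_free ∅ (fun p hp => absurd hp (notMem_empty p))]
      simp
    rw [sum_congr rfl h1]
    simp
  | insert q P hqP ih =>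
    obtain ⟨hq, hqθ⟩ := hP q (mem_insert_self q P)
    have ih' := ih (fun l hl => hP l (mem_insert_of_mem hl))
    obtain ⟨C, hC⟩ : ∃ C, C = ∏ q ∈ P, KK2 θ q := ⟨_, rfl⟩
    rw [← hC] at ih'
    have hq2 : (2 : ℝ) ≤ q := by exact_mod_cast hq.two_le
    have hq0 : (0 : ℝ) < q := by linarith
    have hqt1 : 1 ≤ (q : ℝ) ^ θ := Real.one_le_rpow (by linarith) hθ.le
    have hC0 : 0 ≤ C := by
      rw [hC]
      refine prod_nonneg fun l hl => ?_
      obtain ⟨h1, h2⟩ := hP l (mem_insert_of_mem hl)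
      have h3 : (2 : ℝ) ≤ l := by exact_mod_cast h1.two_le
      exact div_nonneg (by linarith) (by linarith)
    obtain ⟨K, hK⟩ : ∃ K, K = KK2 θ q := ⟨_, rfl⟩
    have hKe : K * ((q : ℝ) - (q : ℝ) ^ θ) = q - 1 := by
      rw [hK]
      unfold KK2
      exact div_mul_cancel₀ _ (by linarith)
    have hK1 : 1 ≤ K := by
      rw [hK]
      unfold KK2
      rw [le_div_iff₀ (by linarith)]
      linarith
    -- the difference
    have hD : ∀ Y : ℕ, ∑ n ∈ Icc 1 Y, (((pp (insert q P) n : ℕ) : ℝ) ^ θ - ((pp P n : ℕ) : ℝ) ^ θ) ≤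
        (K - 1) * C * Y := by
      intro Y
      induction Y using Nat.strong_induction_on with
      | _ Y ihY =>
        rcases Nat.eq_zero_or_pos Y with h0 | h0
        · subst h0
          simp
        · have hlt : Y / q < Y := Nat.div_lt_self h0 hq.one_lt
          have h1 := ihY (Y / q) hlt
          have h2 := ih' (Y / q)
          unfold HP at h2
          have h3 : ∑ n ∈ Icc 1 Y, (((pp (insert q P) n : ℕ) : ℝ) ^ θ - ((pp P n : ℕ) : ℝ) ^ θ) =
              ∑ n ∈ (Icc 1 Y).filter (fun n => q ∣ n),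
                (((pp (insert q P) n : ℕ) : ℝ) ^ θ - ((pp P n : ℕ) : ℝ) ^ θ) := by
            symm
            apply sum_subset (filter_subset _ _)
            intro n hn hn2
            rw [mem_filter, not_and] at hn2
            rw [pp_insert P (hn2 hn), sub_self]
          have h4 : ∀ k ∈ Icc 1 (Y / q), (((pp (insert q P) (q * k) : ℕ) : ℝ) ^ θ - ((pp P (q * k) : ℕ) : ℝ) ^ θ) =
              (q : ℝ) ^ θ * (((pp (insert q P) k : ℕ) : ℝ) ^ θ - ((pp P k : ℕ) : ℝ) ^ θ) +
                ((q : ℝ) ^ θ - 1) * ((pp P k : ℕ) : ℝ) ^ θ := by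
            intro k hk
            have hk0 : k ≠ 0 := by
              have := (mem_Icc.1 hk).1
              omega
            rw [pp_mul _ hq.ne_zero hk0, pp_mul _ hq.ne_zero hk0, pp_prime_mem _ hq (mem_insert_self q P),
              pp_prime_notMem P hq hqP, one_mul]
            push_cast
            rw [Real.mul_rpow hq0.le (Nat.cast_nonneg _)]
            ring
          rw [h3, sum_dvdR q hq.pos, sum_congr rfl h4, sum_add_distrib, ← mul_sum, ← mul_sum]
          have h5 : (((Y / q : ℕ) : ℕ) : ℝ) ≤ Y / q := Nat.cast_div_le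
          have h6 : (q : ℝ) ^ θ * ((K - 1) * C * ((Y / q : ℕ) : ℝ)) + ((q : ℝ) ^ θ - 1) * (C * ((Y / q : ℕ) : ℝ)) ≤
              (K - 1) * C * Y := by
            have e1 : (q : ℝ) ^ θ * ((K - 1) * C * ((Y / q : ℕ) : ℝ)) + ((q : ℝ) ^ θ - 1) * (C * ((Y / q : ℕ) : ℝ)) =
                ((q : ℝ) ^ θ * K - 1) * C * ((Y / q : ℕ) : ℝ) := by ring
            have e2 : 0 ≤ (q : ℝ) ^ θ * K - 1 := by nlinarith
            have e3 : (q : ℝ) ^ θ * K - 1 = q * (K - 1) := by linarith
            rw [e1]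
            calc ((q : ℝ) ^ θ * K - 1) * C * ((Y / q : ℕ) : ℝ) ≤ ((q : ℝ) ^ θ * K - 1) * C * (Y / q) :=
                  mul_le_mul_of_nonneg_left h5 (mul_nonneg e2 hC0)
              _ = (K - 1) * C * Y := by
                  rw [e3]
                  field_simp
          refine le_trans (add_le_add (mul_le_mul_of_nonneg_left h1 (by linarith))
            (mul_le_mul_of_nonneg_left h2 (by linarith))) h6
    intro Y
    have h1 := hD Y
    rw [sum_sub_distrib] at h1
    have h2 := ih' Y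
    rw [prod_insert hqP, ← hC, ← hK]
    unfold HP at h2 ⊢
    nlinarith

/-- the product of the losses over primes between `6` and `Z` -/
theorem prod_KK2 : ∃ C : ℝ, 0 < C ∧ ∀ (Z : ℕ), 3 ≤ Z → ∀ P : Finset ℕ, (∀ q ∈ P, q.Prime ∧ 6 < q ∧ q ≤ Z) →
    (∀ q ∈ P, (q : ℝ) ^ (1 / Real.log Z) < q) ∧ ∏ q ∈ P, KK2 (1 / Real.log Z) q ≤ C := by
  obtain ⟨C, hC⟩ := Pool.Agent.Helper923.HMertens.mertens_log
  refine ⟨Real.exp (4 + 4 * |C|), Real.exp_pos _, fun Z hZ P hP => ?_⟩
  have hZr : (3 : ℝ) ≤ Z := by exact_mod_cast hZ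
  have hZ0 : (0 : ℝ) < Z := by linarith
  have hL1 : 1 ≤ Real.log Z := by
    rw [Real.le_log_iff_exp_le hZ0]
    have := Real.exp_one_lt_d9
    linarith
  obtain ⟨L, hL⟩ : ∃ L, L = Real.log (Z : ℝ) := ⟨_, rfl⟩
  rw [← hL] at hL1 ⊢
  have hL0 : 0 < L := by linarith
  have hpt : ∀ q ∈ P, (q : ℝ) ^ (1 / L) ≤ Real.exp 1 ∧ (q : ℝ) ^ (1 / L) - 1 ≤ 2 * (Real.log q / L) ∧
      0 ≤ Real.log q / L := by
    intro q hq
    obtain ⟨h1, h2, h3⟩ := hP q hq
    have hq0 : (0 : ℝ) < q := by exact_mod_cast h1.pos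
    have hq1 : (1 : ℝ) ≤ q := by exact_mod_cast h1.one_lt.le
    have e1 : Real.log q ≤ L := by
      rw [hL]
      exact Real.log_le_log hq0 (by exact_mod_cast h3)
    have e2 : 0 ≤ Real.log q := Real.log_nonneg hq1
    have e3 : Real.log q / L ≤ 1 := by rwa [div_le_one hL0]
    have e4 : 0 ≤ Real.log q / L := by positivity
    have e5 : (q : ℝ) ^ (1 / L) = Real.exp (Real.log q / L) := by
      rw [Real.rpow_def_of_pos hq0]
      congr 1
      ring
    rw [e5]
    refine ⟨Real.exp_le_exp.mpr e3, ?_, e4⟩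
    have e6 := Real.exp_bound' e4 e3 (n := 1) one_pos
    simp at e6
    linarith
  have hbig : ∀ q ∈ P, (7 : ℝ) ≤ q := by
    intro q hq
    exact_mod_cast (hP q hq).2.1
  have he3 : Real.exp 1 < 3 := by
    have := Real.exp_one_lt_d9
    linarith
  refine ⟨fun q hq => ?_, ?_⟩
  · have h1 := (hpt q hq).1
    have h2 := hbig q hq
    linarith
  · have hK : ∀ q ∈ P, 0 ≤ KK2 (1 / L) q ∧ KK2 (1 / L) q ≤ Real.exp (4 / L * (Real.log q / q)) := by
      intro q hq
      obtain ⟨h1, h2, h3⟩ := hpt q hq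
      have h7 := hbig q hq
      have hq0 : (0 : ℝ) < q := by linarith
      have e1 : (q : ℝ) / 2 ≤ q - (q : ℝ) ^ (1 / L) := by linarith
      have e2 : KK2 (1 / L) q = 1 + ((q : ℝ) ^ (1 / L) - 1) / (q - (q : ℝ) ^ (1 / L)) := by
        unfold KK2
        have : (q : ℝ) - (q : ℝ) ^ (1 / L) ≠ 0 := by linarith
        field_simp
        ring
      have e3 : ((q : ℝ) ^ (1 / L) - 1) / (q - (q : ℝ) ^ (1 / L)) ≤ 4 / L * (Real.log q / q) := by
        calc ((q : ℝ) ^ (1 / L) - 1) / (q - (q : ℝ) ^ (1 / L)) ≤ (2 * (Real.log q / L)) / (q - (q : ℝ) ^ (1 / L)) :=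
              div_le_div_of_nonneg_right h2 (by linarith)
          _ ≤ (2 * (Real.log q / L)) / (q / 2) :=
              div_le_div_of_nonneg_left (by positivity) (by positivity) e1
          _ = 4 / L * (Real.log q / q) := by
              field_simp
              ring
      constructor
      · unfold KK2
        exact div_nonneg (by linarith) (by linarith)
      · rw [e2]
        calc 1 + _ ≤ 4 / L * (Real.log q / q) + 1 := by linarith
          _ ≤ _ := Real.add_one_le_exp _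
    calc ∏ q ∈ P, KK2 (1 / L) q ≤ ∏ q ∈ P, Real.exp (4 / L * (Real.log q / q)) :=
          Finset.prod_le_prod (fun q hq => (hK q hq).1) (fun q hq => (hK q hq).2)
      _ = Real.exp (4 / L * ∑ q ∈ P, Real.log q / q) := by rw [← Real.exp_sum, mul_sum]
      _ ≤ Real.exp (4 + 4 * |C|) := by
          apply Real.exp_le_exp.mpr
          have h1 : ∑ q ∈ P, Real.log q / q ≤ ∑ p ∈ (Finset.Icc 1 Z).filter Nat.Prime, Real.log p / p := by
            apply sum_le_sum_of_subset_of_nonneg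
            · intro q hq
              obtain ⟨h1, h2, h3⟩ := hP q hq
              rw [mem_filter, mem_Icc]
              exact ⟨⟨h1.one_lt.le, h3⟩, h1⟩
            · intro p hp _
              rw [mem_filter, mem_Icc] at hp
              have : (1 : ℝ) ≤ p := by exact_mod_cast hp.1.1
              exact div_nonneg (Real.log_nonneg this) (by linarith)
          have h2 := (abs_le.mp (hC Z (by omega))).2
          rw [← hL] at h2
          have h3 : ∑ q ∈ P, Real.log q / q ≤ L * (1 + |C|) := by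
            have := le_abs_self C
            have h4 : 0 ≤ |C| := abs_nonneg C
            nlinarith
          calc 4 / L * ∑ q ∈ P, Real.log q / q ≤ 4 / L * (L * (1 + |C|)) :=
                mul_le_mul_of_nonneg_left h3 (by positivity)
            _ = 4 + 4 * |C| := by
                have : L ≠ 0 := hL0.ne'
                field_simp

open Classical in
/-- integers with a large part are rare -/
theorem large_part : ∃ C : ℝ, 0 < C ∧ ∀ (Z : ℕ), 3 ≤ Z → ∀ P : Finset ℕ, (∀ q ∈ P, q.Prime ∧ 6 < q ∧ q ≤ Z) →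
    ∀ (X : ℕ) (A : ℝ), 0 < A →
      (((Icc 1 X).filter (fun n => A < ((pp P n : ℕ) : ℝ))).card : ℝ) ≤ C * A ^ (-(1 / Real.log Z)) * X := by
  obtain ⟨C, hC0, hC⟩ := prod_KK2
  refine ⟨C, hC0, fun Z hZ P hP X A hA => ?_⟩
  obtain ⟨h1, h2⟩ := hC Z hZ P hP
  have hZr : (3 : ℝ) ≤ Z := by exact_mod_cast hZ
  have hL1 : 0 < Real.log Z := Real.log_pos (by linarith)
  obtain ⟨θ, hθ⟩ : ∃ θ, θ = 1 / Real.log (Z : ℝ) := ⟨_, rfl⟩
  have hθ0 : 0 < θ := by rw [hθ]; positivity
  rw [← hθ] at h1 h2 ⊢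
  have h3 := HP_bound θ hθ0 P (fun q hq => ⟨(hP q hq).1, h1 q hq⟩) X
  have hA' : 0 < A ^ θ := Real.rpow_pos_of_pos hA _
  have h4 : A ^ θ * (((Icc 1 X).filter (fun n => A < ((pp P n : ℕ) : ℝ))).card : ℝ) ≤ HP P θ X := by
    unfold HP
    calc A ^ θ * (((Icc 1 X).filter (fun n => A < ((pp P n : ℕ) : ℝ))).card : ℝ)
        = ∑ n ∈ (Icc 1 X).filter (fun n => A < ((pp P n : ℕ) : ℝ)), A ^ θ := by
          rw [sum_const, nsmul_eq_mul, mul_comm]
      _ ≤ ∑ n ∈ (Icc 1 X).filter (fun n => A < ((pp P n : ℕ) : ℝ)), ((pp P n : ℕ) : ℝ) ^ θ := by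
          apply sum_le_sum
          intro n hn
          exact Real.rpow_le_rpow hA.le (mem_filter.1 hn).2.le hθ0.le
      _ ≤ _ := sum_le_sum_of_subset_of_nonneg (filter_subset _ _)
          (fun _ _ _ => Real.rpow_nonneg (Nat.cast_nonneg _) _)
  have h5 : (∏ q ∈ P, KK2 θ q) * (X : ℝ) ≤ C * X := mul_le_mul_of_nonneg_right h2 (Nat.cast_nonneg _)
  rw [Real.rpow_neg hA.le]
  calc (((Icc 1 X).filter (fun n => A < ((pp P n : ℕ) : ℝ))).card : ℝ)
      = (A ^ θ)⁻¹ * (A ^ θ * (((Icc 1 X).filter (fun n => A < ((pp P n : ℕ) : ℝ))).card : ℝ)) := by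
        field_simp
    _ ≤ (A ^ θ)⁻¹ * (C * X) := mul_le_mul_of_nonneg_left (h4.trans (h3.trans h5)) (inv_nonneg.2 hA'.le)
    _ = _ := by ring

end Pool.Agent.Run7.h740.BC
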