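import Pool.Agent.Run7.h740.BC.Fin4
import Pool.Agent.N17.CK.SPL
import Pool.Agent.N17.CK.POSEND
import Pool.Agent.N17.CK.BD
import Pool.Agent.N17.CK.ROOT
import Pool.Agent.N17.CK.MAIN
import Pool.Agent.N17.HC.KOS
import Pool.Agent.N17.HC.LSP

set_option autoImplicit false
set_option maxHeartbeats 4000000

/-! Quadratic Chern roots in every codimension. -/

namespace Pool.Agent.Run7.h740.BC

open Finset Filter Polynomial Pool.Agent.R852.BC Pool.Agent.N17.HC Pool.Agent.N17.CK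

/-- the main theorem with a shift -/
lemma main_sub5 (r : ℕ) (hr : 1 ≤ r) (ε : ℝ) (hε : 0 < ε) (hε1 : ε ≤ 1) : ∃ c : ℝ, 0 < c ∧ c ≤ 1 ∧ ∀ᶠ n : ℕ in atTop, ∀ (D s : ℤ),
    ((PD n s).card : ℝ) ≤ (n : ℝ) ^ c → (|D| : ℝ) ≤ (n : ℝ) ^ (4 * Real.exp (1 / 2) - ε) →
    (∀ p : ℕ, p.Prime → r < p → p + 2 * r ≤ n + 1 → ¬ (p : ℤ) ∣ s → ∃ t : ℤ, (p : ℤ) ∣ D - t ^ 2) →
      IsSquare D := by
  obtain ⟨c, hc0, hc1, hm⟩ := Pool.Agent.Run7.h740.BC.main4 r (ε / 2) (by positivity) (by linarith)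
  refine ⟨c / 4, by positivity, by linarith, ?_⟩
  have h1 := (tendsto_sub_atTop_nat (2 * r)).eventually hm
  have h2 := pow_transfer (2 * r) (4 * Real.exp (1 / 2)) ε (by positivity) hε
  have tc : Tendsto (fun q : ℕ => (q : ℝ)) atTop atTop := tendsto_natCast_atTop_atTop
  have f1 : ∀ᶠ x : ℝ in atTop, Real.log x ≤ x ^ (c / 4) := by
    have h1 := (isLittleO_log_rpow_atTop (show (0 : ℝ) < c / 4 by positivity)).def (show (0 : ℝ) < 1 by norm_num)
    filter_upwards [h1, eventually_ge_atTop 1] with x hx hx1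
    have h3 : 0 ≤ Real.log x := Real.log_nonneg hx1
    rw [Real.norm_eq_abs, Real.norm_eq_abs, abs_of_nonneg h3, abs_of_nonneg (by positivity)] at hx
    linarith
  filter_upwards [h1, h2, tc.eventually f1, eventually_ge_atTop (4 * r + 4)] with n g1 g2 g3 hn4 D s hs hD hp
  have hn0 : (0 : ℝ) < n := by
    have : 0 < n := by omega
    exact_mod_cast this
  have hn1 : (1 : ℝ) ≤ n := by exact_mod_cast (by omega : 1 ≤ n)
  obtain ⟨B, hB⟩ : ∃ B : ℕ, B = ∏ p ∈ PD n s, p := ⟨_, rfl⟩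
  have hPD : ∀ p ∈ PD n s, p < n ∧ p.Prime ∧ (p : ℤ) ∣ s := by
    intro p hp
    unfold PD at hp
    rw [mem_filter, mem_range] at hp
    exact hp
  have hB0 : B ≠ 0 := by
    rw [hB]
    exact prod_ne_zero_iff.2 fun p hp => (hPD p hp).2.1.ne_zero
  have hBle : (B : ℝ) ≤ Real.exp (((n - 2 * r : ℕ) : ℝ) ^ c) := by
    have e1 : B ≤ n ^ (PD n s).card := by
      rw [hB]
      exact prod_le_pow_card _ _ _ fun p hp => (hPD p hp).1.le
    have e2 : (B : ℝ) ≤ (n : ℝ) ^ (PD n s).card := by exact_mod_cast e1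
    have e3 : (n : ℝ) ^ (PD n s).card = Real.exp ((PD n s).card * Real.log n) := by
      rw [Real.exp_nat_mul, Real.exp_log hn0]
    rw [e3] at e2
    refine e2.trans (Real.exp_le_exp.mpr ?_)
    have e4 : (n : ℝ) ≤ ((n - 2 * r : ℕ) : ℝ) ^ 2 := by
      have : n ≤ (n - 2 * r) ^ 2 := by
        obtain ⟨m, hm, hm2⟩ : ∃ m, n - 2 * r = m ∧ n ≤ 2 * m := ⟨n - 2 * r, rfl, by omega⟩
        have hm3 : 2 ≤ m := by omega
        rw [hm]
        nlinarith
      exact_mod_cast this
    calc ((PD n s).card : ℝ) * Real.log n ≤ (n : ℝ) ^ (c / 4) * (n : ℝ) ^ (c / 4) :=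
          mul_le_mul hs g3 (Real.log_nonneg hn1) (by positivity)
      _ = (n : ℝ) ^ (c / 2) := by
          rw [← Real.rpow_add hn0]
          congr 1
          ring
      _ ≤ (((n - 2 * r : ℕ) : ℝ) ^ 2) ^ (c / 2) := Real.rpow_le_rpow hn0.le e4 (by positivity)
      _ = ((n - 2 * r : ℕ) : ℝ) ^ c := by
          rw [← Real.rpow_natCast, ← Real.rpow_mul (Nat.cast_nonneg _)]
          congr 1
          push_cast
          ring
  refine g1 D B (by exact_mod_cast hB0) (by push_cast; rw [abs_of_nonneg (Nat.cast_nonneg _)]; exact hBle)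
    (hD.trans g2) ?_
  intro p hp1 hkp hpn hpB
  refine hp p hp1 hkp (by omega) fun hps => hpB ?_
  have hmem : p ∈ PD n s := by
    unfold PD
    rw [mem_filter, mem_range]
    exact ⟨by omega, hp1, hps⟩
  have : p ∣ B := by
    rw [hB]
    exact Finset.dvd_prod_of_mem _ hmem
  exact_mod_cast this

lemma PD_mono (n : ℕ) {a b : ℤ} (h : a ∣ b) : (PD n a).card ≤ (PD n b).card := by
  apply card_le_card
  intro p hp
  unfold PD at hp ⊢
  rw [mem_filter] at hp ⊢
  exact ⟨hp.1, hp.2.1, hp.2.2.trans h⟩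

/-- a large size in terms of the number of primes -/
lemma log_bound (r : ℕ) (c : ℝ) (hc : 0 < c) : ∀ᶠ n : ℕ in atTop,
    2 * (2 + ((r : ℝ) + 2) * ((n : ℝ) ^ (c / 4) + Real.log (2 * n + 5))) ≤ (n : ℝ) ^ c := by
  have tc : Tendsto (fun q : ℕ => (q : ℝ)) atTop atTop := tendsto_natCast_atTop_atTop
  have f1 : ∀ᶠ x : ℝ in atTop, 3 * Real.log x ≤ x ^ (c / 4) := by
    have h1 := (isLittleO_log_rpow_atTop (show (0 : ℝ) < c / 4 by positivity)).def
      (show (0 : ℝ) < 1 / 3 by norm_num)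
    filter_upwards [h1, eventually_ge_atTop 1] with x hx hx1
    have h3 : 0 ≤ Real.log x := Real.log_nonneg hx1
    rw [Real.norm_eq_abs, Real.norm_eq_abs, abs_of_nonneg h3, abs_of_nonneg (by positivity)] at hx
    linarith
  have f2 : ∀ᶠ x : ℝ in atTop, 4 * (r : ℝ) + 12 ≤ x ^ (c / 4) :=
    (tendsto_rpow_atTop (by positivity : (0 : ℝ) < c / 4)).eventually_ge_atTop _
  filter_upwards [tc.eventually f1, tc.eventually f2, eventually_ge_atTop 3] with n h1 h2 h3
  have hn0 : (0 : ℝ) < n := by positivity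
  have hn3 : (3 : ℝ) ≤ n := by exact_mod_cast h3
  have hn1 : (1 : ℝ) ≤ n := by linarith
  obtain ⟨w, hw⟩ : ∃ w, w = (n : ℝ) ^ (c / 4) := ⟨_, rfl⟩
  rw [← hw] at h1 h2 ⊢
  have h4 : Real.log (2 * n + 5) ≤ w := by
    have e1 : (2 * n + 5 : ℝ) ≤ (n : ℝ) ^ 3 := by nlinarith [mul_pos hn0 hn0]
    have e2 := Real.log_le_log (by positivity) e1
    rw [Real.log_pow] at e2
    push_cast at e2
    linarith
  have hr : (0 : ℝ) ≤ r := Nat.cast_nonneg r
  have hw1 : 1 ≤ w := by linarith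
  have h5 : (n : ℝ) ^ c = w * w * (w * w) := by
    rw [hw, ← Real.rpow_add hn0, ← Real.rpow_add hn0]
    congr 1
    ring
  have h6 : w * w ≤ w * w * (w * w) := by
    have : 1 ≤ w * w := by nlinarith
    exact le_mul_of_one_le_right (by positivity) this
  rw [h5]
  refine le_trans ?_ h6
  calc 2 * (2 + ((r : ℝ) + 2) * (w + Real.log (2 * n + 5))) ≤ 2 * (2 + ((r : ℝ) + 2) * (w + w)) := by gcongr
    _ = 4 + (4 * (r : ℝ) + 8) * w := by ring
    _ ≤ (4 * (r : ℝ) + 12) * w := by nlinarith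
    _ ≤ w * w := mul_le_mul_of_nonneg_right h2 (by linarith)

/-- **Quadratic Chern roots.** -/
theorem quad5 (r : ℕ) (hr : 1 ≤ r) (ε : ℝ) (hε : 0 < ε) : ∃ c : ℝ, 0 < c ∧ ∀ᶠ N : ℕ in atTop,
    ∀ P : ℤ[X], P.Monic → P.natDegree = r →
    (∀ i ≤ r, 0 ≤ chern r P i) →
    (∀ i < r, chern r P (i + 1) ≤ chern r P 1 * chern r P i) →
    (∀ t : ℤ, ∃ z : ℤ, kos N (rootsOf P) (N + t) = z) →
    (∀ t : ℤ, ∃ z : ℤ, ((rootsOf P).map fun b => kos N (rootsOf P) (N + t - b)).sum = z) →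
    ∀ k : ℤ, P.coeff (r - 1) = - (k + N + 1) →
    ∀ u v f s : ℤ, P2 u v ∣ P → u ^ 2 - 4 * v = f * s ^ 2 →
    (|f| : ℤ) ≤ (N : ℝ) ^ (4 * Real.exp (1 / 2) - ε) →
    ((k : ℝ) ≤ Real.exp ((N : ℝ) ^ c) ∨ ((PD N (P.coeff 0 * (u ^ 2 - 4 * v))).card : ℝ) ≤ (N : ℝ) ^ c) →
    ∃ a b : ℤ, 1 ≤ a ∧ 1 ≤ b ∧ P2 u v = (X - C a) * (X - C b) := by
  wlog hε1 : ε ≤ 1 generalizing ε
  · obtain ⟨c, hc0, h1⟩ := this 1 one_pos le_rfl
    refine ⟨c, hc0, ?_⟩
    filter_upwards [h1, eventually_ge_atTop 1] with y hy hy1 P q1 q2 q3 q4 q5 q6 k q7 u v f s q8 q9 q10 q11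
    refine hy P q1 q2 q3 q4 q5 q6 k q7 u v f s q8 q9 (q10.trans ?_) q11
    apply Real.rpow_le_rpow_of_exponent_le (by exact_mod_cast hy1)
    linarith
  obtain ⟨c, hc0, hc1, hmain⟩ := main_sub5 r hr ε hε hε1
  refine ⟨c / 4, by positivity, ?_⟩
  filter_upwards [hmain, log_bound r c hc0, eventually_ge_atTop 2] with N hN hlog hN2 P hP hrP hpos hsch h1 h2 k hk
    u v f s hdvd hfs hf hcond
  have hN0 : (0 : ℝ) < N := by positivity
  have hN1 : (1 : ℝ) ≤ N := by exact_mod_cast (by omega : 1 ≤ N)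
  obtain ⟨hP0, hPpos⟩ := t_POS r P hP hrP hpos
  have hc00 : P.coeff 0 ≠ 0 := by
    intro h
    rw [h, mul_zero] at hP0
    omega
  -- the discriminant is a square
  have hsq : IsSquare (u ^ 2 - 4 * v) := by
    by_cases hD0 : u ^ 2 - 4 * v = 0
    · rw [hD0]
      exact ⟨0, by norm_num⟩
    · -- few exceptional primes
      have hcard : ((PD N (P.coeff 0 * (u ^ 2 - 4 * v))).card : ℝ) ≤ (N : ℝ) ^ c := by
        rcases hcond with hk2 | h
        · have hW0 : P.coeff 0 * (u ^ 2 - 4 * v) ≠ 0 := mul_ne_zero hc00 hD0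
          have e1 := card_PD N _ hW0
          obtain ⟨E, hE⟩ : ∃ E : ℝ, E = 2 * ((chern r P 1 : ℤ) : ℝ) := ⟨_, rfl⟩
          have hch0 : (0 : ℝ) ≤ ((chern r P 1 : ℤ) : ℝ) := by exact_mod_cast hpos 1 hr
          have hE0 : 0 ≤ E := by rw [hE]; linarith
          have hroot : ∀ β ∈ rootsOf P, ‖β - 1‖ ≤ E := by
            rw [hE]
            exact t_ROOT r P hP hrP hpos hsch
          have hb1 := t_BD.2.2 r P E hP hrP hE0 hroot
          have hb2 := t_BD.2.1 u v E hE0 (fun β hβ => hroot β (MAIN.rootsOf_sub hP hdvd β hβ))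
          have hc1' := MAIN.chern_one r hr P hP hrP
          rw [hk] at hc1'
          have hEk : E + 1 ≤ 2 * k + 2 * N + 3 := by
            have : ((chern r P 1 : ℤ) : ℝ) = k + N + 1 - r := by
              rw [hc1']
              push_cast
              ring
            have hr0 : (0 : ℝ) ≤ r := Nat.cast_nonneg r
            rw [hE, this]
            linarith
          have hex : 1 ≤ Real.exp ((N : ℝ) ^ (c / 4)) := Real.one_le_exp (by positivity)
          have hE2 : E + 1 ≤ Real.exp ((N : ℝ) ^ (c / 4)) * (2 * N + 5) := by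
            have : Real.exp ((N : ℝ) ^ (c / 4)) * (2 * N + 5) =
              2 * Real.exp ((N : ℝ) ^ (c / 4)) + Real.exp ((N : ℝ) ^ (c / 4)) * (2 * N + 3) := by ring
            rw [this]
            nlinarith
          have hE3 : Real.log (E + 1) ≤ (N : ℝ) ^ (c / 4) + Real.log (2 * N + 5) := by
            have := Real.log_le_log (by linarith) hE2
            rwa [Real.log_mul (Real.exp_pos _).ne' (by positivity), Real.log_exp] at this
          have hWle : |((P.coeff 0 * (u ^ 2 - 4 * v) : ℤ) : ℝ)| ≤ 4 * (E + 1) ^ (r + 2) := by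
            push_cast
            rw [abs_mul]
            calc |((P.coeff 0 : ℤ) : ℝ)| * |(u : ℝ) ^ 2 - 4 * v| ≤ (E + 1) ^ r * (4 * E ^ 2) :=
                  mul_le_mul hb1 hb2 (abs_nonneg _) (by positivity)
              _ ≤ (E + 1) ^ r * (4 * (E + 1) ^ 2) := by gcongr; linarith
              _ = _ := by ring
          have hWpos : 0 < |((P.coeff 0 * (u ^ 2 - 4 * v) : ℤ) : ℝ)| := by
            have : ((P.coeff 0 * (u ^ 2 - 4 * v) : ℤ) : ℝ) ≠ 0 := by exact_mod_cast hW0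
            positivity
          have hWlog := Real.log_le_log hWpos hWle
          rw [Real.log_mul (by norm_num) (by positivity), Real.log_pow] at hWlog
          have hl4 : Real.log 4 ≤ 2 := by
            have : Real.log 4 = 2 * Real.log 2 := by
              rw [show (4 : ℝ) = 2 ^ 2 by norm_num, Real.log_pow]
              norm_num
            linarith [Real.log_two_lt_d9]
          have hl2 : (1 / 2 : ℝ) ≤ Real.log 2 := by linarith [Real.log_two_gt_d9]
          have hcd : (0 : ℝ) ≤ ((PD N (P.coeff 0 * (u ^ 2 - 4 * v))).card : ℝ) := Nat.cast_nonneg _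
          have hr0 : (0 : ℝ) ≤ r := Nat.cast_nonneg r
          push_cast at hWlog
          have h7 : ((r : ℝ) + 2) * Real.log (E + 1) ≤ ((r : ℝ) + 2) * ((N : ℝ) ^ (c / 4) + Real.log (2 * N + 5)) :=
            mul_le_mul_of_nonneg_left hE3 (by linarith)
          push_cast at e1
          nlinarith
        · exact h.trans (Real.rpow_le_rpow_of_exponent_le hN1 (by linarith))
      have hsf : IsSquare f := by
        refine hN f (P.coeff 0 * s) ?_ (by push_cast at hf; exact hf) ?_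
        · refine le_trans ?_ hcard
          have : (PD N (P.coeff 0 * s)).card ≤ (PD N (P.coeff 0 * (u ^ 2 - 4 * v))).card := by
            apply PD_mono
            rw [hfs]
            exact mul_dvd_mul_left _ (Dvd.dvd.mul_left (dvd_pow_self s two_ne_zero) f)
          exact_mod_cast this
        · intro p hp hrp hpN hps
          have hpc : ¬ (p : ℤ) ∣ P.coeff 0 := fun h => hps (Dvd.dvd.mul_right h _)
          have hps' : ¬ (p : ℤ) ∣ s := fun h => hps (Dvd.dvd.mul_left h _)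
          have hpd : ¬ (p : ℤ) ∣ (-1) ^ r * P.coeff 0 := by
            intro h
            apply hpc
            have h3 := Dvd.dvd.mul_left h ((-1) ^ r)
            rwa [← mul_assoc, ← mul_pow, neg_one_mul, neg_neg, one_pow, one_mul] at h3
          have hx := FIN.loc t_KOS t_LSP N r P hP hrP _ rfl h1 h2 p hp hrp hpN hpd
          have hQm : (P2 u v : ℤ[X]).Monic := by
            unfold P2
            monicity!
          obtain ⟨t, ht⟩ := (t_SPL p r P (P2 u v) hp hP hQm hdvd hx).2 u v rfl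
          rw [hfs] at ht
          have hpi := Nat.prime_iff_prime_int.1 hp
          obtain ⟨α, β, hαβ⟩ := (Irreducible.coprime_iff_not_dvd hpi.irreducible).mpr hps'
          refine ⟨β * t, ?_⟩
          have e : f - (β * t) ^ 2 = β ^ 2 * (f * s ^ 2 - t ^ 2) + (p : ℤ) * (f * α * (2 - α * p)) := by
            have e1 : β * s = 1 - α * p := by linarith
            have e2 : (β * s) ^ 2 = (1 - α * p) ^ 2 := by rw [e1]
            linear_combination (-f) * e2
          rw [e]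
          exact dvd_add (Dvd.dvd.mul_left ht _) (dvd_mul_right _ _)
      obtain ⟨g, hg⟩ := hsf
      exact ⟨g * s, by rw [hfs, hg]; ring⟩
  -- the factorisation
  obtain ⟨w, hw⟩ := hsq
  have hev : (2 : ℤ) ∣ u + w := by
    have h3 : (2 : ℤ) ∣ (u + w) * (u - w) := ⟨2 * v, by linear_combination hw⟩
    rcases Int.prime_two.dvd_or_dvd h3 with h4 | h4
    · exact h4
    · obtain ⟨t, ht⟩ := h4
      exact ⟨t + w, by linarith⟩
  obtain ⟨x, hx⟩ := hev
  have e2 : v = x * (u - x) := by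
    have : w = 2 * x - u := by linarith
    rw [this] at hw
    linarith
  have e : P2 u v = (X - C x) * (X - C (u - x)) := by
    unfold P2
    conv_lhs => rw [e2]
    simp only [map_mul, map_sub]
    ring
  refine ⟨x, u - x, ?_, ?_, e⟩
  · exact hPpos x (dvd_trans ⟨_, e⟩ hdvd)
  · exact hPpos (u - x) (dvd_trans ⟨X - C x, by rw [e]; ring⟩ hdvd)

end Pool.Agent.Run7.h740.BC
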