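import Pool.Agent.Run7.h740.BC.Part
import Pool.Agent.H20R2.EN.FLem

set_option autoImplicit false
set_option maxHeartbeats 4000000

/-! The sums of a multiplicative function over the integers without prime factors in a set, by the fundamental lemma. -/

namespace Pool.Agent.Run7.h740.BC

open Finset Filter Pool.Agent.H471R4.BW Pool.Agent.R852.BC

/-- the density -/
noncomputable def VP (P : Finset ℕ) : ℝ := ∏ p ∈ P, (1 - 1 / (p : ℝ))

lemma VP_ge (Z : ℕ) (hZ : 1 ≤ Z) (P : Finset ℕ) (hP : ∀ p ∈ P, p.Prime ∧ p ≤ Z) : 1 / (Z : ℝ) ≤ VP P := by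
  have h1 : ∀ Z : ℕ, 1 ≤ Z → ∏ n ∈ Icc 2 Z, (1 - 1 / (n : ℝ)) = 1 / (Z : ℝ) := by
    intro Z hZ
    induction Z, hZ using Nat.le_induction with
    | base => simp
    | succ n hn ih =>
      have hins : Icc 2 (n + 1) = insert (n + 1) (Icc 2 n) := by
        ext k
        simp only [mem_Icc, mem_insert]
        omega
      rw [hins, prod_insert (by simp), ih]
      have h2 : (n : ℝ) ≠ 0 := by
        have : (1 : ℝ) ≤ n := by exact_mod_cast hn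
        linarith
      have h3 : ((n : ℝ) + 1) ≠ 0 := by positivity
      push_cast
      field_simp
      ring
  rw [← h1 Z hZ]
  unfold VP
  have hsub : P ⊆ Icc 2 Z := by
    intro p hp
    rw [mem_Icc]
    exact ⟨(hP p hp).1.two_le, (hP p hp).2⟩
  have hpos : ∀ n ∈ Icc 2 Z, 0 ≤ 1 - 1 / (n : ℝ) ∧ 1 - 1 / (n : ℝ) ≤ 1 := by
    intro n hn
    have h2 : (2 : ℝ) ≤ n := by exact_mod_cast (mem_Icc.1 hn).1
    have h3 : 1 / (n : ℝ) ≤ 1 := by
      rw [div_le_one (by linarith)]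
      linarith
    have h4 : 0 ≤ 1 / (n : ℝ) := by positivity
    exact ⟨by linarith, by linarith⟩
  rw [← prod_sdiff hsub]
  have h5 : ∏ n ∈ Icc 2 Z \ P, (1 - 1 / (n : ℝ)) ≤ 1 :=
    prod_le_one (fun n hn => (hpos n (mem_sdiff.1 hn).1).1) (fun n hn => (hpos n (mem_sdiff.1 hn).1).2)
  have h6 : 0 ≤ ∏ n ∈ P, (1 - 1 / (n : ℝ)) := prod_nonneg fun n hn => (hpos n (hsub hn)).1
  calc (∏ n ∈ Icc 2 Z \ P, (1 - 1 / (n : ℝ))) * ∏ n ∈ P, (1 - 1 / (n : ℝ)) ≤ 1 * ∏ n ∈ P, (1 - 1 / (n : ℝ)) :=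
        mul_le_mul_of_nonneg_right h5 h6
    _ = _ := one_mul _

lemma dvd_iff (T : Finset ℕ) (hT : ∀ p ∈ T, p.Prime) (m : ℕ) : (∀ p ∈ T, p ∣ m) ↔ (∏ p ∈ T, p) ∣ m := by
  constructor
  · intro h
    exact Finset.prod_primes_dvd m (fun p hp => (hT p hp).prime) h
  · intro h p hp
    exact (Finset.dvd_prod_of_mem _ hp).trans h

open Classical in
/-- the number of the sets of primes with product at most `D` -/
lemma card_sets (P : Finset ℕ) (hP : ∀ p ∈ P, p.Prime) (D : ℕ) :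
    (P.powerset.filter (fun T : Finset ℕ => ∏ p ∈ T, p ≤ D)).card ≤ D := by
  have h1 : (P.powerset.filter (fun T : Finset ℕ => ∏ p ∈ T, p ≤ D)).card ≤ (Icc 1 D).card := by
    apply card_le_card_of_injOn (fun T => ∏ p ∈ T, p)
    · intro T hT
      rw [mem_coe, mem_filter, mem_powerset] at hT
      rw [mem_coe, mem_Icc]
      exact ⟨Nat.pos_of_ne_zero (prod_ne_zero_iff.2 fun p hp => (hP p (hT.1 hp)).ne_zero), hT.2⟩
    · intro T hT T' hT' h
      rw [mem_coe, mem_filter, mem_powerset] at hT hT'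
      have h2 : ∀ T ⊆ P, (∏ p ∈ T, p).primeFactors = T := by
        intro T hT
        exact Nat.primeFactors_prod (fun p hp => hP p (hT hp))
      simp only at h
      rw [← h2 T hT.1, ← h2 T' hT'.1, h]
  rwa [Nat.card_Icc, Nat.add_sub_cancel] at h1

open Classical in
/-- the fundamental lemma, weights `1 + Re (u f(n))` -/
theorem sv : ∃ C0 : ℕ, 1 ≤ C0 ∧ ∀ (b J z0 : ℕ) (P : Finset ℕ), C0 ≤ b → C0 ≤ z0 →
    (∀ p ∈ P, p.Prime ∧ z0 < p ∧ p ≤ 2 ^ 2 ^ J) → ∀ (N : ℕ) (χ : DirichletCharacter ℂ N) (S : Finset ℕ) (u : ℂ),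
      ‖u‖ ≤ 1 → ∀ (Y : ℕ) (Bd : ℝ), 0 ≤ Bd → (∀ d : ℕ, 1 ≤ d → ‖G χ S (Y / d)‖ ≤ Bd) →
      |∑ n ∈ (Icc 1 Y).filter (fun n => Fr P n), (1 + (u * gS χ S n).re) - Y * VP P| ≤
        (1 / 2 : ℝ) ^ b * (Y * VP P) + ((J : ℝ) + 2) * ((((2 ^ 2 ^ J) ^ (C0 * b) : ℕ) : ℝ) * (1 + ‖u‖ * Bd)) := by
  obtain ⟨C0, hC0, h⟩ := Pool.Agent.H20R2.fLem 1
  refine ⟨C0, hC0, fun b J z0 P hb hz0 hP N χ S u hu Y Bd hBd0 hBd => ?_⟩
  have key := h b J z0 P (fun p => 1 / (p : ℝ)) hb hz0 hP (fun p hp => by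
      have h2 : (2 : ℝ) ≤ p := by exact_mod_cast (hP p hp).1.two_le
      refine ⟨by positivity, ?_⟩
      push_cast
      exact one_div_le_one_div_of_le (by linarith) (by linarith))
    (Icc 1 Y) (fun n => 1 + (u * gS χ S n).re) (fun p m => p ∣ m) Y (fun _ => 1 + ‖u‖ * Bd)
    (fun m _ => by
      have h1 := Complex.abs_re_le_norm (u * gS χ S m)
      rw [norm_mul] at h1
      have h2 : ‖u‖ * ‖gS χ S m‖ ≤ 1 := mul_le_one₀ hu (norm_nonneg _) (gS_norm_le χ S m)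
      have h3 := (abs_le.1 (h1.trans h2)).1
      linarith) (Nat.cast_nonneg _) (by
      intro T hT _
      have hTp : ∀ p ∈ T, p.Prime := fun p hp => (hP p (hT hp)).1
      obtain ⟨d, hd⟩ : ∃ d, d = ∏ p ∈ T, p := ⟨_, rfl⟩
      have hd0 : 0 < d := by
        rw [hd]
        exact Nat.pos_of_ne_zero (prod_ne_zero_iff.2 fun p hp => (hTp p hp).ne_zero)
      have hf : ∀ (I : DecidablePred fun m => ∀ p ∈ T, p ∣ m),
          @Finset.filter ℕ (fun m => ∀ p ∈ T, p ∣ m) I (Icc 1 Y) = (Icc 1 Y).filter (fun m => d ∣ m) := by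
        intro I
        ext m
        rw [mem_filter, mem_filter, dvd_iff T hTp m, hd]
      have hprod : ∏ p ∈ T, (1 / (p : ℝ)) = 1 / (d : ℝ) := by
        rw [hd]
        push_cast
        rw [prod_div_distrib, prod_const_one]
      beta_reduce
      rw [hf, hprod, sum_dvdR d hd0, sum_add_distrib, sum_const, nsmul_eq_mul, mul_one, Nat.card_Icc,
        Nat.add_sub_cancel]
      have h1 : ∑ k ∈ Icc 1 (Y / d), (u * gS χ S (d * k)).re = (u * (gS χ S d * G χ S (Y / d))).re := by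
        rw [← Complex.re_sum]
        congr 1
        unfold G
        rw [mul_sum, mul_sum]
        apply sum_congr rfl
        intro k hk
        have hk0 : k ≠ 0 := by
          have := (mem_Icc.1 hk).1
          omega
        rw [gS_mul χ S hd0.ne' hk0]
      rw [h1]
      have h2 : |(u * (gS χ S d * G χ S (Y / d))).re| ≤ ‖u‖ * Bd := by
        refine (Complex.abs_re_le_norm _).trans ?_
        rw [norm_mul, norm_mul]
        apply mul_le_mul_of_nonneg_left _ (norm_nonneg _)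
        calc ‖gS χ S d‖ * ‖G χ S (Y / d)‖ ≤ 1 * Bd :=
              mul_le_mul (gS_norm_le χ S d) (hBd d hd0) (norm_nonneg _) zero_le_one
          _ = Bd := one_mul _
      have hd0' : (0 : ℝ) < d := by exact_mod_cast hd0
      have h3 : (((Y / d : ℕ) : ℕ) : ℝ) ≤ Y / d := Nat.cast_div_le
      have h4 : (Y : ℝ) / d ≤ ((Y / d : ℕ) : ℝ) + 1 := by
        rw [div_le_iff₀ hd0']
        have h5 : Y < (Y / d + 1) * d := by
          have := Nat.lt_div_mul_add hd0 (a := Y)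
          linarith [Nat.add_mul (Y / d) 1 d, this]
        exact_mod_cast h5.le
      have h6 := abs_le.1 h2
      rw [mul_one_div, abs_le]
      constructor
      · linarith [h6.1]
      · linarith [h6.2])
  have hcard := card_sets P (fun p hp => (hP p hp).1) ((2 ^ 2 ^ J) ^ (C0 * b))
  have herr : ∑ T ∈ P.powerset.filter (fun T : Finset ℕ => ∏ p ∈ T, p ≤ (2 ^ 2 ^ J) ^ (C0 * b)), (1 + ‖u‖ * Bd) ≤
      (((2 ^ 2 ^ J) ^ (C0 * b) : ℕ) : ℝ) * (1 + ‖u‖ * Bd) := by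
    rw [sum_const, nsmul_eq_mul]
    apply mul_le_mul_of_nonneg_right _ (by positivity)
    exact_mod_cast hcard
  have hV : ∏ p ∈ P, (1 - 1 / (p : ℝ)) = VP P := rfl
  have hJ : (0 : ℝ) ≤ (J : ℝ) + 2 := by positivity
  have hfin := mul_le_mul_of_nonneg_left herr hJ
  have hF : ∀ (I : DecidablePred fun m => ∀ p ∈ P, ¬ p ∣ m),
      @Finset.filter ℕ (fun m => ∀ p ∈ P, ¬ p ∣ m) I (Icc 1 Y) = (Icc 1 Y).filter (fun n => Fr P n) := by
    intro I
    ext m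
    rw [mem_filter, mem_filter]
    rfl
  beta_reduce at key
  rw [hF, hV] at key
  linarith

open Classical in
/-- comparison of the sum with the number of its terms -/
theorem compare : ∃ C0 : ℕ, 1 ≤ C0 ∧ ∀ (b J z0 : ℕ) (P : Finset ℕ), C0 ≤ b → 2 ≤ b → C0 ≤ z0 →
    (∀ p ∈ P, p.Prime ∧ z0 < p ∧ p ≤ 2 ^ 2 ^ J) → ∀ (N : ℕ) (χ : DirichletCharacter ℂ N) (S : Finset ℕ)
      (Y : ℕ) (Bd : ℝ), 0 ≤ Bd → (∀ d : ℕ, 1 ≤ d → ‖G χ S (Y / d)‖ ≤ Bd) →
      ((J : ℝ) + 2) * ((((2 ^ 2 ^ J) ^ (C0 * b) : ℕ) : ℝ) * (1 + Bd)) * (((2 ^ 2 ^ J : ℕ) : ℝ) * 2 ^ b) ≤ Y →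
      ‖Ph χ S P Y‖ ≤ 8 * (1 / 2 : ℝ) ^ b * NP P Y := by
  obtain ⟨C0, hC0, h⟩ := sv
  refine ⟨C0, hC0, fun b J z0 P hb hb2 hz0 hP N χ S Y Bd hBd0 hBd hY => ?_⟩
  obtain ⟨E, hE⟩ : ∃ E : ℝ, E = ((J : ℝ) + 2) * ((((2 ^ 2 ^ J) ^ (C0 * b) : ℕ) : ℝ) * (1 + Bd)) := ⟨_, rfl⟩
  rw [← hE] at hY
  have hE0 : 0 ≤ E := by rw [hE]; positivity
  obtain ⟨Z, hZ⟩ : ∃ Z : ℕ, Z = 2 ^ 2 ^ J := ⟨_, rfl⟩
  have hZ1 : 1 ≤ Z := by rw [hZ]; exact Nat.one_le_two_pow
  have hV := VP_ge Z hZ1 P (fun p hp => ⟨(hP p hp).1, by rw [hZ]; exact (hP p hp).2.2⟩)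
  have hZr : (0 : ℝ) < Z := by exact_mod_cast hZ1
  obtain ⟨t, ht⟩ : ∃ t : ℝ, t = (1 / 2 : ℝ) ^ b := ⟨_, rfl⟩
  have ht0 : 0 < t := by rw [ht]; positivity
  have ht4 : t ≤ 1 / 4 := by
    rw [ht]
    calc (1 / 2 : ℝ) ^ b ≤ (1 / 2 : ℝ) ^ 2 := pow_le_pow_of_le_one (by norm_num) (by norm_num) hb2
      _ = 1 / 4 := by norm_num
  obtain ⟨W, hW⟩ : ∃ W : ℝ, W = Y * VP P := ⟨_, rfl⟩
  -- the error is at most t W
  have hEW : E ≤ t * W := by
    have h1 : E * ((Z : ℝ) * 2 ^ b) ≤ Y := by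
      rw [hZ]
      exact hY
    have h2 : (0 : ℝ) < 2 ^ b := by positivity
    have h3 : t * 2 ^ b = 1 := by
      rw [ht, ← mul_pow]
      norm_num
    calc E = E * ((Z : ℝ) * 2 ^ b) * (t * (1 / Z)) := by
          field_simp
          linear_combination (-E) * h3
      _ ≤ Y * (t * (1 / Z)) := mul_le_mul_of_nonneg_right h1 (by positivity)
      _ = t * (Y * (1 / Z)) := by ring
      _ ≤ t * W := by
          rw [hW]
          exact mul_le_mul_of_nonneg_left (mul_le_mul_of_nonneg_left hV (Nat.cast_nonneg _)) ht0.le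
  have hW0 : 0 ≤ W := by
    rw [hW]
    exact mul_nonneg (Nat.cast_nonneg _) (le_trans (by positivity) hV)
  -- weight 1
  have h0 := h b J z0 P hb hz0 hP N χ S 0 (by simp) Y Bd hBd0 hBd
  have e0 : ∑ n ∈ (Icc 1 Y).filter (fun n => Fr P n), (1 + ((0 : ℂ) * gS χ S n).re) = (NP P Y : ℝ) := by
    simp [NP]
  rw [e0, norm_zero, zero_mul, add_zero, mul_one, ← hW, ← ht] at h0
  have hJ0 : ((J : ℝ) + 2) * (((2 ^ 2 ^ J) ^ (C0 * b) : ℕ) : ℝ) ≤ E := by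
    rw [hE]
    apply mul_le_mul_of_nonneg_left _ (by positivity)
    exact le_mul_of_one_le_right (Nat.cast_nonneg _) (by linarith)
  have h0' := abs_le.1 h0
  have hN1 : W / 2 ≤ NP P Y := by nlinarith [h0'.1]
  -- weight 1 + Re (u f)
  obtain ⟨u, hu, hu2⟩ : ∃ u : ℂ, ‖u‖ = 1 ∧ u * Ph χ S P Y = ‖Ph χ S P Y‖ := by
    by_cases hz : Ph χ S P Y = 0
    · exact ⟨1, by simp, by rw [hz]; simp⟩
    · refine ⟨(starRingEnd ℂ) (Ph χ S P Y) / ‖Ph χ S P Y‖, ?_, ?_⟩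
      · rw [norm_div, RCLike.norm_conj, Complex.norm_real, norm_norm]
        exact div_self (norm_ne_zero_iff.2 hz)
      · have h1 : ((‖Ph χ S P Y‖ : ℝ) : ℂ) ≠ 0 := by
          exact_mod_cast norm_ne_zero_iff.2 hz
        rw [div_mul_eq_mul_div, mul_comm, Complex.mul_conj, Complex.normSq_eq_norm_sq]
        push_cast
        field_simp
  have h1 := h b J z0 P hb hz0 hP N χ S u hu.le Y Bd hBd0 hBd
  have e1 : ∑ n ∈ (Icc 1 Y).filter (fun n => Fr P n), (1 + (u * gS χ S n).re) =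
      (NP P Y : ℝ) + ‖Ph χ S P Y‖ := by
    rw [sum_add_distrib, sum_const, nsmul_eq_mul, mul_one, ← Complex.re_sum, ← mul_sum]
    have : ∑ n ∈ (Icc 1 Y).filter (fun n => Fr P n), gS χ S n = Ph χ S P Y := rfl
    rw [this, hu2, Complex.ofReal_re]
    rfl
  rw [e1, hu, one_mul, ← hE, ← hW, ← ht] at h1
  have h1' := abs_le.1 h1
  rw [← ht]
  nlinarith [h0'.1, h1'.2, mul_nonneg ht0.le hW0]

end Pool.Agent.Run7.h740.BC
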